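import Mathlib
import Pool.Agent.Helper226.LociDefs

set_option autoImplicit false

open scoped TensorProduct
open CategoryTheory CategoryTheory.Limits AlgebraicGeometry
open Pool.Agent.Helper226

universe u

namespace Pool.Agent.Helper413.Gal

variable {k : Type u} [Field k] {B : Type u} [CommRing B] [Algebra k B] {d : ℕ}

section points
variable (𝓗₁ 𝓗₂ : HilbertScheme k B d)

/-- transport of points -/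
noncomputable def tr (R : Type u) [CommRing R] [Algebra k R]
    (f : PointsOver k 𝓗₁.H 𝓗₁.s R) : PointsOver k 𝓗₂.H 𝓗₂.s R :=
  (𝓗₂.Φ R).symm (𝓗₁.Φ R f)

lemma Φ_tr (R : Type u) [CommRing R] [Algebra k R] (f : PointsOver k 𝓗₁.H 𝓗₁.s R) :
    𝓗₂.Φ R (tr 𝓗₁ 𝓗₂ R f) = 𝓗₁.Φ R f := by
  unfold tr; rw [Equiv.apply_symm_apply]

lemma tr_tr (R : Type u) [CommRing R] [Algebra k R] (f : PointsOver k 𝓗₁.H 𝓗₁.s R) :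
    tr 𝓗₂ 𝓗₁ R (tr 𝓗₁ 𝓗₂ R f) = f := by
  unfold tr; simp

lemma tr_nat {R R' : Type u} [CommRing R] [Algebra k R] [CommRing R'] [Algebra k R']
    (g : R →ₐ[k] R') (f : PointsOver k 𝓗₁.H 𝓗₁.s R) (f' : PointsOver k 𝓗₁.H 𝓗₁.s R')
    (h : f'.1 = Spec.map (CommRingCat.ofHom g.toRingHom) ≫ f.1) :
    (tr 𝓗₁ 𝓗₂ R' f').1 = Spec.map (CommRingCat.ofHom g.toRingHom) ≫ (tr 𝓗₁ 𝓗₂ R f).1 := by
  have hp : (Spec.map (CommRingCat.ofHom g.toRingHom) ≫ (tr 𝓗₁ 𝓗₂ R f).1) ≫ 𝓗₂.s =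
      Spec.map (CommRingCat.ofHom (algebraMap k R')) := by
    rw [Category.assoc, (tr 𝓗₁ 𝓗₂ R f).2, ← Spec.map_comp, ← CommRingCat.ofHom_comp]
    congr 2
    ext x
    exact g.commutes x
  let p : PointsOver k 𝓗₂.H 𝓗₂.s R' := ⟨_, hp⟩
  have h1 := 𝓗₂.natural R R' g (tr 𝓗₁ 𝓗₂ R f) p rfl
  have h2 := 𝓗₁.natural R R' g f f' h
  rw [Φ_tr] at h1
  have h3 : 𝓗₂.Φ R' p = 𝓗₂.Φ R' (tr 𝓗₁ 𝓗₂ R' f') := by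
    rw [Φ_tr]
    exact Subtype.ext (h1.trans h2.symm)
  have h4 := (𝓗₂.Φ R').injective h3
  rw [← h4]

end points

section T

/-- the algebra structure given by a morphism to the spectrum of `k` -/
@[reducible] noncomputable def algOf {X : Scheme.{u}} (s : X ⟶ Spec (CommRingCat.of k))
    {S : CommRingCat.{u}} (x : Spec S ⟶ X) : Algebra k S :=
  (Spec.preimage (x ≫ s)).hom.toAlgebra

lemma algOf_str {X : Scheme.{u}} (s : X ⟶ Spec (CommRingCat.of k))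
    {S : CommRingCat.{u}} (x : Spec S ⟶ X) :
    x ≫ s = Spec.map (CommRingCat.ofHom (@algebraMap k S _ _ (algOf s x))) := by
  exact (Spec.map_preimage (x ≫ s)).symm

variable (𝓗₁ 𝓗₂ : HilbertScheme k B d)

/-- transport of an affine point -/
noncomputable def TT' {S : CommRingCat.{u}} (x : Spec S ⟶ 𝓗₁.H) : Spec S ⟶ 𝓗₂.H :=
  letI := algOf 𝓗₁.s x
  (tr 𝓗₁ 𝓗₂ S ⟨x, algOf_str 𝓗₁.s x⟩).1

lemma TT'_eq_aux {S : CommRingCat.{u}} (x : Spec S ⟶ 𝓗₁.H) (i : Algebra k S)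
    (hi : i = algOf 𝓗₁.s x) (hx : x ≫ 𝓗₁.s = Spec.map (CommRingCat.ofHom (algebraMap k S))) :
    TT' 𝓗₁ 𝓗₂ x = (tr 𝓗₁ 𝓗₂ S ⟨x, hx⟩).1 := by
  subst hi
  rfl

lemma TT'_eq (S : Type u) [CommRing S] [inst : Algebra k S] (f : PointsOver k 𝓗₁.H 𝓗₁.s S) :
    TT' 𝓗₁ 𝓗₂ (S := CommRingCat.of S) f.1 = (tr 𝓗₁ 𝓗₂ S f).1 := by
  have h : inst = algOf (S := CommRingCat.of S) 𝓗₁.s f.1 := by
    apply Algebra.algebra_ext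
    intro r
    have h1 := f.2
    have h2 := algOf_str 𝓗₁.s (S := CommRingCat.of S) f.1
    rw [h1] at h2
    have h3 := Spec.map_injective h2
    have h4 := congrArg (fun z => z.hom r) h3
    exact h4
  exact TT'_eq_aux 𝓗₁ 𝓗₂ (S := CommRingCat.of S) f.1 inst h f.2

lemma TT'_s {S : CommRingCat.{u}} (x : Spec S ⟶ 𝓗₁.H) : TT' 𝓗₁ 𝓗₂ x ≫ 𝓗₂.s = x ≫ 𝓗₁.s := by
  let _ := algOf 𝓗₁.s x
  rw [algOf_str 𝓗₁.s x]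
  exact (tr 𝓗₁ 𝓗₂ S ⟨x, algOf_str 𝓗₁.s x⟩).2

lemma TT'_nat {S S' : CommRingCat.{u}} (g : S ⟶ S') (x : Spec S ⟶ 𝓗₁.H) :
    TT' 𝓗₁ 𝓗₂ (Spec.map g ≫ x) = Spec.map g ≫ TT' 𝓗₁ 𝓗₂ x := by
  let i1 : Algebra k S := algOf 𝓗₁.s x
  let i2 : Algebra k S' := algOf 𝓗₁.s (Spec.map g ≫ x)
  have hg : ∀ r : k, g.hom (algebraMap k S r) = algebraMap k S' r := by
    intro r
    have h1 := algOf_str 𝓗₁.s x
    have h2 := algOf_str 𝓗₁.s (Spec.map g ≫ x)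
    rw [Category.assoc, h1, ← Spec.map_comp] at h2
    have h3 := Spec.map_injective h2
    exact congrArg (fun z => z.hom r) h3
  let g' : S →ₐ[k] S' := { g.hom with commutes' := hg }
  exact tr_nat 𝓗₁ 𝓗₂ g' ⟨x, algOf_str 𝓗₁.s x⟩ ⟨Spec.map g ≫ x, algOf_str 𝓗₁.s _⟩ rfl

lemma TT'_TT' {S : CommRingCat.{u}} (x : Spec S ⟶ 𝓗₁.H) : TT' 𝓗₂ 𝓗₁ (TT' 𝓗₁ 𝓗₂ x) = x := by
  let i1 : Algebra k S := algOf 𝓗₁.s x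
  have h1 := TT'_eq 𝓗₂ 𝓗₁ S (tr 𝓗₁ 𝓗₂ S ⟨x, algOf_str 𝓗₁.s x⟩)
  rw [tr_tr] at h1
  exact h1

lemma comp_TT' {S S' : CommRingCat.{u}} (v : Spec S' ⟶ Spec S) (x : Spec S ⟶ 𝓗₁.H) :
    v ≫ TT' 𝓗₁ 𝓗₂ x = TT' 𝓗₁ 𝓗₂ (v ≫ x) := by
  obtain ⟨g, rfl⟩ := Spec.map_surjective v
  rw [TT'_nat]

lemma glue_compat {P : Scheme.{u}} {S₁ S₂ : CommRingCat.{u}} (z₁ : P ⟶ Spec S₁)
    (z₂ : P ⟶ Spec S₂) (x₁ : Spec S₁ ⟶ 𝓗₁.H) (x₂ : Spec S₂ ⟶ 𝓗₁.H) (h : z₁ ≫ x₁ = z₂ ≫ x₂) :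
    z₁ ≫ TT' 𝓗₁ 𝓗₂ x₁ = z₂ ≫ TT' 𝓗₁ 𝓗₂ x₂ := by
  refine P.affineOpenCover.openCover.hom_ext _ _ fun l => ?_
  have key : ∀ {S S' : CommRingCat.{u}} (w : Spec S' ⟶ P) (z : P ⟶ Spec S)
      (x : Spec S ⟶ 𝓗₁.H), w ≫ z ≫ TT' 𝓗₁ 𝓗₂ x = TT' 𝓗₁ 𝓗₂ (w ≫ z ≫ x) := by
    intro S S' w z x
    rw [← Category.assoc, comp_TT', Category.assoc]
  change P.affineOpenCover.f l ≫ z₁ ≫ _ = P.affineOpenCover.f l ≫ z₂ ≫ _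
  rw [key, key, h]

/-- the transport morphism -/
noncomputable def tmor : 𝓗₁.H ⟶ 𝓗₂.H :=
  𝓗₁.H.affineOpenCover.openCover.glueMorphisms
    (fun i => TT' 𝓗₁ 𝓗₂ (𝓗₁.H.affineOpenCover.f i))
    (fun i j => glue_compat 𝓗₁ 𝓗₂ (pullback.fst (𝓗₁.H.affineOpenCover.f i)
      (𝓗₁.H.affineOpenCover.f j)) (pullback.snd _ _) _ _ pullback.condition)

lemma f_tmor (i : 𝓗₁.H.affineOpenCover.I₀) :
    𝓗₁.H.affineOpenCover.f i ≫ tmor 𝓗₁ 𝓗₂ = TT' 𝓗₁ 𝓗₂ (𝓗₁.H.affineOpenCover.f i) :=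
  𝓗₁.H.affineOpenCover.openCover.ι_glueMorphisms _ _ i

lemma comp_tmor {S : CommRingCat.{u}} (x : Spec S ⟶ 𝓗₁.H) :
    x ≫ tmor 𝓗₁ 𝓗₂ = TT' 𝓗₁ 𝓗₂ x := by
  refine Scheme.Cover.hom_ext (𝓗₁.H.affineOpenCover.openCover.pullback₁ x) _ _ fun i => ?_
  change pullback.fst x (𝓗₁.H.affineOpenCover.f i) ≫ x ≫ _ =
    pullback.fst x (𝓗₁.H.affineOpenCover.f i) ≫ _
  have h1 := glue_compat 𝓗₁ 𝓗₂ (pullback.fst x (𝓗₁.H.affineOpenCover.f i))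
    (pullback.snd x (𝓗₁.H.affineOpenCover.f i)) x (𝓗₁.H.affineOpenCover.f i)
    pullback.condition
  rw [h1, ← f_tmor, ← Category.assoc, ← Category.assoc, pullback.condition]

lemma tmor_s : tmor 𝓗₁ 𝓗₂ ≫ 𝓗₂.s = 𝓗₁.s := by
  refine 𝓗₁.H.affineOpenCover.openCover.hom_ext _ _ fun i => ?_
  change 𝓗₁.H.affineOpenCover.f i ≫ _ = 𝓗₁.H.affineOpenCover.f i ≫ _
  rw [← Category.assoc, comp_tmor, TT'_s]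

lemma tmor_tmor : tmor 𝓗₁ 𝓗₂ ≫ tmor 𝓗₂ 𝓗₁ = 𝟙 _ := by
  refine 𝓗₁.H.affineOpenCover.openCover.hom_ext _ _ fun i => ?_
  change 𝓗₁.H.affineOpenCover.f i ≫ _ = 𝓗₁.H.affineOpenCover.f i ≫ _
  rw [← Category.assoc, comp_tmor, comp_tmor, TT'_TT', Category.comp_id]

/-- two Hilbert schemes are isomorphic -/
noncomputable def tiso : 𝓗₁.H ≅ 𝓗₂.H where
  hom := tmor 𝓗₁ 𝓗₂
  inv := tmor 𝓗₂ 𝓗₁
  hom_inv_id := tmor_tmor 𝓗₁ 𝓗₂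
  inv_hom_id := tmor_tmor 𝓗₂ 𝓗₁

instance : IsIso (tmor 𝓗₁ 𝓗₂) := (tiso 𝓗₁ 𝓗₂).isIso_hom

lemma tr_val (R : Type u) [CommRing R] [Algebra k R] (f : PointsOver k 𝓗₁.H 𝓗₁.s R) :
    (tr 𝓗₁ 𝓗₂ R f).1 = f.1 ≫ tmor 𝓗₁ 𝓗₂ := by
  have h1 := comp_tmor 𝓗₁ 𝓗₂ (S := CommRingCat.of R) f.1
  rw [TT'_eq] at h1
  exact h1.symm

end T

end Pool.Agent.Helper413.Gal
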