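import Mathlib

set_option autoImplicit false

namespace Pool.Agent.Helper413.Gal

section
variable {R M α β : Type*} [CommRing R] [AddCommGroup M] [Module R M]

/-- the value of a list of terms: pairs of a code and an exponent of `ι` -/
def ev (ι : R) (m : α → M) (L : List (α × ℕ)) : M := (L.map fun t => ι ^ t.2 • m t.1).sum

variable (ι : R) (m : α → M)

@[simp] lemma ev_nil : ev ι m [] = 0 := rfl

@[simp] lemma ev_cons (t : α × ℕ) (L : List (α × ℕ)) :
    ev ι m (t :: L) = ι ^ t.2 • m t.1 + ev ι m L := by
  simp [ev]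

@[simp] lemma ev_append (L L' : List (α × ℕ)) : ev ι m (L ++ L') = ev ι m L + ev ι m L' := by
  simp [ev]

lemma ev_shift (e : ℕ) (L : List (α × ℕ)) :
    ev ι m (L.map fun s => (s.1, s.2 + e)) = ι ^ e • ev ι m L := by
  induction L with
  | nil => simp
  | cons t L ih =>
    rw [List.map_cons, ev_cons, ev_cons, ih, smul_add, smul_smul, pow_add, mul_comm]

lemma ev_map (f : α → β) (m : β → M) (L : List (α × ℕ)) :
    ev ι m (L.map fun s => (f s.1, s.2)) = ev ι (fun a => m (f a)) L := by
  simp [ev, Function.comp_def]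

lemma ev_flatMap {γ : Type*} (f : γ → List (α × ℕ)) (L : List γ) :
    ev ι m (L.flatMap f) = (L.map fun t => ev ι m (f t)).sum := by
  induction L with
  | nil => simp
  | cons t L ih => rw [List.flatMap_cons, ev_append, ih, List.map_cons, List.sum_cons]

/-- substitution of terms -/
def bindT (L : List (β × ℕ)) (f : β → List (α × ℕ)) : List (α × ℕ) :=
  L.flatMap fun t => (f t.1).map fun s => (s.1, s.2 + t.2)

lemma ev_bindT (L : List (β × ℕ)) (f : β → List (α × ℕ)) :
    ev ι m (bindT L f) = ev ι (fun b => ev ι m (f b)) L := by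
  unfold bindT
  rw [ev_flatMap]
  simp only [ev_shift]
  rfl

lemma ev_congr {m m' : α → M} {L : List (α × ℕ)} (h : ∀ t ∈ L, m t.1 = m' t.1) :
    ev ι m L = ev ι m' L := by
  unfold ev
  congr 1
  apply List.map_congr_left
  intro t ht
  rw [h t ht]

lemma ev_add (m m' : α → M) (L : List (α × ℕ)) :
    ev ι (fun a => m a + m' a) L = ev ι m L + ev ι m' L := by
  induction L with
  | nil => simp
  | cons t L ih => rw [ev_cons, ev_cons, ev_cons, ih, smul_add]; abel

lemma ev_smul (r : R) (m : α → M) (L : List (α × ℕ)) :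
    ev ι (fun a => r • m a) L = r • ev ι m L := by
  induction L with
  | nil => simp
  | cons t L ih => rw [ev_cons, ev_cons, ih, smul_add, smul_comm]

lemma ev_neg (m : α → M) (L : List (α × ℕ)) :
    ev ι (fun a => - m a) L = - ev ι m L := by
  induction L with
  | nil => simp
  | cons t L ih => rw [ev_cons, ev_cons, ih, smul_neg, neg_add]

lemma ev_zero (L : List (α × ℕ)) : ev ι (fun _ => (0 : M)) L = 0 := by
  induction L with
  | nil => simp
  | cons t L ih => rw [ev_cons, ih, smul_zero, add_zero]

lemma ev_sum {γ : Type*} (s : Finset γ) (f : γ → α → M) (L : List (α × ℕ)) :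
    ev ι (fun a => ∑ i ∈ s, f i a) L = ∑ i ∈ s, ev ι (f i) L := by
  induction L with
  | nil => simp
  | cons t L ih => simp only [ev_cons, ih, Finset.smul_sum, Finset.sum_add_distrib]

lemma map_ev {R' M' : Type*} [CommRing R'] [AddCommGroup M'] [Module R' M'] (φ : R →+* R')
    (f : M →+ M') (hf : ∀ (r : R) (x : M), f (r • x) = φ r • f x) (L : List (α × ℕ)) :
    f (ev ι m L) = ev (φ ι) (fun a => f (m a)) L := by
  induction L with
  | nil => simp
  | cons t L ih => rw [ev_cons, ev_cons, map_add, hf, ih, map_pow]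

lemma linear_ev {M' : Type*} [AddCommGroup M'] [Module R M'] (f : M →ₗ[R] M')
    (L : List (α × ℕ)) : f (ev ι m L) = ev ι (fun a => f (m a)) L :=
  map_ev ι m (RingHom.id R) f.toAddMonoidHom (fun r x => by simp) L

lemma ev_filter (p : α → Bool) (h : ∀ a, p a = false → m a = 0) (L : List (α × ℕ)) :
    ev ι m (L.filter fun t => p t.1) = ev ι m L := by
  induction L with
  | nil => simp
  | cons t L ih =>
    rw [List.filter_cons]
    split_ifs with h1
    · rw [ev_cons, ev_cons, ih]
    · rw [ev_cons, ih, h t.1 (by simpa using h1), smul_zero, zero_add]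

variable {ι}

lemma pow_add_two (hι : ι ^ 2 = -1) (e : ℕ) : ι ^ (e + 2) = - ι ^ e := by
  rw [pow_add, hι]; ring

lemma pow_four (hι : ι ^ 2 = -1) : ι ^ 4 = 1 := by
  rw [show 4 = 2 * 2 from rfl, pow_mul, hι]; ring

lemma pow_mod4 (hι : ι ^ 2 = -1) (e : ℕ) : ι ^ (e % 4) = ι ^ e := by
  conv_rhs => rw [← Nat.div_add_mod e 4, pow_add, pow_mul, pow_four hι, one_pow, one_mul]

lemma pow_eq_of_mod4 (hι : ι ^ 2 = -1) {e e' : ℕ} (h : e % 4 = e' % 4) : ι ^ e = ι ^ e' := by
  rw [← pow_mod4 hι e, h, pow_mod4 hι]

/-- negation of a list of terms -/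
def negT (L : List (α × ℕ)) : List (α × ℕ) := L.map fun s => (s.1, s.2 + 2)

lemma ev_negT (hι : ι ^ 2 = -1) (L : List (α × ℕ)) : ev ι m (negT L) = - ev ι m L := by
  unfold negT
  rw [ev_shift, hι]
  simp

/-- remove a term opposite to `ι ^ e • a` -/
def remT [DecidableEq α] (a : α) (e : ℕ) : List (α × ℕ) → Option (List (α × ℕ))
  | [] => none
  | (b, e') :: L =>
    bif decide (a = b) && Nat.beq ((e' + 2) % 4) (e % 4) then some L
    else match remT a e L with
      | none => none
      | some L' => some ((b, e') :: L')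

lemma remT_spec [DecidableEq α] (hι : ι ^ 2 = -1) (a : α) (e : ℕ) (L L' : List (α × ℕ))
    (h : remT a e L = some L') : ev ι m L = - (ι ^ e • m a) + ev ι m L' := by
  induction L generalizing L' with
  | nil => simp [remT] at h
  | cons t L ih =>
    obtain ⟨b, e'⟩ := t
    rw [remT] at h
    cases hc : (decide (a = b) && Nat.beq ((e' + 2) % 4) (e % 4)) with
    | true =>
      rw [hc, cond_true, Option.some.injEq] at h
      subst h
      rw [Bool.and_eq_true, decide_eq_true_eq] at hc
      obtain ⟨rfl, h2⟩ := hc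
      have h2 := Nat.eq_of_beq_eq_true h2
      rw [ev_cons]
      have h3 : ι ^ e = - ι ^ e' := by
        rw [← pow_add_two hι, pow_eq_of_mod4 hι h2]
      rw [h3, neg_smul, neg_neg]
    | false =>
      rw [hc, cond_false] at h
      cases hr : remT a e L with
      | none => rw [hr] at h; simp at h
      | some L'' =>
        rw [hr] at h
        simp only [Option.some.injEq] at h
        subst h
        rw [ev_cons, ev_cons, ih _ hr]
        abel

/-- a sufficient test for a list of terms to have value zero -/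
def isZ [DecidableEq α] : ℕ → List (α × ℕ) → Bool
  | _, [] => true
  | 0, _ :: _ => false
  | n + 1, (a, e) :: L =>
    match remT a e L with
    | none => false
    | some L' => isZ n L'

lemma isZ_spec [DecidableEq α] (hι : ι ^ 2 = -1) (n : ℕ) (L : List (α × ℕ))
    (h : isZ n L = true) : ev ι m L = 0 := by
  induction n generalizing L with
  | zero =>
    cases L with
    | nil => simp
    | cons t L => simp [isZ] at h
  | succ n ih =>
    cases L with
    | nil => simp
    | cons t L =>
      obtain ⟨a, e⟩ := t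
      rw [isZ] at h
      cases hr : remT a e L with
      | none => rw [hr] at h; simp at h
      | some L' =>
        rw [hr] at h
        rw [ev_cons, remT_spec m hι a e L L' hr, ih L' h]
        simp

/-- equality test -/
def eqT [DecidableEq α] (L L' : List (α × ℕ)) : Bool :=
  isZ (L.length + L'.length) (L ++ negT L')

lemma eqT_spec [DecidableEq α] (hι : ι ^ 2 = -1) {L L' : List (α × ℕ)}
    (h : eqT L L' = true) : ev ι m L = ev ι m L' := by
  have := isZ_spec m hι _ _ h
  rw [ev_append, ev_negT m hι, ← sub_eq_add_neg, sub_eq_zero] at this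
  exact this

end

end Pool.Agent.Helper413.Gal
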