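import Mathlib
import Pool.Agent.Helper413.Gal.Terms
import Pool.Agent.Helper413.Gal.Data

set_option autoImplicit false

namespace Pool.Agent.Helper413.Gal

/-- row `g` of the operator of multiplication by the variable `l` -/
def T (l g : ℕ) : List (ℕ × ℕ) := (tL.getD l []).getD g []

lemma T_big {l g : ℕ} (h : 66 ≤ g) : T l g = [] := by
  unfold T
  apply List.getD_eq_default
  refine le_trans ?_ h
  have h2 : ∀ x ∈ tL, x.length ≤ 66 := by decide +kernel
  by_cases h1 : l < tL.length
  · rw [List.getD_eq_getElem _ _ h1]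
    exact h2 _ (List.getElem_mem h1)
  · rw [List.getD_eq_default _ _ (not_lt.1 h1)]
    simp

/-- row `g` of a product of operators -/
def rowL : List ℕ → ℕ → List (ℕ × ℕ)
  | [], g => [(g, 0)]
  | l :: L, g => bindT (T l g) (rowL L)

/-- terms of code zero -/
def z0 (L : List (ℕ × ℕ)) : List (ℕ × ℕ) := L.filter fun t => Nat.beq t.1 0

def bm (j : ℕ) : List ℕ := bmL.getD j []
def qq (s : ℕ) : List (List ℕ × ℕ) := qL.getD s []

/-- leading monomial of the quadric `s` -/
def lead (s : ℕ) : List ℕ := match qq s with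
  | [] => []
  | t :: _ => t.1

/-- quadrics with leading monomial `x_a x_b` -/
def sAB (a b : ℕ) : List ℕ :=
  (List.range 23).filter fun s => decide (lead s = [a, b]) || decide (lead s = [b, a])

lemma sAB_comm (a b : ℕ) : sAB a b = sAB b a := by
  unfold sAB
  congr 1
  ext s
  rw [Bool.or_comm]

section checks

def chkComm : Bool :=
  (List.range 10).all fun l => (List.range l).all fun m => (List.range 66).all fun g =>
    eqT (rowL [l, m] g) (rowL [m, l] g)

theorem chkComm_true : chkComm = true := by decide +kernel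

def chkBasis : Bool :=
  (List.range 66).all fun j => (List.range 66).all fun g =>
    eqT (z0 (rowL (bm j) g)) (bif Nat.beq g j then [(0, 0)] else [])

theorem chkBasis_true : chkBasis = true := by decide +kernel

def chkQuad : Bool :=
  (List.range 23).all fun s => (List.range 66).all fun g =>
    isZ 100 ((qq s).flatMap fun t => (z0 (rowL t.1 g)).map fun u => (u.1, u.2 + t.2))

theorem chkQuad_true : chkQuad = true := by decide +kernel

def chkT43 : Bool :=
  (List.range 10).all fun l => (List.range 66).all fun g => (T l g).all fun t => Nat.blt t.1 43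

theorem chkT43_true : chkT43 = true := by decide +kernel

/-- rows in degree one -/
def chkT1 : Bool :=
  (List.range 10).all fun l => (List.range 10).all fun k =>
    decide (T l (k + 1) = if k = l then [(0, 0)] else [])

theorem chkT1_true : chkT1 = true := by decide +kernel

end checks

section
variable {R : Type*} [CommRing R]

/-- extension of a vector by zero -/
def ex (v : Fin 66 → R) (n : ℕ) : R := if h : n < 66 then v ⟨n, h⟩ else 0

@[simp] lemma ex_val (v : Fin 66 → R) (i : Fin 66) : ex v (i : ℕ) = v i := by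
  simp [ex]

lemma ex_of_lt (v : Fin 66 → R) {n : ℕ} (h : n < 66) : ex v n = v ⟨n, h⟩ := by
  simp [ex, h]

lemma ex_big (v : Fin 66 → R) {n : ℕ} (h : 66 ≤ n) : ex v n = 0 := by
  simp [ex, not_lt.2 h]

lemma ex_add (v w : Fin 66 → R) (n : ℕ) : ex (v + w) n = ex v n + ex w n := by
  unfold ex; split_ifs <;> simp

lemma ex_smul (r : R) (v : Fin 66 → R) (n : ℕ) : ex (r • v) n = r * ex v n := by
  unfold ex; split_ifs <;> simp

lemma ex_zero (n : ℕ) : ex (0 : Fin 66 → R) n = 0 := by
  unfold ex; split_ifs <;> simp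

lemma ex_sum {γ : Type*} (s : Finset γ) (f : γ → Fin 66 → R) (n : ℕ) :
    ex (∑ i ∈ s, f i) n = ∑ i ∈ s, ex (f i) n := by
  unfold ex; split_ifs <;> simp

lemma ext_ex {v w : Fin 66 → R} (h : ∀ n < 66, ex v n = ex w n) : v = w := by
  ext i
  have := h i i.2
  rwa [ex_val, ex_val] at this

/-- the first basis vector -/
def e0 : Fin 66 → R := Pi.single 0 1

lemma ex_single (j : Fin 66) (n : ℕ) : ex (Pi.single j 1 : Fin 66 → R) n =
    if n = (j : ℕ) then 1 else 0 := by
  unfold ex
  by_cases h : n < 66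
  · rw [dif_pos h, Pi.single_apply]
    simp [Fin.ext_iff]
  · rw [dif_neg h, if_neg]
    rintro rfl
    exact h j.2

lemma ex_e0 (n : ℕ) : ex (e0 : Fin 66 → R) n = if n = 0 then 1 else 0 := by
  unfold e0
  rw [ex_single]
  rfl

/-- multiplication by the variable `l` -/
def xop (ι : R) (l : ℕ) : Module.End R (Fin 66 → R) where
  toFun v := fun g => ev ι (ex v) (T l g)
  map_add' v w := by
    ext g
    rw [Pi.add_apply, ← ev_add]
    exact congrArg (fun m => ev ι m (T l g)) (funext (ex_add v w))
  map_smul' r v := by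
    ext g
    rw [RingHom.id_apply, Pi.smul_apply, ← ev_smul]
    exact congrArg (fun m => ev ι m (T l g)) (funext (ex_smul r v))

lemma ex_xop (ι : R) (l : ℕ) (v : Fin 66 → R) (n : ℕ) :
    ex (xop ι l v) n = ev ι (ex v) (T l n) := by
  by_cases h : n < 66
  · rw [ex_of_lt _ h]; rfl
  · rw [ex_big _ (not_lt.1 h), T_big (not_lt.1 h), ev_nil]

lemma ex_rowL (ι : R) (L : List ℕ) (v : Fin 66 → R) (g : ℕ) :
    ex ((L.map (xop ι)).prod v) g = ev ι (ex v) (rowL L g) := by
  induction L generalizing g with
  | nil => simp [rowL]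
  | cons l L ih =>
    rw [List.map_cons, List.prod_cons, rowL, ev_bindT]
    change ex (xop ι l ((L.map (xop ι)).prod v)) g = _
    rw [ex_xop]
    exact congrArg (fun m => ev ι m (T l g)) (funext ih)

lemma ev_e0 (ι : R) (L : List (ℕ × ℕ)) :
    ev ι (ex (e0 : Fin 66 → R)) L = ev ι (ex e0) (z0 L) := by
  unfold z0
  rw [ev_filter ι (ex e0) (fun a => Nat.beq a 0)]
  intro a ha
  rw [ex_e0, if_neg]
  rintro rfl
  simp at ha

variable {ι : R} (hι : ι ^ 2 = -1)
include hι

lemma xop_comm (l m : Fin 10) : Commute (xop ι l) (xop ι m) := by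
  have key : ∀ l m : ℕ, l < 10 → m < l → Commute (xop ι l) (xop ι m) := by
    intro l m hl hm
    refine LinearMap.ext fun v => ext_ex fun g hg => ?_
    have h := chkComm_true
    unfold chkComm at h
    rw [List.all_eq_true] at h
    have h := h l (List.mem_range.2 hl)
    rw [List.all_eq_true] at h
    have h := h m (List.mem_range.2 hm)
    rw [List.all_eq_true] at h
    have h := eqT_spec (ex v) hι (h g (List.mem_range.2 hg))
    rw [← ex_rowL, ← ex_rowL] at h
    simpa using h
  rcases lt_trichotomy (l : ℕ) m with h | h | h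
  · exact (key m l m.2 h).symm
  · rw [h]
  · exact key l m l.2 h

lemma basis_apply (j : Fin 66) : ((bm j).map (xop ι)).prod e0 = Pi.single j 1 := by
  refine ext_ex fun g hg => ?_
  rw [ex_rowL, ev_e0]
  have h := chkBasis_true
  unfold chkBasis at h
  rw [List.all_eq_true] at h
  have h := h j (List.mem_range.2 j.2)
  rw [List.all_eq_true] at h
  rw [eqT_spec (ex e0) hι (h g (List.mem_range.2 hg)), ex_single]
  by_cases hgj : g = j
  · subst hgj
    simp [ex_e0]
  · rw [if_neg hgj]
    have : Nat.beq g j = false := by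
      rw [← Bool.not_eq_true]
      intro h2
      exact hgj (Nat.eq_of_beq_eq_true h2)
    rw [this, cond_false, ev_nil]

lemma quad_apply (s : ℕ) (hs : s < 23) :
    ev ι (fun L : List ℕ => (L.map (xop ι)).prod e0) (qq s) = 0 := by
  refine ext_ex fun g hg => ?_
  have h := chkQuad_true
  unfold chkQuad at h
  rw [List.all_eq_true] at h
  have h := h s (List.mem_range.2 hs)
  rw [List.all_eq_true] at h
  have h := isZ_spec (ex e0 : ℕ → R) hι _ _ (h g (List.mem_range.2 hg))
  rw [ev_flatMap] at h
  have h1 : ∀ t : List ℕ × ℕ, ev ι (ex e0 : ℕ → R) ((z0 (rowL t.1 g)).map fun u => (u.1, u.2 + t.2)) =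
      ι ^ t.2 • ex ((t.1.map (xop ι)).prod e0) g := by
    intro t
    rw [ev_shift, ← ev_e0, ex_rowL]
  simp only [h1] at h
  have h2 : ex (ev ι (fun L : List ℕ => (L.map (xop ι)).prod e0) (qq s)) g =
      ev ι (fun L : List ℕ => ex ((L.map (xop ι)).prod e0) g) (qq s) := by
    let f : (Fin 66 → R) →ₗ[R] R :=
      { toFun := fun v => ex v g, map_add' := fun v w => ex_add v w g,
        map_smul' := fun r v => ex_smul r v g }
    exact linear_ev ι _ f (qq s)
  rw [h2, ex_zero]
  exact h

omit hι in
lemma T_lt43 {l g : ℕ} (hl : l < 10) (hg : g < 66) {t : ℕ × ℕ} (ht : t ∈ T l g) : t.1 < 43 := by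
  have h := chkT43_true
  unfold chkT43 at h
  rw [List.all_eq_true] at h
  have h := h l (List.mem_range.2 hl)
  rw [List.all_eq_true] at h
  have h := h g (List.mem_range.2 hg)
  rw [List.all_eq_true] at h
  simpa using h t ht

omit hι in
lemma T_one {l k : ℕ} (hl : l < 10) (hk : k < 10) :
    T l (k + 1) = if k = l then [(0, 0)] else [] := by
  have h := chkT1_true
  unfold chkT1 at h
  rw [List.all_eq_true] at h
  have h := h l (List.mem_range.2 hl)
  rw [List.all_eq_true] at h
  simpa using h k (List.mem_range.2 hk)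

end

section cop
variable {R : Type*} [CommRing R]

/-- the coefficient of the perturbation of the product `x_j x_k` -/
def kap (c : ℕ → ℕ → R) (j k τ : ℕ) : R := ((sAB j k).map fun s => c s τ).sum

lemma kap_comm (c : ℕ → ℕ → R) (j k τ : ℕ) : kap c j k τ = kap c k j τ := by
  unfold kap
  rw [sAB_comm]

/-- the perturbation of the multiplication operators -/
def cop (c : ℕ → ℕ → R) (j : ℕ) : Module.End R (Fin 66 → R) where
  toFun v := fun g => if 43 ≤ (g : ℕ) then - ∑ k : Fin 10, kap c j k (g - 43) * ex v (k + 1) else 0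
  map_add' v w := by
    ext g
    simp only [ex_add, Pi.add_apply, mul_add, Finset.sum_add_distrib]
    split_ifs
    · rw [neg_add]
    · simp
  map_smul' r v := by
    ext g
    simp only [ex_smul, Pi.smul_apply, smul_eq_mul, RingHom.id_apply]
    split_ifs
    · rw [mul_neg, Finset.mul_sum]
      congr 1
      exact Finset.sum_congr rfl fun k _ => by ring
    · simp

lemma cop_apply (c : ℕ → ℕ → R) (j : ℕ) (v : Fin 66 → R) (g : Fin 66) :
    cop c j v g = if 43 ≤ (g : ℕ) then - ∑ k : Fin 10, kap c j k (g - 43) * ex v (k + 1) else 0 :=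
  rfl

lemma ex_cop_lt (c : ℕ → ℕ → R) (j : ℕ) (v : Fin 66 → R) {n : ℕ} (h : n < 43) :
    ex (cop c j v) n = 0 := by
  rw [ex_of_lt _ (by omega), cop_apply, if_neg (by simp; omega)]

/-- perturbed operators -/
def yop (ι : R) (c : ℕ → ℕ → R) (j : ℕ) : Module.End R (Fin 66 → R) := xop ι j + cop c j

lemma cop_cop (c : ℕ → ℕ → R) (j k : ℕ) : cop c j * cop c k = 0 := by
  refine LinearMap.ext fun v => ?_
  ext g
  change cop c j (cop c k v) g = 0
  rw [cop_apply]
  split_ifs
  · rw [Finset.sum_eq_zero, neg_zero]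
    intro i _
    rw [ex_cop_lt c k v (by omega), mul_zero]
  · rfl

lemma xop_cop (ι : R) (c : ℕ → ℕ → R) (j : Fin 10) (k : ℕ) : xop ι j * cop c k = 0 := by
  refine LinearMap.ext fun v => ext_ex fun g hg => ?_
  change ex (xop ι j (cop c k v)) g = _
  rw [ex_xop, ev_congr (m' := fun _ => 0), ev_zero]
  · simp [ex_zero]
  · intro t ht
    exact ex_cop_lt c k v (T_lt43 j.2 hg ht)

lemma ex_xop_one (ι : R) (k i : Fin 10) (v : Fin 66 → R) :
    ex (xop ι k v) (i + 1) = if i = k then ex v 0 else 0 := by
  rw [ex_xop, T_one k.2 i.2]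
  by_cases h : (i : ℕ) = k
  · rw [if_pos h, if_pos (Fin.ext h)]
    simp
  · rw [if_neg h, if_neg (fun h' => h (by rw [h'])), ev_nil]

lemma cop_xop_apply (ι : R) (c : ℕ → ℕ → R) (j : ℕ) (k : Fin 10) (v : Fin 66 → R) (g : Fin 66) :
    cop c j (xop ι k v) g = if 43 ≤ (g : ℕ) then - (kap c j k (g - 43) * ex v 0) else 0 := by
  rw [cop_apply]
  split_ifs
  · congr 1
    rw [Finset.sum_eq_single k]
    · rw [ex_xop_one, if_pos rfl]
    · intro i _ hi
      rw [ex_xop_one, if_neg hi, mul_zero]
    · simp
  · rfl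

lemma cop_xop_comm (ι : R) (c : ℕ → ℕ → R) (j k : Fin 10) :
    cop c j * xop ι k = cop c k * xop ι j := by
  refine LinearMap.ext fun v => ?_
  ext g
  change cop c j (xop ι k v) g = cop c k (xop ι j v) g
  rw [cop_xop_apply, cop_xop_apply, kap_comm c k j]

lemma yop_comm {ι : R} (hι : ι ^ 2 = -1) (c : ℕ → ℕ → R) (j k : Fin 10) :
    Commute (yop ι c j) (yop ι c k) := by
  unfold yop Commute SemiconjBy
  rw [add_mul, mul_add, mul_add, add_mul, mul_add, mul_add, xop_cop, xop_cop, cop_cop, cop_cop,
    (xop_comm hι j k).eq, cop_xop_comm ι c j k]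

end cop

end Pool.Agent.Helper413.Gal
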