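import Mathlib
import Pool.Agent.Helper226.HilbChart
import Pool.Agent.Helper413.Gal.Ops

set_option autoImplicit false
set_option linter.unusedSectionVars false

open scoped TensorProduct
open MvPolynomial Pool.Agent.Helper226

namespace Pool.Agent.Helper413.Gal

section act
variable {R : Type*} [CommRing R]

/-- commuting tuples -/
def CommT (Y : Fin 10 → Module.End R (Fin 66 → R)) : Prop := ∀ i j, Commute (Y i) (Y j)

/-- the representation of the polynomial ring given by commuting operators -/
noncomputable def act (Y : Fin 10 → Module.End R (Fin 66 → R)) (hY : CommT Y) :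
    MvPolynomial (Fin 10) R →ₐ[R] Module.End R (Fin 66 → R) :=
  letI : CommRing (Algebra.adjoin R (Set.range Y)) :=
    { (inferInstance : Ring (Algebra.adjoin R (Set.range Y))) with
      mul_comm := by
        have := Algebra.isMulCommutative_adjoin R (s := Set.range Y) (by
          rintro _ ⟨i, rfl⟩ _ ⟨j, rfl⟩
          exact hY i j)
        exact fun a b => this.is_comm.comm a b }
  (Algebra.adjoin R (Set.range Y)).val.comp
    (aeval fun i => (⟨Y i, Algebra.subset_adjoin ⟨i, rfl⟩⟩ : Algebra.adjoin R (Set.range Y)))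

@[simp] lemma act_X (Y : Fin 10 → Module.End R (Fin 66 → R)) (hY : CommT Y) (i : Fin 10) :
    act Y hY (X i) = Y i := by
  simp [act]

@[simp] lemma act_C (Y : Fin 10 → Module.End R (Fin 66 → R)) (hY : CommT Y) (r : R)
    (v : Fin 66 → R) : act Y hY (C r) v = r • v := by
  have : act Y hY (C r) = algebraMap R _ r := (act Y hY).commutes r
  rw [this]
  rfl

lemma act_aeval (Y : Fin 10 → Module.End R (Fin 66 → R)) (hY : CommT Y)
    (z : Fin 10 → MvPolynomial (Fin 10) R) (h : CommT fun j => act Y hY (z j))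
    (f : MvPolynomial (Fin 10) R) :
    act Y hY (aeval z f) = act (fun j => act Y hY (z j)) h f := by
  have : (act Y hY).comp (aeval z) = act (fun j => act Y hY (z j)) h := by
    apply MvPolynomial.algHom_ext
    intro i
    simp
  exact DFunLike.congr_fun this f

lemma commT_act (Y : Fin 10 → Module.End R (Fin 66 → R)) (hY : CommT Y)
    (z : Fin 10 → MvPolynomial (Fin 10) R) : CommT fun j => act Y hY (z j) := by
  intro i j
  unfold Commute SemiconjBy
  rw [← map_mul, ← map_mul, mul_comm]

lemma act_congr {Y Y' : Fin 10 → Module.End R (Fin 66 → R)} (h : Y = Y') (hY : CommT Y)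
    (hY' : CommT Y') : act Y hY = act Y' hY' := by
  subst h; rfl

variable {R' : Type*} [CommRing R']

/-- functoriality -/
lemma act_map (φ : R →+* R') (Y : Fin 10 → Module.End R (Fin 66 → R)) (hY : CommT Y)
    (Y' : Fin 10 → Module.End R' (Fin 66 → R')) (hY' : CommT Y')
    (h : ∀ i v, (fun g => φ (Y i v g)) = Y' i (fun g => φ (v g)))
    (f : MvPolynomial (Fin 10) R) (v : Fin 66 → R) :
    (fun g => φ (act Y hY f v g)) = act Y' hY' (map φ f) (fun g => φ (v g)) := by
  induction f using MvPolynomial.induction_on generalizing v with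
  | C a =>
    rw [act_C, map_C, act_C]
    ext g
    simp
  | add p q hp hq =>
    rw [map_add, map_add, map_add]
    change (fun g => φ (act Y hY p v g + act Y hY q v g)) =
      act Y' hY' (map φ p) _ + act Y' hY' (map φ q) _
    rw [← hp, ← hq]
    ext g
    simp
  | mul_X p i hp =>
    rw [map_mul, map_mul, map_mul, map_X, act_X, act_X]
    change (fun g => φ (act Y hY p (Y i v) g)) = act Y' hY' (map φ p) (Y' i _)
    rw [hp, h]

end act

section mono

/-- the basis monomials -/
noncomputable def mono {Q : Type*} [CommMonoid Q] (y : ℕ → Q) (L : List ℕ) : Q := (L.map y).prod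

/-- variables indexed by natural numbers -/
noncomputable def xv (R : Type*) [CommRing R] (n : ℕ) : MvPolynomial (Fin 10) R :=
  if h : n < 10 then X ⟨n, h⟩ else 0

@[simp] lemma xv_val {R : Type*} [CommRing R] (i : Fin 10) : xv R (i : ℕ) = X i := by
  simp [xv]

lemma map_xv {R R' : Type*} [CommRing R] [CommRing R'] (φ : R →+* R') (n : ℕ) :
    map φ (xv R n) = xv R' n := by
  unfold xv
  split_ifs <;> simp

/-- the monomials forming the basis -/
noncomputable def bR (R : Type*) [CommRing R] (j : Fin 66) : MvPolynomial (Fin 10) R :=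
  mono (xv R) (bm j)

lemma map_bR {R R' : Type*} [CommRing R] [CommRing R'] (φ : R →+* R') (j : Fin 66) :
    map φ (bR R j) = bR R' j := by
  unfold bR mono
  rw [map_list_prod, List.map_map]
  congr 2
  ext n : 1
  exact map_xv φ n

/-- the basis over the rationals -/
noncomputable abbrev bQ : Fin 66 → MvPolynomial (Fin 10) ℚ := bR ℚ

/-- matrix of the vectors of the basis monomials -/
noncomputable def NN {R : Type*} [CommRing R] (Y : Fin 10 → Module.End R (Fin 66 → R)) (hY : CommT Y) :
    Matrix (Fin 66) (Fin 66) R := Matrix.of fun g j => act Y hY (bR R j) e0 g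

lemma NN_mulVec {R : Type*} [CommRing R] (Y : Fin 10 → Module.End R (Fin 66 → R)) (hY : CommT Y) (v : Fin 66 → R) :
    (NN Y hY).mulVec v = ∑ j, v j • act Y hY (bR R j) e0 := by
  ext g
  simp [Matrix.mulVec, dotProduct, NN, mul_comm]

end mono

section chart

variable {R : Type} [CommRing R] [Algebra ℚ R]

/-- the chart datum of a commuting tuple -/
noncomputable def chartOf (Y : Fin 10 → Module.End R (Fin 66 → R)) (hY : CommT Y)
    (hN : IsUnit (NN Y hY).det) : Chart ℚ bQ R where
  q :=
    { toFun := fun f => (NN Y hY)⁻¹.mulVec (act Y hY (map (algebraMap ℚ R) f) e0)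
      map_add' := fun f f' => by
        rw [map_add, map_add]
        exact Matrix.mulVec_add _ _ _
      map_smul' := fun r f => by
        rw [RingHom.id_apply, smul_eq_C_mul, map_mul, map_mul, map_C]
        change (NN Y hY)⁻¹.mulVec (act Y hY (C _) (act Y hY _ e0)) = _
        rw [act_C, Matrix.mulVec_smul, algebraMap_smul] }
  q_b := by
    intro i
    change (NN Y hY)⁻¹.mulVec (act Y hY (map (algebraMap ℚ R) (bR ℚ i)) e0) = _
    rw [map_bR]
    have h : act Y hY (bR R i) e0 = (NN Y hY).mulVec (Pi.single i 1) := by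
      rw [NN_mulVec, Finset.sum_eq_single i]
      · simp
      · intro j _ hj
        rw [Pi.single_eq_of_ne hj, zero_smul]
      · simp
    rw [h, Matrix.mulVec_mulVec, Matrix.nonsing_inv_mul _ hN, Matrix.one_mulVec]
  q_mul := by
    intro x y
    change (NN Y hY)⁻¹.mulVec (act Y hY (map (algebraMap ℚ R) (x * y)) e0) =
      ∑ j, ((NN Y hY)⁻¹.mulVec (act Y hY (map (algebraMap ℚ R) x) e0)) j •
        (NN Y hY)⁻¹.mulVec (act Y hY (map (algebraMap ℚ R) (bR ℚ j * y)) e0)
    set w := (NN Y hY)⁻¹.mulVec (act Y hY (map (algebraMap ℚ R) x) e0) with hw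
    have h1 : act Y hY (map (algebraMap ℚ R) x) e0 = ∑ j, w j • act Y hY (bR R j) e0 := by
      rw [← NN_mulVec, hw, Matrix.mulVec_mulVec, Matrix.mul_nonsing_inv _ hN, Matrix.one_mulVec]
    have h2 : ∀ z : MvPolynomial (Fin 10) R, act Y hY (z * map (algebraMap ℚ R) y) e0 =
        act Y hY (map (algebraMap ℚ R) y) (act Y hY z e0) := by
      intro z
      rw [mul_comm, map_mul]
      rfl
    simp only [map_mul (map (algebraMap ℚ R)), map_bR, h2]
    rw [h1, map_sum, Matrix.mulVec_sum]
    refine Finset.sum_congr rfl fun j _ => ?_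
    rw [map_smul, Matrix.mulVec_smul]

lemma chartOf_q (Y : Fin 10 → Module.End R (Fin 66 → R)) (hY : CommT Y)
    (hN : IsUnit (NN Y hY).det) (f : MvPolynomial (Fin 10) ℚ) :
    (chartOf Y hY hN).q f = (NN Y hY)⁻¹.mulVec (act Y hY (map (algebraMap ℚ R) f) e0) := by
  simp only [chartOf, LinearMap.coe_mk, AddHom.coe_mk]

/-- the coordinate functional of a chart on polynomials over the base ring -/
noncomputable def PP {b : Fin 66 → MvPolynomial (Fin 10) ℚ} (c : Chart ℚ b R) :
    MvPolynomial (Fin 10) R →ₗ[R] (Fin 66 → R) :=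
  c.L ∘ₗ (algebraTensorAlgEquiv ℚ R).symm.toLinearMap

variable {b : Fin 66 → MvPolynomial (Fin 10) ℚ}

lemma PP_map (c : Chart ℚ b R) (f : MvPolynomial (Fin 10) ℚ) :
    PP c (map (algebraMap ℚ R) f) = c.q f := by
  simp [PP]

lemma PP_mul (c : Chart ℚ b R) (f g : MvPolynomial (Fin 10) R) :
    PP c (f * g) = ∑ j, PP c f j • PP c (map (algebraMap ℚ R) (b j) * g) := by
  unfold PP
  simp only [LinearMap.comp_apply, AlgEquiv.toLinearMap_apply, map_mul,
    algebraTensorAlgEquiv_symm_map]
  rw [Chart.L_mul]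

lemma PP_bR (c : Chart ℚ bQ R) (j : Fin 66) : PP c (bR R j) = Pi.single j 1 := by
  rw [← map_bR (algebraMap ℚ R), PP_map, c.q_b]

lemma lhom_ext_map {M : Type*} [AddCommGroup M] [Module R M]
    {f g : MvPolynomial (Fin 10) R →ₗ[R] M}
    (h : ∀ x : MvPolynomial (Fin 10) ℚ, f (map (algebraMap ℚ R) x) = g (map (algebraMap ℚ R) x)) :
    f = g := by
  apply LinearMap.ext
  intro x
  induction x using MvPolynomial.induction_on' with
  | monomial m a =>
    have h1 : (monomial m a : MvPolynomial (Fin 10) R) =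
        a • map (algebraMap ℚ R) (monomial m 1) := by
      rw [map_monomial, map_one, smul_monomial, smul_eq_mul, mul_one]
    rw [h1, map_smul, map_smul, h]
  | add p q hp hq => rw [map_add, map_add, hp, hq]

lemma PP_injective {c c' : Chart ℚ b R} (h : PP c = PP c') : c = c' := by
  apply Chart.ext'
  intro x
  rw [← PP_map, ← PP_map, h]

lemma PP_chartOf (Y : Fin 10 → Module.End R (Fin 66 → R)) (hY : CommT Y)
    (hN : IsUnit (NN Y hY).det) (f : MvPolynomial (Fin 10) R) :
    PP (chartOf Y hY hN) f = (NN Y hY)⁻¹.mulVec (act Y hY f e0) := by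
  let F : MvPolynomial (Fin 10) R →ₗ[R] (Fin 66 → R) :=
    (NN Y hY)⁻¹.mulVecLin ∘ₗ (LinearMap.applyₗ e0) ∘ₗ (act Y hY).toLinearMap
  have : PP (chartOf Y hY hN) = F := by
    apply lhom_ext_map
    intro x
    rw [PP_map, chartOf_q]
    rfl
  rw [this]
  rfl

lemma PP_chartOf_eq_zero_iff (Y : Fin 10 → Module.End R (Fin 66 → R)) (hY : CommT Y)
    (hN : IsUnit (NN Y hY).det) (f : MvPolynomial (Fin 10) R) :
    PP (chartOf Y hY hN) f = 0 ↔ act Y hY f e0 = 0 := by
  rw [PP_chartOf]
  constructor
  · intro h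
    have := congrArg (NN Y hY).mulVec h
    rwa [Matrix.mulVec_mulVec, Matrix.mul_nonsing_inv _ hN, Matrix.one_mulVec,
      Matrix.mulVec_zero] at this
  · intro h
    rw [h, Matrix.mulVec_zero]

variable {R' : Type} [CommRing R'] [Algebra ℚ R']

lemma NN_map {R R' : Type*} [CommRing R] [CommRing R'] (φ : R →+* R') (Y : Fin 10 → Module.End R (Fin 66 → R)) (hY : CommT Y)
    (Y' : Fin 10 → Module.End R' (Fin 66 → R')) (hY' : CommT Y')
    (h : ∀ i v, (fun g => φ (Y i v g)) = Y' i (fun g => φ (v g))) :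
    NN Y' hY' = (NN Y hY).map φ := by
  ext g j
  simp only [NN, Matrix.of_apply, Matrix.map_apply]
  have := act_map φ Y hY Y' hY' h (bR R j) e0
  rw [map_bR] at this
  have h1 : (fun g => φ ((e0 : Fin 66 → R) g)) = e0 := by
    ext g
    unfold e0
    by_cases hg : g = 0
    · subst hg; simp
    · simp [hg]
  rw [h1] at this
  exact (congrFun this g).symm

lemma chartOf_map (φ : R →ₐ[ℚ] R') (Y : Fin 10 → Module.End R (Fin 66 → R)) (hY : CommT Y)
    (Y' : Fin 10 → Module.End R' (Fin 66 → R')) (hY' : CommT Y')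
    (h : ∀ i v, (fun g => φ (Y i v g)) = Y' i (fun g => φ (v g)))
    (hN : IsUnit (NN Y hY).det) (hN' : IsUnit (NN Y' hY').det) :
    (chartOf Y hY hN).map φ = chartOf Y' hY' hN' := by
  apply Chart.ext'
  intro x
  ext j
  rw [Chart.map_q, chartOf_q, chartOf_q]
  have h1 := NN_map φ.toRingHom Y hY Y' hY' h
  have h2 : (NN Y' hY')⁻¹ = ((NN Y hY)⁻¹).map φ := by
    apply Matrix.inv_eq_right_inv
    rw [h1]
    change (NN Y hY).map φ * ((NN Y hY)⁻¹).map φ = 1
    rw [← Matrix.map_mul, Matrix.mul_nonsing_inv _ hN]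
    simp
  have h3 := act_map φ.toRingHom Y hY Y' hY' h (map (algebraMap ℚ R) x) e0
  have h4 : (fun g => φ.toRingHom ((e0 : Fin 66 → R) g)) = e0 := by
    ext g
    unfold e0
    by_cases hg : g = 0
    · subst hg; simp
    · simp [hg]
  rw [h4, map_map] at h3
  have h5 : (φ.toRingHom.comp (algebraMap ℚ R)) = algebraMap ℚ R' := φ.comp_algebraMap
  rw [h5] at h3
  rw [← h3, h2]
  simp only [Matrix.mulVec, dotProduct, Matrix.map_apply, map_sum, map_mul]
  rfl

end chart

end Pool.Agent.Helper413.Gal
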