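import Mathlib

set_option autoImplicit false

open MvPolynomial

namespace Pool.Agent.Helper413.Gal

/-- The 23 quadrics in `x_0, ..., x_9`, with coefficients in `{1, -1, ι, -ι}`. -/
noncomputable def quadrics {K : Type} [Field K] (ι : K) : List (MvPolynomial (Fin 10) K) :=
  [X 0 ^ 2, X 1 ^ 2, X 2 ^ 2, X 3 ^ 2, X 4 ^ 2, X 5 ^ 2, X 6 ^ 2, X 7 ^ 2, X 8 ^ 2, X 9 ^ 2,
    X 1 * X 2 + X 0 * X 2 + X 0 * X 1,
    X 3 * X 4 - X 0 * X 4 + C ι * X 0 * X 3,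
    X 5 * X 6 - C ι * X 0 * X 6 + C ι * X 0 * X 5,
    X 7 * X 8 + X 0 * X 8 + X 0 * X 7,
    X 3 * X 7 + C ι * X 1 * X 7 + X 1 * X 3,
    X 4 * X 5 - C ι * X 1 * X 5 - X 1 * X 4,
    X 6 * X 8 + X 1 * X 8 - C ι * X 1 * X 6,
    X 3 * X 5 + X 2 * X 5 + X 2 * X 3,
    X 4 * X 8 + X 2 * X 8 + X 2 * X 4,
    X 7 * X 9 + X 2 * X 9 + X 2 * X 7,
    X 3 * X 9 + C ι * X 6 * X 9 + C ι * X 3 * X 6,
    X 4 * X 7 + X 6 * X 7 + X 4 * X 6,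
    X 5 * X 9 - C ι * X 8 * X 9 - C ι * X 5 * X 8]

/-- The ideal generated by the 23 quadrics. -/
noncomputable def quadricIdeal {K : Type} [Field K] (ι : K) : Ideal (MvPolynomial (Fin 10) K) :=
  Ideal.span {q | q ∈ quadrics ι}

end Pool.Agent.Helper413.Gal
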