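import Mathlib
import Pool.Agent.Helper226.LociDefs

set_option autoImplicit false

open scoped TensorProduct
open CategoryTheory CategoryTheory.Limits AlgebraicGeometry MvPolynomial

namespace Pool.Agent.Helper413.Gal

open Pool.Agent.Helper226

variable {n d : ℕ}

/-- The base change `Hilb ×_{Spec ℚ} Spec K` to a field `K` of the Hilbert scheme over `ℚ` of `d`
points of affine `n`-space. -/
noncomputable abbrev bcH (𝓗 : HilbertScheme ℚ (MvPolynomial (Fin n) ℚ) d) (K : Type) [Field K]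
    [Algebra ℚ K] : Scheme :=
  pullback 𝓗.s (Spec.map (CommRingCat.ofHom (algebraMap ℚ K)))

/-- The action of a field automorphism `σ` on `Hilb ×_{Spec ℚ} Spec K` through the second factor.
(With the inverse of `σ` on the spectrum, so that a point with ideal `I` goes to the point
with ideal `σ(I)`.) -/
noncomputable def galAct (𝓗 : HilbertScheme ℚ (MvPolynomial (Fin n) ℚ) d) {K : Type} [Field K]
    [Algebra ℚ K] (σ : K ≃ₐ[ℚ] K) : bcH 𝓗 K ⟶ bcH 𝓗 K :=
  pullback.map _ _ _ _ (𝟙 𝓗.H) (Spec.map (CommRingCat.ofHom (σ.symm : K →+* K))) (𝟙 _)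
    (by simp) (by
      rw [Category.comp_id, ← Spec.map_comp, ← CommRingCat.ofHom_comp]
      congr 2
      ext x
      simp)

/-- The morphism `Spec K ⟶ Hilb ×_{Spec ℚ} Spec K` over `Spec K` given by a `K`-valued point `f`
of the Hilbert scheme over `ℚ`. -/
noncomputable def secOf (𝓗 : HilbertScheme ℚ (MvPolynomial (Fin n) ℚ) d) {K : Type} [Field K]
    [Algebra ℚ K] (f : PointsOver ℚ 𝓗.H 𝓗.s K) : Spec (CommRingCat.of K) ⟶ bcH 𝓗 K :=
  pullback.lift f.1 (𝟙 _) (by rw [Category.id_comp]; exact f.2)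

/-- The point of the scheme `Hilb ×_{Spec ℚ} Spec K` given by a `K`-valued point `f`. -/
noncomputable def ptOf (𝓗 : HilbertScheme ℚ (MvPolynomial (Fin n) ℚ) d) {K : Type} [Field K]
    [Algebra ℚ K] (f : PointsOver ℚ 𝓗.H 𝓗.s K) : bcH 𝓗 K :=
  secOf 𝓗 f (⟨⊥, Ideal.isPrime_bot⟩ : PrimeSpectrum K)

/-- The ideal of `K[x_1, ..., x_n]` which corresponds to a `K`-valued point of the Hilbert
scheme. -/
noncomputable def idealK (𝓗 : HilbertScheme ℚ (MvPolynomial (Fin n) ℚ) d) {K : Type} [Field K]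
    [Algebra ℚ K] (f : PointsOver ℚ 𝓗.H 𝓗.s K) : Ideal (MvPolynomial (Fin n) K) :=
  (𝓗.Φ K f).1.map (algebraTensorAlgEquiv (σ := Fin n) ℚ K)

end Pool.Agent.Helper413.Gal
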