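import Mathlib

set_option autoImplicit false
set_option linter.unusedSectionVars false

open MvPolynomial

namespace Pool.Agent.Helper413.Gal

section loc
variable {K R : Type*} [Field K] [CommRing R] [Algebra K R] (π : R →ₐ[K] K)

lemma sub_mem_ker (f : R) : f - algebraMap K R (π f) ∈ RingHom.ker π := by
  rw [RingHom.mem_ker, map_sub, AlgHom.commutes]
  simp

/-- coordinates of the cotangent space -/
lemma exists_coords [IsNoetherianRing R] : ∃ (n : ℕ) (y : Fin n → R),
    (∀ i, π (y i) = 0) ∧
    (∀ g ∈ RingHom.ker π, ∃ a : Fin n → K, g - ∑ i, a i • y i ∈ RingHom.ker π ^ 2) ∧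
    (∀ v : Fin n → K, ∃ φ : R →ₐ[K] DualNumber K, (∀ f, (φ f).fst = π f) ∧
      ∀ i, (φ (y i)).snd = v i) := by
  classical
  set m := RingHom.ker π with hm
  let V : Submodule K R := m.restrictScalars K
  let U : Submodule K R := (m ^ 2).restrictScalars K
  let Q := V ⧸ U.submoduleOf V
  have hfin : Module.Finite K Q := by
    obtain ⟨S, hS⟩ := (isNoetherianRing_iff_ideal_fg R).1 inferInstance m
    have hSm : ∀ s ∈ S, s ∈ V := fun s hs => by
      change s ∈ m
      rw [← hS]
      exact Ideal.subset_span hs
    let e : S → Q := fun s => (U.submoduleOf V).mkQ ⟨s.1, hSm _ s.2⟩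
    refine Module.Finite.of_surjective (Fintype.linearCombination K e) ?_
    intro q
    obtain ⟨⟨g, hg⟩, rfl⟩ := Submodule.mkQ_surjective _ q
    have hg' : g ∈ Ideal.span (S : Set R) := by rw [hS]; exact hg
    obtain ⟨c, hc⟩ := Submodule.mem_span_finset'.1 hg'
    refine ⟨fun s => π (c s), ?_⟩
    rw [Fintype.linearCombination_apply]
    have h1 : ∑ s, π (c s) • e s = (U.submoduleOf V).mkQ (∑ s : S, π (c s) • ⟨s.1, hSm _ s.2⟩) := by
      rw [map_sum]
      rfl
    rw [h1, Submodule.mkQ_apply, Submodule.mkQ_apply, Submodule.Quotient.eq]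
    change ((_ - _ : V) : R) ∈ m ^ 2
    rw [Submodule.coe_sub]
    change _ - g ∈ m ^ 2
    rw [← hc]
    simp only [AddSubmonoidClass.coe_finsetSum, Submodule.coe_smul]
    rw [← Finset.sum_sub_distrib]
    refine Ideal.sum_mem _ fun s _ => ?_
    have h2 : π (c s) • (s : R) - c s • (s : R) = -(c s - algebraMap K R (π (c s))) * s := by
      rw [Algebra.smul_def, smul_eq_mul]
      ring
    rw [h2, pow_two]
    exact Ideal.mul_mem_mul (neg_mem (sub_mem_ker π _)) (hSm _ s.2)
  let B := Module.finBasis K Q
  let n := Module.finrank K Q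
  choose y hy using fun i : Fin n => Submodule.mkQ_surjective _ (B i)
  have hyV : ∀ i, ((y i : V) : R) ∈ m := fun i => (y i).2
  refine ⟨n, fun i => (y i : R), fun i => hyV i, ?_, ?_⟩
  · intro g hg
    refine ⟨fun i => B.repr ((U.submoduleOf V).mkQ ⟨g, hg⟩) i, ?_⟩
    have h1 := B.sum_repr ((U.submoduleOf V).mkQ ⟨g, hg⟩)
    have h2 : (U.submoduleOf V).mkQ (⟨g, hg⟩ - ∑ i, B.repr ((U.submoduleOf V).mkQ ⟨g, hg⟩) i • y i)
        = 0 := by
      rw [map_sub, map_sum]
      simp only [map_smul, hy]
      rw [h1, sub_self]
    rw [Submodule.mkQ_apply, Submodule.Quotient.mk_eq_zero] at h2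
    have h3 : (((⟨g, hg⟩ - ∑ i, B.repr ((U.submoduleOf V).mkQ ⟨g, hg⟩) i • y i : V)) : R) ∈ m ^ 2 :=
      h2
    simpa using h3
  · intro v
    let ℓ : Q →ₗ[K] K := B.constr K v
    have hℓ : ∀ i, ℓ ((U.submoduleOf V).mkQ (y i)) = v i := by
      intro i
      rw [hy]
      exact B.constr_basis K v i
    let D : R → K := fun f => ℓ ((U.submoduleOf V).mkQ ⟨f - algebraMap K R (π f), sub_mem_ker π f⟩)
    have hDm : ∀ (g : R) (hg : g ∈ m), D g = ℓ ((U.submoduleOf V).mkQ ⟨g, hg⟩) := by
      intro g hg
      have : π g = 0 := hg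
      simp only [D]
      congr 3
      rw [this, map_zero, sub_zero]
    have hD2 : ∀ g ∈ m ^ 2, D g = 0 := by
      intro g hg
      have hg1 : g ∈ m := Ideal.pow_le_self (by norm_num) hg
      rw [hDm g hg1]
      have : (U.submoduleOf V).mkQ ⟨g, hg1⟩ = 0 := by
        rw [Submodule.mkQ_apply, Submodule.Quotient.mk_eq_zero]
        exact hg
      rw [this, map_zero]
    have hDadd : ∀ f g, D (f + g) = D f + D g := by
      intro f g
      simp only [D]
      rw [← map_add, ← map_add]
      congr 2
      apply Subtype.ext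
      change f + g - algebraMap K R (π (f + g)) = (f - algebraMap K R (π f)) +
        (g - algebraMap K R (π g))
      rw [map_add, map_add]
      ring
    have hDsmul : ∀ (r : K) f, D (r • f) = r * D f := by
      intro r f
      simp only [D]
      rw [← smul_eq_mul, ← map_smul, ← map_smul]
      congr 2
      apply Subtype.ext
      change r • f - algebraMap K R (π (r • f)) = r • (f - algebraMap K R (π f))
      rw [map_smul, smul_eq_mul, map_mul, Algebra.smul_def, Algebra.smul_def]
      ring
    have hDone : D 1 = 0 := by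
      have h1 : (⟨(1 : R) - algebraMap K R (π 1), sub_mem_ker π 1⟩ : V) = 0 := by
        apply Subtype.ext
        change (1 : R) - algebraMap K R (π 1) = 0
        rw [map_one, map_one, sub_self]
      simp only [D]
      rw [h1, map_zero, map_zero]
    have hDmul : ∀ f g, D (f * g) = π f * D g + D f * π g := by
      intro f g
      have hf : f = π f • (1 : R) + (f - algebraMap K R (π f)) := by
        rw [Algebra.smul_def]; ring
      have hg : g = π g • (1 : R) + (g - algebraMap K R (π g)) := by
        rw [Algebra.smul_def]; ring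
      set f' := f - algebraMap K R (π f) with hf'
      set g' := g - algebraMap K R (π g) with hg'
      have h1 : f * g = (π f * π g) • (1 : R) + (π f • g' + π g • f') + f' * g' := by
        have h2 : f = algebraMap K R (π f) + f' := by rw [hf']; ring
        have h3 : g = algebraMap K R (π g) + g' := by rw [hg']; ring
        conv_lhs => rw [h2, h3]
        rw [Algebra.smul_def, Algebra.smul_def, Algebra.smul_def, map_mul]
        ring
      have h2 : D (f' * g') = 0 := hD2 _ (by
        rw [pow_two]
        exact Ideal.mul_mem_mul (sub_mem_ker π f) (sub_mem_ker π g))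
      have h3 : D f = D f' := by
        conv_lhs => rw [hf]
        rw [hDadd, hDsmul, hDone, mul_zero, zero_add]
      have h4 : D g = D g' := by
        conv_lhs => rw [hg]
        rw [hDadd, hDsmul, hDone, mul_zero, zero_add]
      rw [h1, hDadd, hDadd, hDadd, hDsmul, hDsmul, hDsmul, hDone, h2, h3, h4]
      ring
    let φ : R →ₐ[K] DualNumber K :=
      { toFun := fun f => TrivSqZeroExt.inl (π f) + TrivSqZeroExt.inr (D f)
        map_one' := by
          rw [map_one, hDone]
          simp
        map_mul' := fun f g => by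
          apply TrivSqZeroExt.ext
          · simp
          · simp [hDmul, mul_comm]
        map_zero' := by
          have h0 : D 0 = 0 := by
            have := hDsmul 0 0
            simpa using this
          rw [map_zero, h0]
          simp
        map_add' := fun f g => by
          apply TrivSqZeroExt.ext
          · simp
          · simp [hDadd]
        commutes' := fun r => by
          have h1 : D (algebraMap K R r) = 0 := by
            rw [Algebra.algebraMap_eq_smul_one, hDsmul, hDone, mul_zero]
          rw [h1, AlgHom.commutes]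
          apply TrivSqZeroExt.ext
          · simp [TrivSqZeroExt.algebraMap_eq_inl]
          · simp [TrivSqZeroExt.algebraMap_eq_inl] }
    refine ⟨φ, fun f => ?_, fun i => ?_⟩
    · change (TrivSqZeroExt.inl (π f) + TrivSqZeroExt.inr (D f)).fst = π f
      simp
    · change (TrivSqZeroExt.inl (π (y i)) + TrivSqZeroExt.inr (D (y i))).snd = v i
      rw [TrivSqZeroExt.snd_add, TrivSqZeroExt.snd_inl, TrivSqZeroExt.snd_inr, zero_add,
        hDm _ (hyV i)]
      exact hℓ i

lemma aeval_homog {A : Type*} [CommRing A] [Algebra K A] {n k : ℕ} (F : MvPolynomial (Fin n) K)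
    (hF : F.IsHomogeneous k) (r : A) (w : Fin n → A) :
    aeval (fun i => r * w i) F = r ^ k * aeval w F := by
  rw [aeval_def, eval₂_eq, aeval_def, eval₂_eq, Finset.mul_sum]
  refine Finset.sum_congr rfl fun d hd => ?_
  have h1 : ∑ i, d i = k := by
    have := hF (mem_support_iff.1 hd)
    rw [← this, Finsupp.weight_apply, Finsupp.sum_fintype _ _ (by simp)]
    simp
  simp only [mul_pow, Finset.prod_mul_distrib]
  rw [Finset.prod_pow_eq_pow_sum]
  have h2 : ∑ i ∈ d.support, d i = k := by
    rw [← h1]
    apply Finset.sum_subset (Finset.subset_univ _)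
    intro i _ hi
    simpa using hi
  rw [h2]
  ring

lemma exists_homog {n : ℕ} (y : Fin n → R)
    (h : ∀ g ∈ RingHom.ker π, ∃ a : Fin n → K, g - ∑ i, a i • y i ∈ RingHom.ker π ^ 2) (k : ℕ) :
    ∀ f ∈ RingHom.ker π ^ k, ∃ F : MvPolynomial (Fin n) K, F.IsHomogeneous k ∧
      f - aeval y F ∈ RingHom.ker π ^ (k + 1) := by
  induction k with
  | zero =>
    intro f _
    refine ⟨C (π f), isHomogeneous_C _ _, ?_⟩
    rw [zero_add, pow_one, aeval_C]
    exact sub_mem_ker π f
  | succ k ih =>
    intro f hf
    rw [pow_succ] at hf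
    refine Submodule.mul_induction_on hf ?_ ?_
    · intro a ha b hb
      obtain ⟨F, hF, hFa⟩ := ih a ha
      obtain ⟨c, hc⟩ := h b hb
      refine ⟨F * ∑ i, C (c i) * X i, ?_, ?_⟩
      · apply hF.mul
        apply IsHomogeneous.sum
        intro i _
        have := (isHomogeneous_C (Fin n) (c i)).mul (isHomogeneous_X K i)
        rwa [zero_add] at this
      · have h1 : aeval y (F * ∑ i, C (c i) * X i) = aeval y F * ∑ i, c i • y i := by
          rw [map_mul, map_sum]
          congr 1
          refine Finset.sum_congr rfl fun i _ => ?_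
          rw [map_mul, aeval_C, aeval_X, Algebra.smul_def]
        rw [h1]
        have h2 : a * b - aeval y F * ∑ i, c i • y i =
            (a - aeval y F) * b + aeval y F * (b - ∑ i, c i • y i) := by ring
        rw [h2]
        have h3 : aeval y F ∈ RingHom.ker π ^ k := by
          have h4 := Ideal.pow_le_pow_right (Nat.le_succ k) hFa
          have h5 := sub_mem ha h4
          rwa [sub_sub_cancel] at h5
        apply Ideal.add_mem
        · rw [pow_succ]
          exact Ideal.mul_mem_mul hFa hb
        · have : k + 1 + 1 = k + 2 := rfl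
          rw [this, pow_add]
          exact Ideal.mul_mem_mul h3 hc
    · rintro a b ⟨F, hF, hFa⟩ ⟨G, hG, hGb⟩
      refine ⟨F + G, hF.add hG, ?_⟩
      rw [map_add, add_sub_add_comm]
      exact Ideal.add_mem _ hFa hGb

/-- if every tangent vector is realised by an arc in the zero locus of `𝔭`, then `𝔭` vanishes in
the local ring -/
theorem loc_lemma [IsNoetherianRing R] [Infinite K] (𝔭 : Ideal R)
    (h : ∀ φ : R →ₐ[K] DualNumber K, (∀ f, (φ f).fst = π f) →
      ∃ θ : R →ₐ[K] PowerSeries K, (∀ f ∈ 𝔭, θ f = 0) ∧
        ∀ f, PowerSeries.coeff 0 (θ f) = π f ∧ PowerSeries.coeff 1 (θ f) = (φ f).snd)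
    (f : R) (hf : f ∈ 𝔭) : ∃ u, π u ≠ 0 ∧ u * f = 0 := by
  obtain ⟨n, y, hy, hy1, hy2⟩ := exists_coords π
  have key : ∀ k, ∀ f ∈ 𝔭, f ∈ RingHom.ker π ^ k := by
    intro k
    induction k with
    | zero => intro f _; simp
    | succ k ih =>
      intro f hf
      obtain ⟨F, hF, hFa⟩ := exists_homog π y hy1 k f (ih f hf)
      have hF0 : F = 0 := by
        apply MvPolynomial.funext
        intro v
        rw [map_zero]
        obtain ⟨φ, hφ1, hφ2⟩ := hy2 v
        obtain ⟨θ, hθ1, hθ2⟩ := h φ hφ1
        have hX : ∀ g ∈ RingHom.ker π, θ g ∈ Ideal.span {(PowerSeries.X : PowerSeries K)} := by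
          intro g hg
          rw [Ideal.mem_span_singleton, PowerSeries.X_dvd_iff,
            ← PowerSeries.coeff_zero_eq_constantCoeff_apply, (hθ2 g).1]
          exact hg
        have hXk : ∀ j, ∀ g ∈ RingHom.ker π ^ j, (PowerSeries.X : PowerSeries K) ^ j ∣ θ g := by
          intro j g hg
          rw [← Ideal.mem_span_singleton, ← Ideal.span_singleton_pow]
          have h1 : RingHom.ker π ≤ Ideal.comap θ (Ideal.span {(PowerSeries.X : PowerSeries K)}) :=
            fun g hg => hX g hg
          exact (Ideal.le_comap_pow _ j) ((Ideal.pow_right_mono h1 j) hg)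
        have hw : ∀ i, ∃ w : PowerSeries K, θ (y i) = PowerSeries.X * w ∧
            PowerSeries.constantCoeff w = v i := by
          intro i
          obtain ⟨w, hw⟩ := hXk 1 (y i) (by rw [pow_one]; exact hy i)
          rw [pow_one] at hw
          refine ⟨w, hw, ?_⟩
          have h2 := (hθ2 (y i)).2
          rw [hφ2, hw, ← PowerSeries.coeff_zero_eq_constantCoeff_apply] at *
          rw [← h2]
          exact (PowerSeries.coeff_succ_X_mul 0 w).symm
        choose w hw1 hw2 using hw
        have h1 : θ (aeval y F) = PowerSeries.X ^ k * aeval w F := by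
          rw [← aeval_homog F hF, comp_aeval_apply]
          congr 2
          funext i
          exact hw1 i
        have h2 : PowerSeries.coeff k (θ (aeval y F)) = 0 := by
          have h3 := hXk (k + 1) _ hFa
          rw [map_sub, hθ1 f hf, zero_sub, dvd_neg] at h3
          exact PowerSeries.X_pow_dvd_iff.1 h3 k (Nat.lt_succ_self k)
        rw [h1] at h2
        have h3 : PowerSeries.coeff k (PowerSeries.X ^ k * aeval w F) =
            PowerSeries.constantCoeff (aeval w F) := by
          have := PowerSeries.coeff_X_pow_mul (aeval w F) k 0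
          rw [zero_add] at this
          rw [this, PowerSeries.coeff_zero_eq_constantCoeff_apply]
        rw [h3] at h2
        have h4 : PowerSeries.constantCoeff (aeval w F) = eval v F := by
          rw [aeval_def, hom_eval₂, eval]
          have h5 : (fun i => PowerSeries.constantCoeff (w i)) = v := funext hw2
          change eval₂Hom ((PowerSeries.constantCoeff : PowerSeries K →+* K).comp _)
            (fun i => PowerSeries.constantCoeff (w i)) F = _
          rw [h5]
          congr 2
        rw [← h4]
        exact h2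
      rw [hF0, map_zero, sub_zero] at hFa
      exact hFa
  have h1 : f ∈ (⨅ i : ℕ, RingHom.ker π ^ i • (⊤ : Submodule R R)) := by
    rw [Submodule.mem_iInf]
    intro i
    have := key i f hf
    rw [smul_eq_mul, Ideal.mul_top]
    exact this
  obtain ⟨r, hr⟩ := (Ideal.mem_iInf_smul_pow_eq_bot_iff (RingHom.ker π) f).1 h1
  refine ⟨1 - r, ?_, ?_⟩
  · have : π (r : R) = 0 := r.2
    rw [map_sub, this, map_one, sub_zero]
    exact one_ne_zero
  · rw [sub_mul, one_mul, sub_eq_zero]
    exact hr.symm

end loc

end Pool.Agent.Helper413.Gal
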