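import Mathlib
import Pool.Agent.Helper413.Gal.Ops

set_option autoImplicit false

namespace Pool.Agent.Helper413.Gal

/-- rows: sorted lists of (label, coefficient mod 5) -/
abbrev Row := List (ℕ × ℕ)

/-- inner loop of `mrg` -/
def mrgIn (j z : ℕ) (ih : Row → Row) : Row → Row
  | [] => (j, z) :: ih []
  | (i, y) :: r =>
    bif Nat.blt i j then (i, y) :: mrgIn j z ih r
    else bif Nat.beq i j then
      (match (y + z) % 5 with
        | 0 => ih r
        | v + 1 => (i, v + 1) :: ih r)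
    else (j, z) :: ih ((i, y) :: r)

/-- `r + f * p` for rows sorted by label -/
def mrg (f : ℕ) : Row → Row → Row
  | [], r => r
  | (j, x) :: p, r => mrgIn j (f * x % 5) (mrg f p) r

def stepRows (k x : ℕ) (p : Row) : List Row → List Row
  | [] => []
  | [] :: rs => [] :: stepRows k x p rs
  | ((i, y) :: r) :: rs =>
    (bif Nat.beq i k then mrg (4 * y * x % 5) p r else (i, y) :: r) :: stepRows k x p rs

def inv5 : ℕ → ℕ
  | 1 => 1
  | 2 => 3
  | 3 => 2
  | 4 => 4
  | _ => 0

def run (n : ℕ) : ℕ → ℕ → List Row → Bool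
  | 0, k, _ => Nat.beq k n
  | m + 1, k, (((i, y) :: p) :: rs) =>
    Nat.beq i k && Nat.blt y 5 && Nat.blt 0 y && p.all (fun t => Nat.blt k t.1 && Nat.blt t.1 n) &&
      run n m (k + 1) (stepRows k (inv5 y) p rs)
  | _ + 1, _, _ => false

/-- unknown `43 * a + b` -/
def rowZ (z g : ℕ) : List (ℕ × ℕ) :=
  (zL.getD z []).flatMap fun t => (T t.1 g).map fun s => (43 * t.2.1 + s.1, s.2 + t.2.2)

def lab (c : ℕ) : ℕ := (labN >>> (10 * c)) % 1024
def cod (c : ℕ) : ℕ := (codN >>> (10 * c)) % 1024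

def insRow (j x : ℕ) : Row → Row
  | [] => [(j, x)]
  | (i, y) :: r =>
    bif Nat.blt i j then (i, y) :: insRow j x r
    else bif Nat.beq i j then
      (match (y + x) % 5 with
        | 0 => r
        | v + 1 => (i, v + 1) :: r)
    else (j, x) :: (i, y) :: r

def pow2 : ℕ → ℕ
  | 0 => 1
  | 1 => 2
  | 2 => 4
  | 3 => 3
  | _ => 0

def toRow (n : ℕ) (lb : ℕ → ℕ) : List (ℕ × ℕ) → Row
  | [] => []
  | (c, e) :: L => bif Nat.blt (lb c) n then insRow (lb c) (pow2 (e % 4)) (toRow n lb L)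
    else toRow n lb L

def mainRows : List (List (ℕ × ℕ)) := rwL.map fun w => rowZ (w / 66) (w % 66)

/-- row `g` of the operator `Z_i * X_j` or `X_i * Z_j`: the linear forms in the parameters -/
def dTerm (e : ℕ) (i : ℕ) (β : ℕ) (L : ℕ → List ℕ) (L0 : List ℕ) : List (ℕ × ℕ) :=
  ((List.range 10).flatMap fun m => (z0 (rowL (L m) β)).map fun u => (11 * i + m, u.2 + e)) ++
    ((z0 (rowL L0 β)).map fun u => (11 * i + 10, u.2 + e))

def dq (β : ℕ) (t : List ℕ × ℕ) : List (ℕ × ℕ) :=
  match t.1 with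
    | [i, j] => dTerm t.2 i β (fun m => [m, j]) [j] ++ dTerm t.2 j β (fun m => [i, m]) [i]
    | _ => []

lemma dq_two (β i j e : ℕ) : dq β ([i, j], e) =
    dTerm e i β (fun m => [m, j]) [j] ++ dTerm e j β (fun m => [i, m]) [i] := rfl

def dList (s β : ℕ) : List (ℕ × ℕ) := (qq s).flatMap (dq β)

def plab (c : ℕ) : ℕ := (plabN >>> (7 * c)) % 128

def jCode (i : ℕ) : ℕ := cod (880 + i)

def parRows : List (List (ℕ × ℕ)) :=
  (List.range 109).map fun i => dList (jCode i / 43) (jCode i % 43)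

theorem run_main : run 880 880 0 (mainRows.map (toRow 880 lab)) = true := by decide +kernel

theorem run_par : run 109 109 0 (parRows.map (toRow 109 plab)) = true := by decide +kernel

end Pool.Agent.Helper413.Gal
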