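import Mathlib
import Pool.Agent.Helper413.Gal.Elim

set_option autoImplicit false
set_option linter.unusedSectionVars false

namespace Pool.Agent.Helper413.Gal

section rows

variable (x : ℕ → ZMod 5)

/-- value of a row -/
def evr (x : ℕ → ZMod 5) (r : Row) : ZMod 5 := (r.map fun t => (t.2 : ZMod 5) * x t.1).sum

@[simp] lemma evr_nil : evr x [] = 0 := rfl
@[simp] lemma evr_cons (t : ℕ × ℕ) (r : Row) : evr x (t :: r) = t.2 * x t.1 + evr x r := by
  simp [evr]

lemma cast_mod5 (n : ℕ) : ((n % 5 : ℕ) : ZMod 5) = n := by
  simp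

lemma evr_mrgIn (j z : ℕ) (ih : Row → Row) (s : ZMod 5) (hih : ∀ r, evr x (ih r) = evr x r + s)
    (r : Row) : evr x (mrgIn j z ih r) = evr x r + z * x j + s := by
  induction r with
  | nil => rw [mrgIn, evr_cons, hih]; simp
  | cons t r ihr =>
    obtain ⟨i, y⟩ := t
    rw [mrgIn]
    cases h1 : Nat.blt i j with
    | true => rw [cond_true, evr_cons, evr_cons, ihr]; ring
    | false =>
      rw [cond_false]
      cases h2 : Nat.beq i j with
      | true =>
        rw [cond_true]
        have := Nat.eq_of_beq_eq_true h2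
        subst this
        have h3 := cast_mod5 (y + z)
        cases h4 : (y + z) % 5 with
        | zero =>
          rw [h4] at h3
          simp only
          rw [hih, evr_cons]
          push_cast at h3
          linear_combination (-(x i)) * h3.symm
        | succ v =>
          rw [h4] at h3
          simp only
          rw [evr_cons, hih, evr_cons]
          push_cast at h3 ⊢
          linear_combination (x i) * h3
      | false =>
        rw [cond_false, evr_cons, hih]
        ring

lemma evr_mrg (f : ℕ) (p r : Row) : evr x (mrg f p r) = evr x r + f * evr x p := by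
  induction p generalizing r with
  | nil => simp [mrg]
  | cons t p ih =>
    obtain ⟨j, z⟩ := t
    rw [mrg, evr_mrgIn x j (f * z % 5) (mrg f p) (f * evr x p) ih, evr_cons, cast_mod5]
    push_cast
    ring

lemma inv5_mul (y : ℕ) (h0 : 0 < y) (h5 : y < 5) : ((inv5 y : ℕ) : ZMod 5) * y = 1 := by
  interval_cases y <;> decide

lemma stepRows_zero (k y : ℕ) (h0 : 0 < y) (h5 : y < 5) (p : Row)
    (hp : evr x ((k, y) :: p) = 0) (rs : List Row) (h : ∀ r ∈ rs, evr x r = 0) :
    ∀ r ∈ stepRows k (inv5 y) p rs, evr x r = 0 := by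
  induction rs with
  | nil => simp [stepRows]
  | cons r rs ih =>
    have ih' := ih fun r hr => h r (List.mem_cons_of_mem _ hr)
    have hr0 := h r (by simp)
    cases r with
    | nil =>
      rw [stepRows]
      intro r hr
      rcases List.mem_cons.1 hr with rfl | hr
      · simp
      · exact ih' r hr
    | cons t r =>
      obtain ⟨i, c⟩ := t
      rw [stepRows]
      intro r' hr'
      rcases List.mem_cons.1 hr' with rfl | hr'
      · cases h2 : Nat.beq i k with
        | false => rw [cond_false]; exact hr0
        | true =>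
          have := Nat.eq_of_beq_eq_true h2
          subst this
          rw [cond_true, evr_mrg, cast_mod5]
          rw [evr_cons] at hp hr0
          have h3 := inv5_mul y h0 h5
          have h5' : (5 : ZMod 5) = 0 := by decide
          push_cast
          simp only at hp hr0
          linear_combination hr0 - (c : ZMod 5) * inv5 y * hp + (c : ZMod 5) * x i * h3 +
            (c : ZMod 5) * inv5 y * evr x p * h5'
      · exact ih' r' hr'

lemma run_spec (n m k : ℕ) (rs : List Row) (hr : run n m k rs = true)
    (h : ∀ r ∈ rs, evr x r = 0) : ∀ j, k ≤ j → j < n → x j = 0 := by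
  induction m generalizing k rs with
  | zero =>
    rw [run] at hr
    have := Nat.eq_of_beq_eq_true hr
    intro j h1 h2
    omega
  | succ m ih =>
    match rs, hr, h with
    | ((i, y) :: p) :: rs, hr, h =>
      rw [run, Bool.and_eq_true, Bool.and_eq_true, Bool.and_eq_true, Bool.and_eq_true] at hr
      obtain ⟨⟨⟨⟨h1, h2⟩, h3⟩, h4⟩, h5⟩ := hr
      have h1 := Nat.eq_of_beq_eq_true h1
      subst h1
      have h2 : y < 5 := by simpa using h2
      have h3 : 0 < y := by simpa using h3
      have hp : evr x ((i, y) :: p) = 0 := h _ (by simp)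
      have h6 := ih (i + 1) (stepRows i (inv5 y) p rs) h5
        (stepRows_zero x i y h3 h2 p hp rs fun r hr => h r (List.mem_cons_of_mem _ hr))
      intro j hj1 hj2
      rcases Nat.lt_or_ge i j with hij | hij
      · exact h6 j hij hj2
      · have : j = i := by omega
        subst this
        have h7 : evr x p = 0 := by
          unfold evr
          apply List.sum_eq_zero
          intro z hz
          rw [List.mem_map] at hz
          obtain ⟨t, ht, rfl⟩ := hz
          rw [List.all_eq_true] at h4
          have h8 := h4 t ht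
          rw [Bool.and_eq_true] at h8
          have h9 : j < t.1 := by simpa using h8.1
          have h10 : t.1 < n := by simpa using h8.2
          rw [h6 t.1 h9 h10, mul_zero]
        rw [evr_cons, h7, add_zero] at hp
        simp only at hp
        have h8 := inv5_mul y h3 h2
        calc x j = (inv5 y * y) * x j := by rw [h8, one_mul]
          _ = inv5 y * (y * x j) := by ring
          _ = 0 := by rw [hp, mul_zero]

lemma evr_insRow (j z : ℕ) (r : Row) : evr x (insRow j z r) = z * x j + evr x r := by
  induction r with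
  | nil => simp [insRow]
  | cons t r ih =>
    obtain ⟨i, y⟩ := t
    rw [insRow]
    cases h1 : Nat.blt i j with
    | true => rw [cond_true, evr_cons, evr_cons, ih]; ring
    | false =>
      rw [cond_false]
      cases h2 : Nat.beq i j with
      | true =>
        rw [cond_true]
        have := Nat.eq_of_beq_eq_true h2
        subst this
        have h3 := cast_mod5 (y + z)
        cases h4 : (y + z) % 5 with
        | zero =>
          rw [h4] at h3
          simp only
          rw [evr_cons]
          push_cast at h3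
          linear_combination (-(x i)) * h3.symm
        | succ v =>
          rw [h4] at h3
          simp only
          rw [evr_cons, evr_cons]
          push_cast at h3 ⊢
          linear_combination (x i) * h3
      | false => rw [cond_false, evr_cons]

lemma cast_pow2 (e : ℕ) : ((pow2 (e % 4) : ℕ) : ZMod 5) = 2 ^ e := by
  have h : (2 : ZMod 5) ^ 2 = -1 := by decide
  rw [← pow_mod4 h e]
  have h4 : e % 4 < 4 := Nat.mod_lt _ (by norm_num)
  interval_cases e % 4 <;> decide

lemma evr_toRow (n : ℕ) (lb : ℕ → ℕ) (L : List (ℕ × ℕ)) :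
    evr x (toRow n lb L) = ev (2 : ZMod 5) (fun c => if lb c < n then x (lb c) else 0) L := by
  induction L with
  | nil => simp [toRow]
  | cons t L ih =>
    obtain ⟨c, e⟩ := t
    rw [toRow, ev_cons]
    cases h : Nat.blt (lb c) n with
    | true =>
      have h1 : lb c < n := by simpa using h
      rw [cond_true, evr_insRow, ih, cast_pow2]
      simp [h1]
    | false =>
      have h1 : ¬ lb c < n := by
        intro h2
        rw [← Nat.blt_eq] at h2
        rw [h2] at h
        exact Bool.noConfusion h
      rw [cond_false, ih]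
      simp [h1]

end rows

section transfer

/-- matrix of a system of rows -/
def rmat {R : Type*} [CommRing R] (ι : R) (n : ℕ) (lb : ℕ → ℕ) (rows : List (List (ℕ × ℕ))) :
    Matrix (Fin n) (Fin n) R :=
  Matrix.of fun i j => ev ι (fun c => if lb c = (j : ℕ) then (1 : R) else 0) (rows.getD i [])

lemma rmat_mulVec {R : Type*} [CommRing R] (ι : R) (n : ℕ) (lb : ℕ → ℕ)
    (rows : List (List (ℕ × ℕ))) (v : Fin n → R) (i : Fin n) :
    (rmat ι n lb rows).mulVec v i =
      ev ι (fun c => if h : lb c < n then v ⟨lb c, h⟩ else 0) (rows.getD i []) := by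
  have h1 : (fun c => if h : lb c < n then v ⟨lb c, h⟩ else 0) =
      fun c => ∑ j : Fin n, v j • (if lb c = (j : ℕ) then (1 : R) else 0) := by
    funext c
    by_cases h : lb c < n
    · rw [dif_pos h, Finset.sum_eq_single ⟨lb c, h⟩]
      · simp
      · intro b _ hb
        rw [if_neg, smul_zero]
        intro h3
        exact hb (Fin.ext h3.symm)
      · simp
    · rw [dif_neg h, Finset.sum_eq_zero]
      intro b _
      rw [if_neg, smul_zero]
      intro h3
      exact h (h3 ▸ b.2)
  rw [h1, ev_sum]
  simp only [ev_smul]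
  simp only [Matrix.mulVec, dotProduct, rmat, Matrix.of_apply, smul_eq_mul]
  exact Finset.sum_congr rfl fun j _ => mul_comm _ _

lemma rmat_map {R R' : Type*} [CommRing R] [CommRing R'] (φ : R →+* R') (ι : R) (n : ℕ)
    (lb : ℕ → ℕ) (rows : List (List (ℕ × ℕ))) :
    (rmat ι n lb rows).map φ = rmat (φ ι) n lb rows := by
  ext i j
  simp only [rmat, Matrix.map_apply, Matrix.of_apply]
  have h := map_ev ι (fun c => if lb c = (j : ℕ) then (1 : R) else 0) φ (φ : R →+ R')
    (fun r x => by simp) (rows.getD i [])
  simp only [AddMonoidHom.coe_coe] at h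
  rw [h]
  congr 1
  funext c
  split_ifs <;> simp

lemma det_five (n : ℕ) (lb : ℕ → ℕ) (rows : List (List (ℕ × ℕ))) (hlen : rows.length = n)
    (hrun : run n n 0 (rows.map (toRow n lb)) = true) :
    (rmat (2 : ZMod 5) n lb rows).det ≠ 0 := by
  have : Fact (Nat.Prime 5) := ⟨by norm_num⟩
  intro hdet
  obtain ⟨v, hv0, hv⟩ := Matrix.exists_mulVec_eq_zero_iff.2 hdet
  apply hv0
  let x : ℕ → ZMod 5 := fun m => if h : m < n then v ⟨m, h⟩ else 0
  have hx : ∀ j, j < n → x j = 0 := by
    intro j hj
    refine run_spec x n n 0 _ hrun ?_ j (Nat.zero_le _) hj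
    intro r hr
    rw [List.mem_map] at hr
    obtain ⟨L, hL, rfl⟩ := hr
    rw [evr_toRow]
    obtain ⟨i, hi, rfl⟩ := List.mem_iff_getElem.1 hL
    have h1 := congrFun hv ⟨i, hlen ▸ hi⟩
    rw [rmat_mulVec, Pi.zero_apply] at h1
    simp only at h1
    rw [List.getD_eq_getElem _ _ hi] at h1
    refine Eq.trans ?_ h1
    congr 1
    funext c
    by_cases h : lb c < n
    · simp [x, h]
    · simp [h]
  ext j
  have := hx j j.2
  simpa [x] using this

lemma det_ne_zero {K : Type*} [Field K] [CharZero K] {ι : K} (hι : ι ^ 2 = -1) (n : ℕ)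
    (lb : ℕ → ℕ) (rows : List (List (ℕ × ℕ))) (hlen : rows.length = n)
    (hrun : run n n 0 (rows.map (toRow n lb)) = true) :
    (rmat ι n lb rows).det ≠ 0 := by
  let φ : ℤ√(-1) →+* ZMod 5 := Zsqrtd.lift ⟨(2 : ZMod 5), by decide⟩
  let ψ : ℤ√(-1) →+* K := Zsqrtd.lift ⟨ι, by rw [← pow_two, hι]; simp⟩
  have hψ : Function.Injective ψ := by
    apply Zsqrtd.lift_injective
    intro n hn
    nlinarith [mul_self_nonneg n]
  have hφs : φ Zsqrtd.sqrtd = 2 := by simp [φ]
  have hψs : ψ Zsqrtd.sqrtd = ι := by simp [ψ]
  have h1 := det_five n lb rows hlen hrun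
  rw [← hφs, ← rmat_map φ, ← RingHom.mapMatrix_apply, ← RingHom.map_det] at h1
  have h2 : (rmat (Zsqrtd.sqrtd : ℤ√(-1)) n lb rows).det ≠ 0 := by
    intro h
    rw [h, map_zero] at h1
    exact h1 rfl
  rw [← hψs, ← rmat_map ψ, ← RingHom.mapMatrix_apply, ← RingHom.map_det]
  intro h
  exact h2 (hψ (h.trans (map_zero ψ).symm))

end transfer

section main
variable {K : Type*} [Field K] [CharZero K] {ι : K} (hι : ι ^ 2 = -1)

lemma length_main : mainRows.length = 880 := by
  unfold mainRows
  rw [List.length_map]
  decide +kernel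

lemma length_par : parRows.length = 109 := by
  unfold parRows
  rw [List.length_map]
  simp

def chkCod : Bool := (List.range 989).all fun c => Nat.beq (cod (lab c)) c && Nat.blt (lab c) 989

theorem chkCod_true : chkCod = true := by decide +kernel

lemma cod_lab {c : ℕ} (hc : c < 989) : cod (lab c) = c ∧ lab c < 989 := by
  have h := chkCod_true
  unfold chkCod at h
  rw [List.all_eq_true] at h
  have h := h c (List.mem_range.2 hc)
  rw [Bool.and_eq_true] at h
  exact ⟨Nat.eq_of_beq_eq_true h.1, by simpa using h.2⟩

def chkZ : Bool := zL.all fun z => z.all fun t => Nat.blt t.1 10 && Nat.blt t.2.1 23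

theorem chkZ_true : chkZ = true := by decide +kernel

def chkRw : Bool := rwL.all fun w => Nat.blt w 2178

theorem chkRw_true : chkRw = true := by decide +kernel

lemma rowZ_lt {z g : ℕ} (hg : g < 66) {t : ℕ × ℕ} (ht : t ∈ rowZ z g) : t.1 < 989 := by
  unfold rowZ at ht
  rw [List.mem_flatMap] at ht
  obtain ⟨s, hs, ht⟩ := ht
  rw [List.mem_map] at ht
  obtain ⟨r, hr, rfl⟩ := ht
  have h1 : s.1 < 10 ∧ s.2.1 < 23 := by
    have h := chkZ_true
    unfold chkZ at h
    rw [List.all_eq_true] at h
    by_cases hz : z < zL.length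
    · have h := h (zL[z]) (List.getElem_mem hz)
      rw [List.all_eq_true] at h
      rw [List.getD_eq_getElem _ _ hz] at hs
      have h := h s hs
      rw [Bool.and_eq_true] at h
      exact ⟨by simpa using h.1, by simpa using h.2⟩
    · rw [List.getD_eq_default _ _ (not_lt.1 hz)] at hs
      simp at hs
  have h2 := T_lt43 h1.1 hg hr
  simp only
  omega

include hι in
/-- the kernel of the system of syzygies -/
lemma main_kernel (U : ℕ → K) (h1 : ∀ z g, z < 33 → g < 66 → ev ι U (rowZ z g) = 0)
    (h2 : ∀ c, c < 989 → 880 ≤ lab c → U c = 0) (c : ℕ) (hc : c < 989) : U c = 0 := by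
  by_cases hl : lab c < 880
  swap
  · exact h2 c hc (not_lt.1 hl)
  let v : Fin 880 → K := fun j => U (cod j)
  have hv : (rmat ι 880 lab mainRows).mulVec v = 0 := by
    ext i
    rw [rmat_mulVec, Pi.zero_apply]
    have hi : (i : ℕ) < mainRows.length := by rw [length_main]; exact i.2
    rw [List.getD_eq_getElem _ _ hi]
    have hlen : mainRows.length = rwL.length := List.length_map _
    have hi2 : (i : ℕ) < rwL.length := hlen ▸ hi
    obtain ⟨w, hw0⟩ : ∃ w, w = rwL[(i : ℕ)]'hi2 := ⟨_, rfl⟩
    have h3 : mainRows[(i : ℕ)]'hi = rowZ (w / 66) (w % 66) := by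
      rw [hw0]
      simp only [mainRows, List.getElem_map]
    rw [h3]
    have hw : w < 2178 := by
      rw [hw0]
      have h := chkRw_true
      unfold chkRw at h
      rw [List.all_eq_true] at h
      have h4 := h _ (List.getElem_mem hi2)
      rwa [Nat.blt_eq] at h4
    have hg : w % 66 < 66 := Nat.mod_lt _ (by norm_num)
    refine Eq.trans ?_ (h1 (w / 66) _ (by omega) hg)
    apply ev_congr
    intro t ht
    have h4 := rowZ_lt hg ht
    have h5 := cod_lab h4
    by_cases h6 : lab t.1 < 880
    · rw [dif_pos h6]
      simp only [v, h5.1]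
    · rw [dif_neg h6, h2 t.1 h4 (not_lt.1 h6)]
  have hdet := det_ne_zero hι 880 lab mainRows length_main run_main
  have h3 := Matrix.eq_zero_of_mulVec_eq_zero hdet hv
  have h4 := congrFun h3 ⟨lab c, hl⟩
  simpa [v, (cod_lab hc).1] using h4

include hι in
/-- surjectivity on the free coordinates -/
lemma par_surj (t : ℕ → K) : ∃ par : ℕ → K, ∀ i < 109,
    ev ι par (dList (jCode i / 43) (jCode i % 43)) = t i := by
  have hdet := det_ne_zero hι 109 plab parRows length_par run_par
  obtain ⟨v, hv⟩ : ∃ v, (rmat ι 109 plab parRows).mulVec v = fun i : Fin 109 => t (i : ℕ) := by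
    refine ⟨(rmat ι 109 plab parRows)⁻¹.mulVec fun i : Fin 109 => t (i : ℕ), ?_⟩
    rw [Matrix.mulVec_mulVec, Matrix.mul_nonsing_inv _ (isUnit_iff_ne_zero.2 hdet),
      Matrix.one_mulVec]
  refine ⟨fun c => if h : plab c < 109 then v ⟨plab c, h⟩ else 0, fun i hi => ?_⟩
  have h1 := congrFun hv ⟨i, hi⟩
  rw [rmat_mulVec] at h1
  simp only at h1
  rw [← h1]
  have hi2 : i < parRows.length := by rw [length_par]; exact hi
  rw [List.getD_eq_getElem _ _ hi2]
  simp only [parRows, List.getElem_map, List.getElem_range]

end main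

end Pool.Agent.Helper413.Gal
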