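import Mathlib
import Pool.Agent.Helper413.Gal.Act

set_option autoImplicit false
set_option linter.unusedSectionVars false

open MvPolynomial

namespace Pool.Agent.Helper413.Gal

def ins (l : ℕ) : List ℕ → List ℕ
  | [] => [l]
  | a :: L => bif Nat.ble l a then l :: a :: L else a :: ins l L

lemma ins_perm (l : ℕ) (L : List ℕ) : (ins l L).Perm (l :: L) := by
  induction L with
  | nil => simp [ins]
  | cons a L ih =>
    rw [ins]
    cases Nat.ble l a with
    | true => simp
    | false =>
      rw [cond_false]
      exact (List.Perm.cons a ih).trans (List.Perm.swap l a L)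

def hasDup : List ℕ → Bool
  | a :: b :: L => Nat.beq a b || hasDup (b :: L)
  | _ => false

abbrev Tab := List (List ℕ × List (ℕ × ℕ))

def lookT (m : List ℕ) : Tab → Option (List (ℕ × ℕ))
  | [] => none
  | (a, L) :: t => bif decide (m = a) then some L else lookT m t

def nfm (tab : Tab) (m : List ℕ) : Option (List (ℕ × ℕ)) :=
  bif hasDup m then some [] else lookT m tab

def expd (tab : Tab) : List (List ℕ × ℕ) → Option (List (ℕ × ℕ))
  | [] => some []
  | (m, e) :: r =>
    match nfm tab m, expd tab r with
    | some L, some R => some ((L.map fun s => (s.1, s.2 + e)) ++ R)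
    | _, _ => none

def insM (mult : List ℕ) (L : List ℕ) : List ℕ := mult.foldr ins L

def stepOk (tab : Tab) (s : List ℕ × List (ℕ × ℕ) × List ℕ × ℕ × ℕ) : Bool :=
  let ts := (qq s.2.2.2.1).map fun t => (insM s.2.2.1 t.1, t.2 + s.2.2.2.2)
  decide ((ts.filter fun t => decide (t.1 = s.1)).map (fun t => t.2 % 4) = [0]) &&
  match expd tab (ts.filter fun t => !decide (t.1 = s.1)) with
  | none => false
  | some R => isZ 100 (s.2.1 ++ R)

def buildTab : List (List ℕ × List (ℕ × ℕ) × List ℕ × ℕ × ℕ) → Tab → Option Tab
  | [], tab => some tab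
  | s :: r, tab => bif stepOk tab s then buildTab r ((s.1, s.2.1) :: tab) else none

def baseTab : Tab := (List.range 66).map fun i => (bm i, [(i, 0)])

def finTab : Tab := ((stL.map fun s => (s.1, s.2.1)).reverse) ++ baseTab

def colP (l β : ℕ) : List (ℕ × ℕ) :=
  (List.range 66).flatMap fun γ => ((T l γ).filter fun t => Nat.beq t.1 β).map fun t => (γ, t.2)

def hd0 (m : List ℕ) : Bool := match m with
  | 0 :: _ => true
  | _ => false

def chkRedOne (tab : Tab) (l β : ℕ) : Bool :=
  bif Nat.blt β 43 then
    match nfm tab (ins l (bm β)) with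
    | none => false
    | some L => eqT L (colP l β)
  else
    hd0 (bm β) && eqT [] (colP l β) &&
    match nfm tab (ins l (bm β).tail) with
    | none => false
    | some L => L.all fun t => hd0 (bm t.1)

def chkRed (tab : Tab) : Bool :=
  (List.range 10).all fun l => (List.range 66).all fun β => chkRedOne tab l β

theorem buildTab_fin : buildTab stL baseTab = some finTab := by decide +kernel

theorem chkRed_true : chkRed finTab = true := by decide +kernel

section
variable {R Q : Type*} [CommRing R] [CommRing Q] [Algebra R Q] {ι : R} (hι : ι ^ 2 = -1)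
  (y : ℕ → Q) (hsq : ∀ a, y a * y a = 0) (hq : ∀ s, ev ι (mono y) (qq s) = 0)

lemma mono_cons (l : ℕ) (L : List ℕ) : mono y (l :: L) = y l * mono y L := by
  simp [mono]

lemma mono_ins (l : ℕ) (L : List ℕ) : mono y (ins l L) = y l * mono y L := by
  rw [← mono_cons]
  exact ((ins_perm l L).map y).prod_eq

lemma mono_insM (mult L : List ℕ) : mono y (insM mult L) = mono y mult * mono y L := by
  induction mult with
  | nil => simp [insM, mono]
  | cons a mult ih =>
    change mono y (ins a (insM mult L)) = _
    rw [mono_ins, ih, mono_cons, mul_assoc]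

/-- validity of a table -/
def Valid (ι : R) (y : ℕ → Q) (tab : Tab) : Prop :=
  ∀ s ∈ tab, mono y s.1 = ev ι (fun n => mono y (bm n)) s.2

include hsq in
lemma mono_hasDup (m : List ℕ) (h : hasDup m = true) : mono y m = 0 := by
  induction m with
  | nil => simp [hasDup] at h
  | cons a m ih =>
    cases m with
    | nil => simp [hasDup] at h
    | cons b m =>
      rw [hasDup, Bool.or_eq_true] at h
      rcases h with h | h
      · have := Nat.eq_of_beq_eq_true h
        subst this
        rw [mono_cons, mono_cons, ← mul_assoc, hsq, zero_mul]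
      · rw [mono_cons, ih h, mul_zero]

omit hsq in
lemma lookT_mem (m : List ℕ) (tab : Tab) (L : List (ℕ × ℕ)) (h : lookT m tab = some L) :
    (m, L) ∈ tab := by
  induction tab with
  | nil => simp [lookT] at h
  | cons s tab ih =>
    obtain ⟨a, L'⟩ := s
    rw [lookT] at h
    by_cases hm : m = a
    · subst hm
      simp at h
      simp [h]
    · simp only [hm, decide_false, cond_false] at h
      exact List.mem_cons_of_mem _ (ih h)

include hsq in
lemma nfm_spec (tab : Tab) (hV : Valid ι y tab) (m : List ℕ) (L : List (ℕ × ℕ))
    (h : nfm tab m = some L) : mono y m = ev ι (fun n => mono y (bm n)) L := by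
  unfold nfm at h
  cases hd : hasDup m with
  | true =>
    rw [hd, cond_true, Option.some.injEq] at h
    subst h
    rw [mono_hasDup y hsq m hd, ev_nil]
  | false =>
    rw [hd, cond_false] at h
    exact hV _ (lookT_mem m tab L h)

include hsq in
lemma expd_spec (tab : Tab) (hV : Valid ι y tab) (r : List (List ℕ × ℕ)) (L : List (ℕ × ℕ))
    (h : expd tab r = some L) : ev ι (mono y) r = ev ι (fun n => mono y (bm n)) L := by
  induction r generalizing L with
  | nil =>
    rw [expd, Option.some.injEq] at h
    subst h
    simp
  | cons s r ih =>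
    obtain ⟨m, e⟩ := s
    rw [expd] at h
    cases h1 : nfm tab m with
    | none => rw [h1] at h; simp at h
    | some L1 =>
      cases h2 : expd tab r with
      | none => rw [h1, h2] at h; simp at h
      | some L2 =>
        rw [h1, h2] at h
        simp only [Option.some.injEq] at h
        subst h
        rw [ev_cons, ev_append, ev_shift, ih _ h2, ← nfm_spec y hsq tab hV m L1 h1]

omit hsq in
lemma ev_filter_add {α M : Type*} [AddCommGroup M] [Module R M] (m : α → M) (p : α × ℕ → Bool)
    (L : List (α × ℕ)) :
    ev ι m (L.filter p) + ev ι m (L.filter fun t => !p t) = ev ι m L := by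
  induction L with
  | nil => simp
  | cons t L ih =>
    rw [List.filter_cons, List.filter_cons]
    cases hp : p t with
    | true =>
      simp only [if_true, Bool.not_true, ev_cons, ← ih]
      simp only [Bool.false_eq_true, if_false]
      abel
    | false =>
      simp only [Bool.not_false, if_true, ev_cons, ← ih]
      simp only [Bool.false_eq_true, if_false]
      abel

include hι hsq hq in
lemma stepOk_spec (tab : Tab) (hV : Valid ι y tab)
    (s : List ℕ × List (ℕ × ℕ) × List ℕ × ℕ × ℕ) (h : stepOk tab s = true) :
    mono y s.1 = ev ι (fun n => mono y (bm n)) s.2.1 := by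
  obtain ⟨m, nf, mult, a, e0⟩ := s
  unfold stepOk at h
  simp only at h
  set ts := (qq a).map fun t => (insM mult t.1, t.2 + e0) with hts
  rw [Bool.and_eq_true, decide_eq_true_eq] at h
  obtain ⟨h1, h2⟩ := h
  cases h3 : expd tab (ts.filter fun t => !decide (t.1 = m)) with
  | none => rw [h3] at h2; simp at h2
  | some L =>
    rw [h3] at h2
    simp only at h2
    have h4 := isZ_spec (fun n => mono y (bm n)) hι _ _ h2
    rw [ev_append, ← expd_spec y hsq tab hV _ L h3] at h4
    have h5 : ev ι (mono y) ts = 0 := by
      rw [hts]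
      have h6 : ((qq a).map fun t => (insM mult t.1, t.2 + e0)) =
          ((qq a).map fun t => (insM mult t.1, t.2)).map fun t => (t.1, t.2 + e0) := by
        rw [List.map_map]
        rfl
      rw [h6, ev_shift, ev_map]
      have h7 : (fun a => mono y (insM mult a)) = fun a => mono y mult * mono y a := by
        funext L
        exact mono_insM y mult L
      rw [h7]
      have h8 := linear_ev ι (mono y) (LinearMap.mulLeft R (mono y mult)) (qq a)
      simp only [LinearMap.mulLeft_apply] at h8
      rw [← h8, hq, mul_zero, smul_zero]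
    have h6 := ev_filter_add (ι := ι) (mono y) (fun t => decide (t.1 = m)) ts
    rw [h5] at h6
    have h7 : ev ι (mono y) (ts.filter fun t => decide (t.1 = m)) = mono y m := by
      generalize hF : ts.filter (fun t => decide (t.1 = m)) = F at h1
      have hall : ∀ t ∈ F, t.1 = m := by
        intro t ht
        rw [← hF, List.mem_filter] at ht
        simpa using ht.2
      have hlen : F.length = 1 := by
        have := congrArg List.length h1
        simpa using this
      obtain ⟨t, rfl⟩ := List.length_eq_one_iff.1 hlen
      have h9 : t.2 % 4 = 0 := by simpa using h1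
      rw [ev_cons, ev_nil, add_zero, hall t (by simp), ← pow_mod4 hι t.2, h9]
      simp
    rw [h7] at h6
    change mono y m = ev ι (fun n => mono y (bm n)) nf
    have h8 : mono y m = - ev ι (mono y) (ts.filter fun t => !decide (t.1 = m)) :=
      eq_neg_of_add_eq_zero_left h6
    rw [h8]
    exact (eq_neg_of_add_eq_zero_left h4).symm

include hι hsq hq in
lemma buildTab_spec (l : List (List ℕ × List (ℕ × ℕ) × List ℕ × ℕ × ℕ)) (tab tab' : Tab)
    (hV : Valid ι y tab) (h : buildTab l tab = some tab') : Valid ι y tab' := by
  induction l generalizing tab with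
  | nil =>
    rw [buildTab, Option.some.injEq] at h
    subst h
    exact hV
  | cons s l ih =>
    rw [buildTab] at h
    cases h1 : stepOk tab s with
    | false => rw [h1] at h; simp at h
    | true =>
      rw [h1, cond_true] at h
      refine ih _ ?_ h
      intro t ht
      rcases List.mem_cons.1 ht with rfl | ht
      · exact stepOk_spec hι y hsq hq tab hV s h1
      · exact hV t ht

lemma valid_base : Valid ι y baseTab := by
  intro s hs
  unfold baseTab at hs
  rw [List.mem_map] at hs
  obtain ⟨i, _, rfl⟩ := hs
  simp

include hι hsq hq in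
lemma valid_fin : Valid ι y finTab :=
  buildTab_spec hι y hsq hq stL baseTab finTab (valid_base y) buildTab_fin

lemma ev_colP (l : ℕ) (β : ℕ) (B : ℕ → Q) : ev ι B (colP l β) =
    ∑ γ : Fin 66, (ev ι (fun n => if n = β then (1 : R) else 0) (T l γ)) • B γ := by
  unfold colP
  rw [ev_flatMap]
  have h1 : ∀ γ : ℕ, ev ι B (((T l γ).filter fun t => Nat.beq t.1 β).map fun t => (γ, t.2)) =
      (ev ι (fun n => if n = β then (1 : R) else 0) (T l γ)) • B γ := by
    intro γ
    induction T l γ with
    | nil => simp
    | cons t L ih =>
      rw [List.filter_cons, ev_cons, add_smul, ← ih]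
      by_cases h : t.1 = β
      · subst h
        simp
      · have h2 : Nat.beq t.1 β = false := by
          rw [← Bool.not_eq_true]
          intro h3
          exact h (Nat.eq_of_beq_eq_true h3)
        simp [h, h2]
  simp only [h1]
  rw [← Finset.sum_range fun γ : ℕ =>
    (ev ι (fun n => if n = β then (1 : R) else 0) (T l γ)) • B γ]
  rfl

include hsq hι hq in
lemma red_one (l : Fin 10) (β : Fin 66) :
    y l * mono y (bm β) = ev ι (fun n => mono y (bm n)) (colP l β) := by
  have hV := valid_fin hι y hsq hq
  have h := chkRed_true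
  unfold chkRed at h
  rw [List.all_eq_true] at h
  have h := h l (List.mem_range.2 l.2)
  rw [List.all_eq_true] at h
  have h := h β (List.mem_range.2 β.2)
  unfold chkRedOne at h
  cases hb : Nat.blt (β : ℕ) 43 with
  | true =>
    rw [hb, cond_true] at h
    cases h1 : nfm finTab (ins l (bm β)) with
    | none => rw [h1] at h; simp at h
    | some L =>
      rw [h1] at h
      simp only at h
      rw [← mono_ins, nfm_spec y hsq finTab hV _ L h1]
      exact eqT_spec _ hι h
  | false =>
    rw [hb, cond_false] at h
    rw [Bool.and_eq_true, Bool.and_eq_true] at h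
    obtain ⟨⟨h0, h2⟩, h3⟩ := h
    have h4 := eqT_spec (fun n => mono y (bm n)) hι h2
    rw [← h4, ev_nil]
    have key : ∀ n : ℕ, hd0 (bm n) = true → bm n = 0 :: (bm n).tail := by
      intro n hn
      unfold hd0 at hn
      split at hn
      · rename_i m h5
        rw [h5]
        rfl
      · simp at hn
    cases h1 : nfm finTab (ins l (bm β).tail) with
    | none => rw [h1] at h3; simp at h3
    | some L =>
      rw [h1] at h3
      simp only at h3
      rw [List.all_eq_true] at h3
      rw [key β h0, mono_cons, mul_left_comm, ← mono_ins, nfm_spec y hsq finTab hV _ L h1]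
      have h5 := linear_ev ι (fun n => mono y (bm n)) (LinearMap.mulLeft R (y 0)) L
      simp only [LinearMap.mulLeft_apply] at h5
      rw [h5, ev_congr (m' := fun _ => 0), ev_zero]
      intro t ht
      rw [key t.1 (h3 t ht), mono_cons, ← mul_assoc, hsq, zero_mul]

include hsq hι hq in
/-- multiplication of normal forms -/
lemma red_vec (l : Fin 10) (v : Fin 66 → R) :
    y l * ∑ β : Fin 66, v β • mono y (bm β) = ∑ γ : Fin 66, xop ι l v γ • mono y (bm γ) := by
  rw [Finset.mul_sum]
  have h1 : ∀ β : Fin 66, y l * v β • mono y (bm β) = ∑ γ : Fin 66,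
      (v β * (ev ι (fun n => if n = (β : ℕ) then (1 : R) else 0) (T l γ))) • mono y (bm γ) := by
    intro β
    rw [mul_smul_comm, red_one hι y hsq hq, ev_colP, Finset.smul_sum]
    simp only [smul_smul]
  simp only [h1]
  rw [Finset.sum_comm]
  refine Finset.sum_congr rfl fun γ _ => ?_
  rw [← Finset.sum_smul]
  congr 1
  change _ = ev ι (ex v) (T l γ)
  have h2 : ex v = fun n => ∑ β : Fin 66, v β * (if n = (β : ℕ) then (1 : R) else 0) := by
    funext n
    by_cases h : n < 66
    · rw [ex_of_lt _ h, Finset.sum_eq_single ⟨n, h⟩]
      · simp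
      · intro b _ hb
        rw [if_neg, mul_zero]
        intro h3
        exact hb (Fin.ext h3.symm)
      · simp
    · rw [ex_big _ (not_lt.1 h), Finset.sum_eq_zero]
      intro b _
      rw [if_neg, mul_zero]
      intro h3
      exact h (h3 ▸ b.2)
  rw [h2, ev_sum]
  refine Finset.sum_congr rfl fun β _ => ?_
  exact (ev_smul ι (v β) _ _).symm

end

section span
variable {R : Type*} [CommRing R] {ι : R} (hι : ι ^ 2 = -1)

/-- the quadric `s` -/
noncomputable def qpol (ι : R) (s : ℕ) : MvPolynomial (Fin 10) R := ev ι (mono (xv R)) (qq s)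

lemma commT_xop (hι : ι ^ 2 = -1) : CommT fun l : Fin 10 => xop ι l :=
  fun i j => xop_comm hι i j

include hι in
lemma sub_mem_of_quadrics (J : Ideal (MvPolynomial (Fin 10) R))
    (hJ : ∀ s < 23, qpol ι s ∈ J) (f : MvPolynomial (Fin 10) R) :
    f - ∑ γ : Fin 66, act _ (commT_xop hι) f e0 γ • bR R γ ∈ J := by
  rw [← Ideal.Quotient.mk_eq_mk_iff_sub_mem]
  let y : ℕ → MvPolynomial (Fin 10) R ⧸ J := fun n => Ideal.Quotient.mk J (xv R n)
  have hmono : ∀ L, Ideal.Quotient.mk J (mono (xv R) L) = mono y L := by
    intro L
    unfold mono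
    rw [map_list_prod, List.map_map]
    rfl
  have hqs : ∀ s, ev ι (mono y) (qq s) = 0 := by
    intro s
    by_cases hs : s < 23
    · have h1 := hJ s hs
      rw [← Ideal.Quotient.eq_zero_iff_mem] at h1
      have h2 := linear_ev ι (mono (xv R)) ((Ideal.Quotient.mkₐ R J).toLinearMap) (qq s)
      have h3 : (Ideal.Quotient.mkₐ R J).toLinearMap (ev ι (mono (xv R)) (qq s)) =
        Ideal.Quotient.mk J (qpol ι s) := rfl
      rw [h3, h1] at h2
      rw [h2]
      congr 1
      funext L
      exact (hmono L).symm
    · have : qq s = [] := by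
        unfold qq
        apply List.getD_eq_default
        have : qL.length = 23 := by decide +kernel
        omega
      rw [this, ev_nil]
  have hsq : ∀ a, y a * y a = 0 := by
    intro a
    by_cases ha : a < 10
    · have h1 := hqs a
      have h2 : qq a = [([a, a], 0)] := by
        have h3 : ∀ a < 10, qq a = [([a, a], 0)] := by decide +kernel
        exact h3 a ha
      rw [h2] at h1
      simpa [mono] using h1
    · have h1 : y a = 0 := by
        change Ideal.Quotient.mk J (xv R a) = 0
        unfold xv
        rw [dif_neg ha, map_zero]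
      rw [h1, zero_mul]
  have hyl : ∀ l : Fin 10, y l = Ideal.Quotient.mk J (X l) := by
    intro l
    change Ideal.Quotient.mk J (xv R l) = _
    rw [xv_val]
  have key : ∀ v : Fin 66 → R, Ideal.Quotient.mk J (∑ γ : Fin 66, v γ • bR R γ) =
      ∑ γ : Fin 66, v γ • mono y (bm γ) := by
    intro v
    have h1 := map_sum (Ideal.Quotient.mkₐ R J) (fun γ : Fin 66 => v γ • bR R γ) Finset.univ
    change Ideal.Quotient.mkₐ R J _ = _
    rw [h1]
    refine Finset.sum_congr rfl fun γ _ => ?_
    rw [map_smul]
    congr 1
    exact hmono _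
  rw [key]
  induction f using MvPolynomial.induction_on with
  | C a =>
    have h1 : ∀ γ : Fin 66, act _ (commT_xop hι) (C a) e0 γ = if γ = 0 then a else 0 := by
      intro γ
      rw [act_C]
      unfold e0
      rw [Pi.smul_apply, Pi.single_apply]
      split_ifs <;> simp
    simp only [h1, ite_smul, zero_smul, Finset.sum_ite_eq', Finset.mem_univ, if_true]
    have h2 : mono y (bm ((0 : Fin 66) : ℕ)) = 1 := by
      have : bm ((0 : Fin 66) : ℕ) = [] := by decide
      rw [this]
      simp [mono]
    rw [h2]
    have h3 := Algebra.algebraMap_eq_smul_one (A := MvPolynomial (Fin 10) R ⧸ J) a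
    rw [← h3]
    rfl
  | add p q hp hq =>
    rw [map_add, hp, hq, ← Finset.sum_add_distrib]
    refine Finset.sum_congr rfl fun γ _ => ?_
    rw [← add_smul, map_add]
    rfl
  | mul_X p i hp =>
    rw [map_mul, hp, mul_comm, ← hyl, red_vec hι y hsq hqs]
    refine Finset.sum_congr rfl fun γ _ => ?_
    congr 1
    rw [mul_comm p (X i), map_mul, act_X]
    rfl

end span


end Pool.Agent.Helper413.Gal
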