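import Mathlib
import Pool.Agent.Helper413.Gal.Red

set_option autoImplicit false
set_option linter.unusedSectionVars false

open MvPolynomial Pool.Agent.Helper226

namespace Pool.Agent.Helper413.Gal

section functoriality
variable {R R' : Type*} [CommRing R] [CommRing R']

lemma map_ex (φ : R →+* R') (v : Fin 66 → R) (n : ℕ) : φ (ex v n) = ex (fun g => φ (v g)) n := by
  unfold ex; split_ifs <;> simp

lemma map_xop (φ : R →+* R') (ι : R) (l : ℕ) (v : Fin 66 → R) :
    (fun g => φ (xop ι l v g)) = xop (φ ι) l (fun g => φ (v g)) := by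
  ext g
  change φ (ev ι (ex v) (T l g)) = ev (φ ι) (ex fun g => φ (v g)) (T l g)
  have h := map_ev ι (ex v) φ (φ : R →+ R') (fun r x => by simp) (T l g)
  simp only [AddMonoidHom.coe_coe] at h
  rw [h]
  congr 1
  funext n
  exact map_ex φ v n

lemma map_kap (φ : R →+* R') (c : ℕ → ℕ → R) (j k τ : ℕ) :
    φ (kap c j k τ) = kap (fun s t => φ (c s t)) j k τ := by
  unfold kap
  rw [map_list_sum, List.map_map]
  rfl

lemma map_cop (φ : R →+* R') (c : ℕ → ℕ → R) (l : ℕ) (v : Fin 66 → R) :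
    (fun g => φ (cop c l v g)) = cop (fun s t => φ (c s t)) l (fun g => φ (v g)) := by
  ext g
  rw [cop_apply, cop_apply]
  split_ifs
  · simp only [map_neg, map_sum, map_mul, map_kap, map_ex]
  · simp

lemma map_yop (φ : R →+* R') (ι : R) (c : ℕ → ℕ → R) (l : ℕ) (v : Fin 66 → R) :
    (fun g => φ (yop ι c l v g)) = yop (φ ι) (fun s t => φ (c s t)) l (fun g => φ (v g)) := by
  ext g
  change φ (xop ι l v g + cop c l v g) = xop _ _ _ g + cop _ _ _ g
  rw [map_add, ← map_xop, ← map_cop]

/-- the family of commuting tuples -/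
noncomputable def yfam (ι : R) (g : Matrix (Fin 10) (Fin 10) R) (a : Fin 10 → R)
    (c : ℕ → ℕ → R) (l : Fin 10) : Module.End R (Fin 66 → R) :=
  ∑ j : Fin 10, g l j • yop ι c j + a l • (1 : Module.End R (Fin 66 → R))

lemma yfam_apply (ι : R) (g : Matrix (Fin 10) (Fin 10) R) (a : Fin 10 → R)
    (c : ℕ → ℕ → R) (l : Fin 10) (v : Fin 66 → R) :
    yfam ι g a c l v = ∑ j : Fin 10, g l j • yop ι c j v + a l • v := by
  simp [yfam, LinearMap.sum_apply]

lemma map_yfam (φ : R →+* R') (ι : R) (g : Matrix (Fin 10) (Fin 10) R) (a : Fin 10 → R)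
    (c : ℕ → ℕ → R) (l : Fin 10) (v : Fin 66 → R) :
    (fun x => φ (yfam ι g a c l v x)) =
      yfam (φ ι) (g.map φ) (fun i => φ (a i)) (fun s t => φ (c s t)) l (fun x => φ (v x)) := by
  rw [yfam_apply, yfam_apply]
  simp only [← map_yop]
  ext x
  simp [Finset.sum_apply]

lemma commT_yfam {ι : R} (hι : ι ^ 2 = -1) (g : Matrix (Fin 10) (Fin 10) R) (a : Fin 10 → R)
    (c : ℕ → ℕ → R) : CommT (yfam ι g a c) := by
  intro i j
  unfold yfam
  apply Commute.add_right
  · apply Commute.add_left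
    · apply Commute.sum_left
      intro k _
      apply Commute.sum_right
      intro l _
      exact ((yop_comm hι c k l).smul_left _).smul_right _
    · exact (Commute.one_left _).smul_left _
  · exact (Commute.one_right _).smul_right _

lemma kap_zero (j k τ : ℕ) : kap (fun _ _ => (0 : R)) j k τ = 0 := by
  unfold kap
  simp

lemma cop_zero (j : ℕ) : cop (fun _ _ => (0 : R)) j = 0 := by
  refine LinearMap.ext fun v => ?_
  ext g
  rw [cop_apply]
  simp [kap_zero]

lemma yfam_base (ι : R) : yfam ι 1 0 (fun _ _ => 0) = fun l : Fin 10 => xop ι l := by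
  funext l
  refine LinearMap.ext fun v => ?_
  rw [yfam_apply]
  simp [Matrix.one_apply, yop, cop_zero]

/-- extension of a tuple by zero -/
def exY (Y : Fin 10 → Module.End R (Fin 66 → R)) (n : ℕ) : Module.End R (Fin 66 → R) :=
  if h : n < 10 then Y ⟨n, h⟩ else 0

lemma act_mono (Y : Fin 10 → Module.End R (Fin 66 → R)) (hY : CommT Y) (L : List ℕ) :
    act Y hY (mono (xv R) L) = (L.map (exY Y)).prod := by
  unfold mono
  rw [map_list_prod, List.map_map]
  congr 2
  funext n
  simp only [Function.comp_apply]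
  unfold xv exY
  split_ifs <;> simp

lemma T_big_left {l g : ℕ} (h : 10 ≤ l) : T l g = [] := by
  unfold T
  have h1 : tL.length = 10 := by decide +kernel
  rw [List.getD_eq_default tL [] (by omega)]
  simp

lemma xop_big (ι : R) {l : ℕ} (h : 10 ≤ l) : xop ι l = 0 := by
  refine LinearMap.ext fun v => ?_
  ext g
  change ev ι (ex v) (T l g) = 0
  rw [T_big_left h, ev_nil]

lemma exY_xop (ι : R) : exY (fun l : Fin 10 => xop ι l) = xop ι := by
  funext n
  unfold exY
  split_ifs with h
  · rfl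
  · rw [xop_big ι (not_lt.1 h)]

lemma act_bR_base {ι : R} (hι : ι ^ 2 = -1) (j : Fin 66) :
    act _ (commT_xop hι) (bR R j) e0 = Pi.single j 1 := by
  unfold bR
  rw [act_mono, exY_xop, basis_apply hι]

lemma NN_base {ι : R} (hι : ι ^ 2 = -1) : NN _ (commT_xop hι) = 1 := by
  ext g j
  rw [NN, Matrix.of_apply, act_bR_base hι, Matrix.one_apply, Pi.single_apply]

lemma act_qpol_base {ι : R} (hι : ι ^ 2 = -1) (s : ℕ) (hs : s < 23) :
    act _ (commT_xop hι) (qpol ι s) e0 = 0 := by
  have h1 := linear_ev ι (mono (xv R))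
    ((LinearMap.applyₗ e0) ∘ₗ (act _ (commT_xop hι)).toLinearMap) (qq s)
  have h2 : ((LinearMap.applyₗ e0) ∘ₗ (act _ (commT_xop hι)).toLinearMap) (ev ι (mono (xv R)) (qq s))
    = act _ (commT_xop hι) (qpol ι s) e0 := rfl
  rw [h2] at h1
  rw [h1, ← quad_apply hι s hs]
  congr 1
  funext L
  change act _ (commT_xop hι) (mono (xv R) L) e0 = _
  rw [act_mono, exY_xop]

end functoriality

section charts
variable {R : Type} [CommRing R] [Algebra ℚ R]

/-- the chart of a member of the family -/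
noncomputable def fch {ι : R} (hι : ι ^ 2 = -1) (g : Matrix (Fin 10) (Fin 10) R) (a : Fin 10 → R)
    (c : ℕ → ℕ → R) (hN : IsUnit (NN _ (commT_yfam hι g a c)).det) : Chart ℚ bQ R :=
  chartOf _ (commT_yfam hι g a c) hN

/-- the base chart -/
noncomputable def bch {ι : R} (hι : ι ^ 2 = -1) : Chart ℚ bQ R :=
  chartOf _ (commT_xop hι) (by rw [NN_base hι]; simp)

lemma PP_bch {ι : R} (hι : ι ^ 2 = -1) (f : MvPolynomial (Fin 10) R) :
    PP (bch hι) f = act _ (commT_xop hι) f e0 := by
  unfold bch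
  rw [PP_chartOf, NN_base hι]
  simp

lemma chartOf_congr {Y Y' : Fin 10 → Module.End R (Fin 66 → R)} (h : Y = Y') (hY : CommT Y)
    (hY' : CommT Y') (hN : IsUnit (NN Y hY).det) (hN' : IsUnit (NN Y' hY').det) :
    chartOf Y hY hN = chartOf Y' hY' hN' := by
  subst h; rfl

lemma fch_base {ι : R} (hι : ι ^ 2 = -1) (hN) : fch hι 1 0 (fun _ _ => 0) hN = bch hι :=
  chartOf_congr (yfam_base ι) _ _ _ _

variable {R' : Type} [CommRing R'] [Algebra ℚ R']

lemma fch_map {ι : R} (hι : ι ^ 2 = -1) {ι' : R'} (hι' : ι' ^ 2 = -1) (φ : R →ₐ[ℚ] R')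
    (hφ : φ ι = ι')
    (g : Matrix (Fin 10) (Fin 10) R) (a : Fin 10 → R) (c : ℕ → ℕ → R) (hN)
    (g' : Matrix (Fin 10) (Fin 10) R') (a' : Fin 10 → R') (c' : ℕ → ℕ → R') (hN')
    (hg : ∀ i j, φ (g i j) = g' i j) (ha : ∀ i, φ (a i) = a' i) (hc : ∀ s t, φ (c s t) = c' s t) :
    (fch hι g a c hN).map φ = fch hι' g' a' c' hN' := by
  have hg' : g.map φ = g' := by ext i j; exact hg i j
  have ha' : (fun i => φ (a i)) = a' := funext ha
  have hc' : (fun s t => φ (c s t)) = c' := by funext s t; exact hc s t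
  subst hφ hg' ha' hc'
  exact chartOf_map φ _ _ _ _ (fun i v => map_yfam φ.toRingHom ι g a c i v) _ _

lemma bch_map {ι : R} (hι : ι ^ 2 = -1) {ι' : R'} (hι' : ι' ^ 2 = -1) (φ : R →ₐ[ℚ] R')
    (hφ : φ ι = ι') : (bch hι).map φ = bch hι' := by
  subst hφ
  exact chartOf_map φ _ _ _ _ (fun i v => map_xop φ.toRingHom ι i v) _ _

lemma PP_map_map {b : Fin 66 → MvPolynomial (Fin 10) ℚ} (c : Chart ℚ b R) (φ : R →ₐ[ℚ] R')
    (f : MvPolynomial (Fin 10) R) (j : Fin 66) :
    PP (c.map φ) (map φ.toRingHom f) j = φ (PP c f j) := by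
  induction f using MvPolynomial.induction_on' with
  | monomial m r =>
    have h1 : (monomial m r : MvPolynomial (Fin 10) R) =
        r • map (algebraMap ℚ R) (monomial m 1) := by
      rw [map_monomial, map_one, smul_monomial, smul_eq_mul, mul_one]
    have h2 : map φ.toRingHom (monomial m r : MvPolynomial (Fin 10) R) =
        φ r • map (algebraMap ℚ R') (monomial m 1) := by
      rw [map_monomial, map_monomial, map_one, smul_monomial, smul_eq_mul, mul_one]
      rfl
    rw [h2, h1, map_smul, map_smul, Pi.smul_apply, Pi.smul_apply, PP_map, PP_map, smul_eq_mul,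
      smul_eq_mul, map_mul, Chart.map_q]
  | add p q hp hq =>
    rw [map_add, map_add, map_add, Pi.add_apply, Pi.add_apply, hp, hq, map_add]

end charts

section dprod
variable {A : Type*} [Ring A]

/-- derivative of a product -/
def dprod (X Z : ℕ → A) : List ℕ → A
  | [] => 0
  | l :: L => Z l * (L.map X).prod + X l * dprod X Z L

lemma prod_add (X Z : ℕ → A) (ε : A) (hε : ε * ε = 0) (hc : ∀ a : A, Commute ε a) (L : List ℕ) :
    (L.map fun l => X l + ε * Z l).prod = (L.map X).prod + ε * dprod X Z L := by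
  induction L with
  | nil => simp [dprod]
  | cons l L ih =>
    rw [List.map_cons, List.prod_cons, ih, List.map_cons, List.prod_cons, dprod, add_mul, mul_add,
      mul_add, mul_add]
    have h1 : X l * (ε * dprod X Z L) = ε * (X l * dprod X Z L) := by
      rw [← mul_assoc, ← (hc (X l)).eq, mul_assoc]
    have h2 : ε * Z l * (ε * dprod X Z L) = 0 := by
      rw [(hc (dprod X Z L)).eq, ← mul_assoc, mul_assoc ε, (hc _).eq]
      rw [mul_assoc, mul_assoc, hε, mul_zero, mul_zero]
    rw [h1, h2, mul_assoc]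
    abel

end dprod

end Pool.Agent.Helper413.Gal
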