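import Mathlib
import Pool.Agent.Helper413.Gal.Fam
import Pool.Agent.Helper413.Gal.ElimS

set_option autoImplicit false
set_option linter.unusedSectionVars false

open MvPolynomial Pool.Agent.Helper226

namespace Pool.Agent.Helper413.Gal

section cov
variable {R R' : Type*} [CommRing R] [CommRing R'] (φ : R →+* R')

/-- compatibility of operators with a ring homomorphism -/
def Cov (A : Module.End R (Fin 66 → R)) (A' : Module.End R' (Fin 66 → R')) : Prop :=
  ∀ v, (fun g => φ (A v g)) = A' (fun g => φ (v g))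

variable {φ}

lemma Cov.mul {A B : Module.End R (Fin 66 → R)} {A' B' : Module.End R' (Fin 66 → R')}
    (hA : Cov φ A A') (hB : Cov φ B B') : Cov φ (A * B) (A' * B') := by
  intro v
  change (fun g => φ (A (B v) g)) = A' (B' _)
  rw [hA, hB]

lemma Cov.add {A B : Module.End R (Fin 66 → R)} {A' B' : Module.End R' (Fin 66 → R')}
    (hA : Cov φ A A') (hB : Cov φ B B') : Cov φ (A + B) (A' + B') := by
  intro v
  change (fun g => φ (A v g + B v g)) = A' _ + B' _
  rw [← hA, ← hB]
  ext g
  simp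

lemma Cov.zero : Cov φ (0 : Module.End R (Fin 66 → R)) 0 := by
  intro v
  ext g
  simp

lemma Cov.one : Cov φ (1 : Module.End R (Fin 66 → R)) 1 := by
  intro v
  rfl

lemma Cov.smul (r : R) {A : Module.End R (Fin 66 → R)} {A' : Module.End R' (Fin 66 → R')}
    (hA : Cov φ A A') : Cov φ (r • A) (φ r • A') := by
  intro v
  change (fun g => φ (r * A v g)) = φ r • A' _
  rw [← hA]
  ext g
  simp

lemma Cov.sum {γ : Type*} (s : Finset γ) {A : γ → Module.End R (Fin 66 → R)}
    {A' : γ → Module.End R' (Fin 66 → R')}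
    (hA : ∀ i ∈ s, Cov φ (A i) (A' i)) : Cov φ (∑ i ∈ s, A i) (∑ i ∈ s, A' i) := by
  classical
  induction s using Finset.induction_on with
  | empty => exact Cov.zero
  | insert a s ha ih =>
    rw [Finset.sum_insert ha, Finset.sum_insert ha]
    exact (hA a (Finset.mem_insert_self _ _)).add
      (ih fun i hi => hA i (Finset.mem_insert_of_mem hi))

lemma Cov.prod {X : ℕ → Module.End R (Fin 66 → R)} {X' : ℕ → Module.End R' (Fin 66 → R')}
    (h : ∀ n, Cov φ (X n) (X' n)) (L : List ℕ) : Cov φ (L.map X).prod (L.map X').prod := by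
  induction L with
  | nil => exact Cov.one
  | cons l L ih =>
    rw [List.map_cons, List.prod_cons, List.map_cons, List.prod_cons]
    exact (h l).mul ih

lemma Cov.dprod {X Z : ℕ → Module.End R (Fin 66 → R)} {X' Z' : ℕ → Module.End R' (Fin 66 → R')}
    (h : ∀ n, Cov φ (X n) (X' n)) (hZ : ∀ n, Cov φ (Z n) (Z' n)) (L : List ℕ) :
    Cov φ (dprod X Z L) (dprod X' Z' L) := by
  induction L with
  | nil => exact Cov.zero
  | cons l L ih =>
    rw [Gal.dprod, Gal.dprod]
    exact ((hZ l).mul (Cov.prod h L)).add ((h l).mul ih)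

lemma cov_xop (ι : R) (l : ℕ) : Cov φ (xop ι l) (xop (φ ι) l) := map_xop φ ι l
lemma cov_cop (c : ℕ → ℕ → R) (l : ℕ) : Cov φ (cop c l) (cop (fun s t => φ (c s t)) l) :=
  map_cop φ c l

/-- the first order part of the family -/
noncomputable def Zop (ι : R) (G : ℕ → ℕ → R) (α : ℕ → R) (γ : ℕ → ℕ → R) (l : ℕ) :
    Module.End R (Fin 66 → R) :=
  ∑ j : Fin 10, G l j • xop ι j + α l • (1 : Module.End R (Fin 66 → R)) + cop γ l

lemma cov_Zop (ι : R) (G : ℕ → ℕ → R) (α : ℕ → R) (γ : ℕ → ℕ → R) (l : ℕ) :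
    Cov φ (Zop ι G α γ l) (Zop (φ ι) (fun i j => φ (G i j)) (fun i => φ (α i))
      (fun i j => φ (γ i j)) l) := by
  unfold Zop
  refine Cov.add (Cov.add (Cov.sum _ fun j _ => ?_) ?_) (cov_cop _ _)
  · exact Cov.smul _ (cov_xop ι j)
  · exact Cov.smul _ Cov.one

end cov

section first
variable {R : Type*} [CommRing R]

lemma kap_mul (r : R) (c : ℕ → ℕ → R) (j k τ : ℕ) :
    kap (fun s t => r * c s t) j k τ = r * kap c j k τ := by
  unfold kap
  rw [← List.sum_map_mul_left]

lemma cop_mul (r : R) (c : ℕ → ℕ → R) (j : ℕ) : cop (fun s t => r * c s t) j = r • cop c j := by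
  refine LinearMap.ext fun v => ?_
  ext g
  change cop _ j v g = r * cop c j v g
  rw [cop_apply, cop_apply]
  split_ifs
  · rw [mul_neg, Finset.mul_sum]
    congr 1
    exact Finset.sum_congr rfl fun k _ => by rw [kap_mul]; ring
  · simp

/-- expansion of the family to first order -/
lemma yfam_first (ι : R) (ε : R) (hε : ε * ε = 0) (G : ℕ → ℕ → R) (α : ℕ → R) (γ : ℕ → ℕ → R)
    (l : Fin 10) :
    yfam ι (1 + ε • Matrix.of fun i j : Fin 10 => G i j) (fun i => ε * α i)
      (fun s t => ε * γ s t) l = xop ι l + ε • Zop ι G α γ l := by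
  refine LinearMap.ext fun v => ?_
  rw [yfam_apply]
  ext x
  simp only [yop, cop_mul, Zop, Pi.add_apply, Finset.sum_apply, Pi.smul_apply,
    LinearMap.add_apply, LinearMap.smul_apply, LinearMap.sum_apply, Module.End.one_apply,
    smul_eq_mul, Matrix.add_apply, Matrix.smul_apply, Matrix.of_apply]
  have h1 : ∀ j : Fin 10, ((1 : Matrix (Fin 10) (Fin 10) R) l j + ε * G l j) *
      (xop ι j v x + ε * cop γ j v x) =
      (1 : Matrix (Fin 10) (Fin 10) R) l j * (xop ι j v x + ε * cop γ j v x) +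
        ε * (G l j * xop ι j v x) := by
    intro j
    linear_combination (G l j * cop γ j v x) * hε
  simp only [h1]
  rw [Finset.sum_add_distrib, ← Finset.mul_sum]
  have h2 : ∑ j : Fin 10, (1 : Matrix (Fin 10) (Fin 10) R) l j *
      (xop ι j v x + ε * cop γ j v x) = xop ι l v x + ε * cop γ l v x := by
    rw [Finset.sum_eq_single l]
    · rw [Matrix.one_apply_eq, one_mul]
    · intro j _ hj
      rw [Matrix.one_apply_ne (Ne.symm hj), zero_mul]
    · simp
  rw [h2]
  ring

/-- the derivative of the quadric `s` -/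
noncomputable def wv (ι : R) (G : ℕ → ℕ → R) (α : ℕ → R) (γ : ℕ → ℕ → R) (s : ℕ) : Fin 66 → R :=
  ev ι (fun L => dprod (xop ι) (Zop ι G α γ) L e0) (qq s)

def chkQ2 : Bool :=
  (List.range 23).all fun s => (qq s).all fun t => Nat.beq t.1.length 2 && t.1.all fun n => Nat.blt n 10

theorem chkQ2_true : chkQ2 = true := by decide +kernel

lemma qq_spec {s : ℕ} (hs : s < 23) {t : List ℕ × ℕ} (ht : t ∈ qq s) :
    ∃ i j : Fin 10, t.1 = [(i : ℕ), (j : ℕ)] := by
  have h := chkQ2_true
  unfold chkQ2 at h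
  rw [List.all_eq_true] at h
  have h := h s (List.mem_range.2 hs)
  rw [List.all_eq_true] at h
  have h := h t ht
  rw [Bool.and_eq_true, List.all_eq_true] at h
  obtain ⟨h1, h2⟩ := h
  have h1 := Nat.eq_of_beq_eq_true h1
  obtain ⟨a, b, hab⟩ := List.length_eq_two.1 h1
  have ha : a < 10 := by simpa using h2 a (by rw [hab]; simp)
  have hb : b < 10 := by simpa using h2 b (by rw [hab]; simp)
  exact ⟨⟨a, ha⟩, ⟨b, hb⟩, hab⟩

lemma act_qpol (Y : Fin 10 → Module.End R (Fin 66 → R)) (hY : CommT Y) (ι : R) (s : ℕ) :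
    act Y hY (qpol ι s) e0 = ev ι (fun L => (L.map (exY Y)).prod e0) (qq s) := by
  have h1 := linear_ev ι (mono (xv R))
    ((LinearMap.applyₗ e0) ∘ₗ (act Y hY).toLinearMap) (qq s)
  have h2 : ((LinearMap.applyₗ e0) ∘ₗ (act Y hY).toLinearMap) (ev ι (mono (xv R)) (qq s))
    = act Y hY (qpol ι s) e0 := rfl
  rw [h2] at h1
  rw [h1]
  congr 1
  funext L
  change act Y hY (mono (xv R) L) e0 = _
  rw [act_mono]

lemma act_first {ι : R} (hι : ι ^ 2 = -1) (ε : R) (hε : ε * ε = 0) (G : ℕ → ℕ → R) (α : ℕ → R)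
    (γ : ℕ → ℕ → R) (s : ℕ) (hs : s < 23) :
    act _ (commT_yfam hι (1 + ε • Matrix.of fun i j : Fin 10 => G i j) (fun i => ε * α i)
      (fun s t => ε * γ s t)) (qpol ι s) e0 = ε • wv ι G α γ s := by
  rw [act_qpol]
  have h1 : ∀ t ∈ qq s, ((t.1.map (exY (yfam ι (1 + ε • Matrix.of fun i j : Fin 10 => G i j)
      (fun i => ε * α i) (fun s t => ε * γ s t)))).prod e0 : Fin 66 → R) =
      (t.1.map (xop ι)).prod e0 + ε • dprod (xop ι) (Zop ι G α γ) t.1 e0 := by
    intro t ht
    obtain ⟨i, j, hij⟩ := qq_spec hs ht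
    have h2 : t.1.map (exY (yfam ι (1 + ε • Matrix.of fun i j : Fin 10 => G i j)
      (fun i => ε * α i) (fun s t => ε * γ s t))) =
      t.1.map fun l => xop ι l + algebraMap R (Module.End R (Fin 66 → R)) ε * Zop ι G α γ l := by
      apply List.map_congr_left
      intro n hn
      have hn' : n < 10 := by
        rw [hij] at hn
        simp only [List.mem_cons, List.not_mem_nil, or_false] at hn
        rcases hn with rfl | rfl
        · exact i.2
        · exact j.2
      have h3 : exY (yfam ι (1 + ε • Matrix.of fun i j : Fin 10 => G i j)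
          (fun i => ε * α i) (fun s t => ε * γ s t)) n =
          yfam ι (1 + ε • Matrix.of fun i j : Fin 10 => G i j)
          (fun i => ε * α i) (fun s t => ε * γ s t) ⟨n, hn'⟩ := by
        simp [exY, hn']
      rw [h3, yfam_first ι ε hε, Algebra.smul_def]
    rw [h2, prod_add (xop ι) (Zop ι G α γ) _ (by rw [← map_mul, hε, map_zero])
      (fun a => Algebra.commutes ε a), ← Algebra.smul_def]
    rfl
  rw [ev_congr ι (m' := fun L => (L.map (xop ι)).prod e0 +
    ε • dprod (xop ι) (Zop ι G α γ) L e0) h1, ev_add, quad_apply hι s hs, zero_add, ev_smul]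
  rfl

end first

section coords
variable {R : Type*} [CommRing R] {ι : R}

lemma ex_ev {α : Type*} (m : α → Fin 66 → R) (L : List (α × ℕ)) (n : ℕ) :
    ex (ev ι m L) n = ev ι (fun a => ex (m a) n) L := by
  let f : (Fin 66 → R) →ₗ[R] R :=
    { toFun := fun v => ex v n, map_add' := fun v w => ex_add v w n,
      map_smul' := fun r v => ex_smul r v n }
  exact linear_ev ι m f L

lemma ev_code (L : List (ℕ × ℕ)) (par : ℕ → R) (k e : ℕ) :
    ev ι par ((z0 L).map fun u => (k, u.2 + e)) = ι ^ e * (par k * ev ι (ex (e0 : Fin 66 → R)) L) := by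
  rw [ev_e0]
  have h : ∀ u ∈ z0 L, u.1 = 0 := by
    intro u hu
    unfold z0 at hu
    rw [List.mem_filter] at hu
    exact Nat.eq_of_beq_eq_true hu.2
  generalize z0 L = M at h
  induction M with
  | nil => simp
  | cons u M ih =>
    rw [List.map_cons, ev_cons, ev_cons, ih fun v hv => h v (List.mem_cons_of_mem _ hv),
      h u (by simp), ex_e0, if_pos rfl]
    simp only [smul_eq_mul]
    ring

lemma ex_row2 (i j : ℕ) (n : ℕ) : ex (xop ι i (xop ι j e0)) n =
    ev ι (ex (e0 : Fin 66 → R)) (rowL [i, j] n) := by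
  rw [← ex_rowL]
  simp

lemma ex_row1 (i : ℕ) (n : ℕ) : ex (xop ι i e0) n =
    ev ι (ex (e0 : Fin 66 → R)) (rowL [i] n) := by
  rw [← ex_rowL]
  simp

lemma ev_dTerm (par : ℕ → R) (e i β : ℕ) (L : ℕ → List ℕ) (L0 : List ℕ) :
    ev ι par (dTerm e i β L L0) = ι ^ e *
      (∑ m : Fin 10, par (11 * i + m) * ev ι (ex (e0 : Fin 66 → R)) (rowL (L m) β) +
        par (11 * i + 10) * ev ι (ex (e0 : Fin 66 → R)) (rowL L0 β)) := by
  unfold dTerm
  rw [ev_append, ev_flatMap, ev_code, mul_add]
  congr 1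
  simp only [ev_code]
  have h := Finset.sum_range (n := 10) fun m : ℕ =>
    ι ^ e * (par (11 * i + m) * ev ι (ex (e0 : Fin 66 → R)) (rowL (L m) β))
  rw [Finset.mul_sum, ← h]
  rfl

lemma ex_Zop (G : ℕ → ℕ → R) (α : ℕ → R) (γ : ℕ → ℕ → R) (l : ℕ) (v : Fin 66 → R) (n : ℕ) :
    ex (Zop ι G α γ l v) n = ∑ m : Fin 10, G l m * ex (xop ι m v) n + α l * ex v n +
      ex (cop γ l v) n := by
  unfold Zop
  simp only [LinearMap.add_apply, ex_add, LinearMap.sum_apply, ex_sum, LinearMap.smul_apply,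
    ex_smul, Module.End.one_apply]

lemma xop_Zop_e0 (G : ℕ → ℕ → R) (α : ℕ → R) (γ : ℕ → ℕ → R) (i : Fin 10) (j : ℕ) (n : ℕ) :
    ex (xop ι i (Zop ι G α γ j e0)) n = ∑ m : Fin 10, G j m * ex (xop ι i (xop ι m e0)) n +
      α j * ex (xop ι i e0) n := by
  have h1 : xop ι i (cop γ j e0) = 0 := by
    have := xop_cop ι γ i j
    exact LinearMap.congr_fun this e0
  unfold Zop
  simp only [LinearMap.add_apply, map_add, LinearMap.sum_apply, map_sum, LinearMap.smul_apply,
    map_smul, Module.End.one_apply, h1, add_zero, ex_add, ex_sum, ex_smul]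

lemma dprod_two {A : Type*} [Ring A] (X Z : ℕ → A) (i j : ℕ) :
    dprod X Z [i, j] = Z i * X j + X i * Z j := by
  simp [dprod]

lemma ex_wv (par : ℕ → R) (γ : ℕ → ℕ → R) {s : ℕ} (hs : s < 23) {β : ℕ} (hβ : β < 43) :
    ex (wv ι (fun i m => par (11 * i + m)) (fun i => par (11 * i + 10)) γ s) β =
      ev ι par (dList s β) := by
  unfold wv dList
  rw [ex_ev, ev_flatMap]
  have key : ∀ t ∈ qq s, ι ^ t.2 • ex (dprod (xop ι)
      (Zop ι (fun i m => par (11 * i + m)) (fun i => par (11 * i + 10)) γ) t.1 e0) β =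
      ev ι par (dq β t) := by
    intro t ht
    obtain ⟨i, j, hij⟩ := qq_spec hs ht
    obtain ⟨L, e⟩ := t
    simp only at hij
    subst hij
    rw [dq_two, ev_append, ev_dTerm, ev_dTerm, dprod_two]
    have h1 : ((Zop ι (fun i m => par (11 * i + m)) (fun i => par (11 * i + 10)) γ i * xop ι j +
        xop ι i * Zop ι (fun i m => par (11 * i + m)) (fun i => par (11 * i + 10)) γ j) e0 :
          Fin 66 → R) =
        Zop ι (fun i m => par (11 * i + m)) (fun i => par (11 * i + 10)) γ i (xop ι j e0) +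
        xop ι i (Zop ι (fun i m => par (11 * i + m)) (fun i => par (11 * i + 10)) γ j e0) := rfl
    rw [h1, ex_add, ex_Zop, xop_Zop_e0, ex_cop_lt _ _ _ hβ, ← mul_add]
    simp only [← ex_row2, ← ex_row1, add_zero, smul_eq_mul]
  have h2 : ∀ L : List (List ℕ × ℕ), (∀ t ∈ L, ι ^ t.2 • ex (dprod (xop ι)
      (Zop ι (fun i m => par (11 * i + m)) (fun i => par (11 * i + 10)) γ) t.1 e0) β =
      ev ι par (dq β t)) → ev ι (fun L => ex (dprod (xop ι)
      (Zop ι (fun i m => par (11 * i + m)) (fun i => par (11 * i + 10)) γ) L e0) β) L =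
      (L.map fun t => ev ι par (dq β t)).sum := by
    intro L hL
    induction L with
    | nil => simp
    | cons t L ih =>
      rw [ev_cons, List.map_cons, List.sum_cons, ih fun t ht => hL t (List.mem_cons_of_mem _ ht),
        hL t (by simp)]
  exact h2 _ key

/-- the quadrics with a given leading monomial -/
def lq (t : List ℕ × ℕ) : List (ℕ × ℕ) :=
  match t.1 with
    | [i, j] => (sAB i j).map fun s' => (s', t.2)
    | _ => []

lemma lq_two (i j e : ℕ) : lq ([i, j], e) = (sAB i j).map fun s' => (s', e) := rfl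

def chkLead : Bool := (List.range 23).all fun s => decide ((qq s).flatMap lq = [(s, 0)])

theorem chkLead_true : chkLead = true := by decide +kernel

/-- the effect of the cubic deformation -/
noncomputable def cL (ι : R) (γ : ℕ → ℕ → R) (L : List ℕ) : Fin 66 → R :=
  match L with
    | [i, j] => cop γ i (xop ι j e0)
    | _ => 0

lemma cL_two (γ : ℕ → ℕ → R) (i j : ℕ) : cL ι γ [i, j] = cop γ i (xop ι j e0) := rfl

/-- total effect of the cubic deformation on a quadric -/
lemma cL_sum (γ : ℕ → ℕ → R) {s : ℕ} (hs : s < 23) (x : Fin 66) :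
    ev ι (cL ι γ) (qq s) x = - if 43 ≤ (x : ℕ) then γ s (x - 43) else 0 := by
  have h2 := chkLead_true
  unfold chkLead at h2
  rw [List.all_eq_true] at h2
  have h2 := h2 s (List.mem_range.2 hs)
  rw [decide_eq_true_eq] at h2
  rw [← ex_val (ev ι (cL ι γ) (qq s)), ex_ev]
  have h3 : ∀ t ∈ qq s, ι ^ t.2 • ex (cL ι γ t.1) x =
      - ev ι (fun s' => if 43 ≤ (x : ℕ) then γ s' (x - 43) else 0) (lq t) := by
    intro t ht
    obtain ⟨i, j, hij⟩ := qq_spec hs ht
    obtain ⟨L, e⟩ := t
    simp only at hij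
    subst hij
    rw [lq_two, cL_two, ex_val, cop_xop_apply, ex_e0, if_pos rfl, mul_one]
    split_ifs with hx
    · unfold kap
      induction sAB i j with
      | nil => simp
      | cons a L ih =>
        rw [List.map_cons, List.map_cons, ev_cons, List.sum_cons, neg_add, neg_add, smul_add, ih]
        simp
    · induction sAB i j with
      | nil => simp
      | cons a L ih =>
        rw [List.map_cons, ev_cons, neg_add, smul_zero, neg_zero, zero_add, ← ih]
        simp
  have h4 : ∀ L : List (List ℕ × ℕ), (∀ t ∈ L, ι ^ t.2 • ex (cL ι γ t.1) x =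
      - ev ι (fun s' => if 43 ≤ (x : ℕ) then γ s' (x - 43) else 0) (lq t)) →
      ev ι (fun L => ex (cL ι γ L) x) L =
      - ev ι (fun s' => if 43 ≤ (x : ℕ) then γ s' (x - 43) else 0) (L.flatMap lq) := by
    intro L hL
    induction L with
    | nil => simp
    | cons t L ih =>
      rw [ev_cons, List.flatMap_cons, ev_append, ih fun t ht => hL t (List.mem_cons_of_mem _ ht),
        hL t (by simp), neg_add]
  rw [h4 _ h3, h2]
  simp

/-- the part of the derivative coming from the cubic deformation -/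
lemma wv_gamma (G : ℕ → ℕ → R) (α : ℕ → R) (γ : ℕ → ℕ → R) {s : ℕ} (hs : s < 23) (x : Fin 66) :
    wv ι G α γ s x = wv ι G α (fun _ _ => 0) s x -
      if 43 ≤ (x : ℕ) then γ s (x - 43) else 0 := by
  have h1 : ∀ t ∈ qq s, (dprod (xop ι) (Zop ι G α γ) t.1 e0 : Fin 66 → R) =
      dprod (xop ι) (Zop ι G α (fun _ _ => 0)) t.1 e0 + cL ι γ t.1 := by
    intro t ht
    obtain ⟨i, j, hij⟩ := qq_spec hs ht
    rw [hij, dprod_two, dprod_two, cL_two]
    have hz : ∀ l, Zop ι G α γ l = Zop ι G α (fun _ _ => 0) l + cop γ l := by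
      intro l
      unfold Zop
      rw [cop_zero, add_zero]
    rw [hz, hz, add_mul, mul_add, xop_cop, add_zero]
    simp only [LinearMap.add_apply]
    have h2 : ((cop γ i * xop ι j) e0 : Fin 66 → R) = cop γ i (xop ι j e0) := rfl
    rw [h2]
    abel
  unfold wv
  rw [ev_congr ι (m' := fun L => dprod (xop ι) (Zop ι G α (fun _ _ => 0)) L e0 + cL ι γ L) h1,
    ev_add, Pi.add_apply, sub_eq_add_neg]
  congr 1
  exact cL_sum γ hs x

end coords

end Pool.Agent.Helper413.Gal
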