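import Mathlib
import Pool.Agent.Helper413.Gal.Tan

set_option autoImplicit false
set_option linter.unusedSectionVars false

open MvPolynomial Pool.Agent.Helper226

namespace Pool.Agent.Helper413.Gal

lemma map_qpol {R R' : Type*} [CommRing R] [CommRing R'] (φ : R →+* R') (ι : R) (s : ℕ) :
    map φ (qpol ι s) = qpol (φ ι) s := by
  unfold qpol
  have h := map_ev ι (mono (xv R)) φ ((map φ : MvPolynomial (Fin 10) R →+* _) :
    MvPolynomial (Fin 10) R →+ MvPolynomial (Fin 10) R') (fun r x => by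
      simp [smul_eq_C_mul]) (qq s)
  simp only [AddMonoidHom.coe_coe] at h
  rw [h]
  congr 1
  funext L
  unfold mono
  rw [map_list_prod, List.map_map]
  congr 2
  ext n : 1
  exact map_xv φ n

lemma wv_map {R R' : Type*} [CommRing R] [CommRing R'] (φ : R →+* R') (ι : R) (G : ℕ → ℕ → R)
    (α : ℕ → R) (γ : ℕ → ℕ → R) (s : ℕ) (x : Fin 66) :
    φ (wv ι G α γ s x) = wv (φ ι) (fun i j => φ (G i j)) (fun i => φ (α i))
      (fun i j => φ (γ i j)) s x := by
  let f : (Fin 66 → R) →+ (Fin 66 → R') :=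
    { toFun := fun v g => φ (v g), map_zero' := by ext; simp, map_add' := fun v w => by ext; simp }
  have h := map_ev ι (fun L => dprod (xop ι) (Zop ι G α γ) L e0) φ f (fun r x => by
    ext; simp [f]) (qq s)
  have h1 : (fun L => f (dprod (xop ι) (Zop ι G α γ) L e0)) = fun L =>
      dprod (xop (φ ι)) (Zop (φ ι) (fun i j => φ (G i j)) (fun i => φ (α i))
      (fun i j => φ (γ i j))) L e0 := by
    funext L
    have h2 := Cov.dprod (fun n => cov_xop (φ := φ) ι n)
      (fun n => cov_Zop (φ := φ) ι G α γ n) L e0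
    have h3 : (fun g => φ ((e0 : Fin 66 → R) g)) = e0 := by
      ext g
      unfold e0
      by_cases hg : g = 0
      · subst hg; simp
      · simp [hg]
    rw [h3] at h2
    exact h2
  rw [h1] at h
  exact congrFun h x

section dual
variable {K : Type} [Field K] [Algebra ℚ K]

/-- projection of dual numbers -/
noncomputable abbrev fstQ (K : Type) [Field K] [Algebra ℚ K] : DualNumber K →ₐ[ℚ] K :=
  TrivSqZeroExt.fstHom ℚ K K

/-- the constant dual number -/
noncomputable abbrev inD (ι : K) : DualNumber K := TrivSqZeroExt.inl ι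

lemma inD_sq {ι : K} (hι : ι ^ 2 = -1) : (inD ι) ^ 2 = -1 := by
  change (TrivSqZeroExt.inlHom K K ι) ^ 2 = -1
  rw [← map_pow, hι, map_neg, map_one]

lemma inr_mul' (a : K) (x : DualNumber K) :
    (TrivSqZeroExt.inr a : DualNumber K) * x = TrivSqZeroExt.inr (a * x.fst) := by
  apply TrivSqZeroExt.ext <;> simp [mul_comm]

variable {ι : K} (hι : ι ^ 2 = -1)

lemma fst_PP (c : Chart ℚ bQ (DualNumber K)) (hc : c.map (fstQ K) = bch hι)
    (f : MvPolynomial (Fin 10) (DualNumber K)) (j : Fin 66) :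
    (PP c f j).fst = act _ (commT_xop hι) (map (fstQ K).toRingHom f) e0 j := by
  rw [← PP_bch hι, ← hc, PP_map_map]
  rfl

lemma fst_PP_q (c : Chart ℚ bQ (DualNumber K)) (hc : c.map (fstQ K) = bch hι)
    (s : ℕ) (hs : s < 23) (j : Fin 66) : (PP c (qpol (inD ι) s) j).fst = 0 := by
  rw [fst_PP hι c hc, map_qpol]
  have h : (fstQ K).toRingHom (inD ι) = ι := rfl
  rw [h, act_qpol_base hι s hs]
  rfl

/-- the tangent vector of a first order deformation -/
noncomputable def uu (ι : K) (c : Chart ℚ bQ (DualNumber K)) (s : ℕ) : Fin 66 → K :=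
  fun j => (PP c (qpol (inD ι) s) j).snd

lemma PP_q (c : Chart ℚ bQ (DualNumber K)) (hc : c.map (fstQ K) = bch hι)
    (s : ℕ) (hs : s < 23) (j : Fin 66) :
    PP c (qpol (inD ι) s) j = TrivSqZeroExt.inr (uu ι c s j) := by
  apply TrivSqZeroExt.ext
  · rw [fst_PP_q hι c hc s hs]; simp
  · simp [uu]

lemma PP_mul_X (c : Chart ℚ bQ (DualNumber K)) (hc : c.map (fstQ K) = bch hι)
    (f : MvPolynomial (Fin 10) (DualNumber K)) (u : Fin 66 → K)
    (hu : ∀ j, PP c f j = TrivSqZeroExt.inr (u j)) (l : Fin 10) (i : Fin 66) :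
    PP c (f * X l) i = TrivSqZeroExt.inr (xop ι l u i) := by
  rw [PP_mul, Finset.sum_apply]
  have h1 : ∀ j : Fin 66, (PP c f j • PP c (map (algebraMap ℚ (DualNumber K)) (bQ j) * X l)) i =
      TrivSqZeroExt.inr (u j * xop ι l (Pi.single j 1) i) := by
    intro j
    rw [Pi.smul_apply, smul_eq_mul, hu, inr_mul', fst_PP hι c hc, map_bR, map_mul, map_bR, map_X,
      mul_comm (bR K j), map_mul, act_X]
    change TrivSqZeroExt.inr (u j * (xop ι l (act _ (commT_xop hι) (bR K j) e0)) i) = _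
    rw [act_bR_base hι]
  simp only [h1]
  rw [← TrivSqZeroExt.inr_sum]
  congr 1
  have h2 : u = ∑ j : Fin 66, u j • Pi.single j (1 : K) := by
    ext g
    simp [Pi.single_apply]
  conv_rhs => rw [h2, map_sum, Finset.sum_apply]
  refine Finset.sum_congr rfl fun j _ => ?_
  rw [map_smul]
  rfl

/-- the syzygies as lists of terms -/
def zz (z : ℕ) : List ((ℕ × ℕ) × ℕ) := (zL.getD z []).map fun t => ((t.1, t.2.1), t.2.2)

def sq1 (t : (ℕ × ℕ) × ℕ) : List (List ℕ × ℕ) :=
  (qq t.1.2).map fun u => (ins t.1.1 u.1, u.2 + t.2)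

def chkSyz : Bool := (List.range 33).all fun z => isZ 200 ((zz z).flatMap sq1)

theorem chkSyz_true : chkSyz = true := by decide +kernel

lemma zz_lt {z : ℕ} {t : (ℕ × ℕ) × ℕ} (ht : t ∈ zz z) : t.1.1 < 10 ∧ t.1.2 < 23 := by
  unfold zz at ht
  rw [List.mem_map] at ht
  obtain ⟨s, hs, rfl⟩ := ht
  have h := chkZ_true
  unfold chkZ at h
  rw [List.all_eq_true] at h
  by_cases hz : z < zL.length
  · have h := h (zL[z]'hz) (List.getElem_mem hz)
    rw [List.all_eq_true] at h
    rw [List.getD_eq_getElem _ _ hz] at hs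
    have h := h s hs
    rw [Bool.and_eq_true] at h
    exact ⟨by simpa using h.1, by simpa using h.2⟩
  · rw [List.getD_eq_default _ _ (not_lt.1 hz)] at hs
    simp at hs

lemma syz_poly {R : Type*} [CommRing R] {ι : R} (hι : ι ^ 2 = -1) {z : ℕ} (hz : z < 33) :
    ev ι (fun t : ℕ × ℕ => xv R t.1 * qpol ι t.2) (zz z) = 0 := by
  have h := chkSyz_true
  unfold chkSyz at h
  rw [List.all_eq_true] at h
  have h := isZ_spec (mono (xv R)) hι _ _ (h z (List.mem_range.2 hz))
  rw [ev_flatMap] at h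
  have h1 : ∀ t : (ℕ × ℕ) × ℕ, ev ι (mono (xv R)) (sq1 t) = ι ^ t.2 • (xv R t.1.1 * qpol ι t.1.2) := by
    intro t
    unfold sq1
    have h6 : ((qq t.1.2).map fun u => (ins t.1.1 u.1, u.2 + t.2)) =
        ((qq t.1.2).map fun u => (ins t.1.1 u.1, u.2)).map fun u => (u.1, u.2 + t.2) := by
      rw [List.map_map]
      rfl
    rw [h6, ev_shift, ev_map]
    congr 1
    simp only [mono_ins]
    have h8 := linear_ev ι (mono (xv R)) (LinearMap.mulLeft R (xv R t.1.1)) (qq t.1.2)
    simp only [LinearMap.mulLeft_apply] at h8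
    rw [← h8]
    rfl
  simp only [h1] at h
  exact h

include hι in
lemma syz_eq (c : Chart ℚ bQ (DualNumber K)) (hc : c.map (fstQ K) = bch hι) {z : ℕ} (hz : z < 33) :
    ev ι (fun t : ℕ × ℕ => xop ι t.1 (uu ι c t.2)) (zz z) = 0 := by
  have h1 := congrArg (PP c) (syz_poly (inD_sq hι) hz)
  rw [map_zero, linear_ev] at h1
  have h2 : ∀ t ∈ zz z, PP c (xv (DualNumber K) t.1.1 * qpol (inD ι) t.1.2) =
      fun i => TrivSqZeroExt.inr (xop ι t.1.1 (uu ι c t.1.2) i) := by
    intro t ht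
    obtain ⟨ht1, ht2⟩ := zz_lt ht
    ext1 i
    have h3 : xv (DualNumber K) t.1.1 = X (⟨t.1.1, ht1⟩ : Fin 10) := by
      unfold xv
      rw [dif_pos ht1]
    rw [h3, mul_comm, PP_mul_X hι c hc _ _ (PP_q hι c hc t.1.2 ht2)]
  rw [ev_congr (inD ι) (m' := fun t : ℕ × ℕ => fun i =>
    (TrivSqZeroExt.inr (xop ι t.1 (uu ι c t.2) i) : DualNumber K)) h2] at h1
  let f : (Fin 66 → K) →+ (Fin 66 → DualNumber K) :=
    { toFun := fun v g => TrivSqZeroExt.inr (v g)
      map_zero' := by funext g; exact TrivSqZeroExt.inr_zero K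
      map_add' := fun v w => by ext <;> simp }
  have h4 := map_ev ι (fun t : ℕ × ℕ => xop ι t.1 (uu ι c t.2))
    (TrivSqZeroExt.inlHom K K : K →+* DualNumber K) f (fun r x => by
      ext g
      · simp [f]
      · simp [f, mul_comm]) (zz z)
  have h5 : f (ev ι (fun t : ℕ × ℕ => xop ι t.1 (uu ι c t.2)) (zz z)) = 0 := by
    rw [h4]
    exact h1
  ext g
  have h6 := congrFun h5 g
  have h7 := congrArg TrivSqZeroExt.snd h6
  simpa [f] using h7

include hι in
/-- a first order deformation is determined by its values on the quadrics -/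
lemma chart_eq_of_uu (c c' : Chart ℚ bQ (DualNumber K)) (hc : c.map (fstQ K) = bch hι)
    (hc' : c'.map (fstQ K) = bch hι) (h : ∀ s < 23, uu ι c s = uu ι c' s) : c = c' := by
  apply PP_injective
  refine LinearMap.ext fun f => ?_
  let J : Ideal (MvPolynomial (Fin 10) (DualNumber K)) :=
    { carrier := {f | ∀ g, PP c (g * f) = PP c' (g * f)}
      add_mem' := fun {a b} ha hb g => by rw [mul_add, map_add, map_add, ha, hb]
      zero_mem' := fun g => by simp
      smul_mem' := fun r f hf g => by rw [smul_eq_mul, ← mul_assoc]; exact hf _ }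
  have hJ : ∀ s < 23, qpol (inD ι) s ∈ J := by
    intro s hs g
    rw [mul_comm, PP_mul, PP_mul]
    refine Finset.sum_congr rfl fun j _ => ?_
    rw [PP_q hι c hc s hs, PP_q hι c' hc' s hs, h s hs]
    ext1 i
    rw [Pi.smul_apply, Pi.smul_apply, smul_eq_mul, smul_eq_mul, inr_mul', inr_mul',
      fst_PP hι c hc, fst_PP hι c' hc']
  have h1 := sub_mem_of_quadrics (inD_sq hι) J hJ f
  have h2 := h1 1
  rw [one_mul, map_sub, map_sub, map_sum, map_sum] at h2
  simp only [map_smul, PP_bR] at h2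
  exact sub_left_injective h2

end dual

end Pool.Agent.Helper413.Gal
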