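import Mathlib
import Pool.Agent.Helper413.Gal.Tan2

set_option autoImplicit false
set_option linter.unusedSectionVars false

open MvPolynomial Pool.Agent.Helper226

namespace Pool.Agent.Helper413.Gal

section famD
variable {K : Type} [Field K] [Algebra ℚ K] {ι : K} (hι : ι ^ 2 = -1)
  (G : ℕ → ℕ → K) (α : ℕ → K) (γ : ℕ → ℕ → K)

lemma eps_sq : (DualNumber.eps : DualNumber K) * DualNumber.eps = 0 := DualNumber.eps_mul_eps

lemma fst_eps_mul (x : DualNumber K) : (DualNumber.eps * x : DualNumber K).fst = 0 := by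
  simp

lemma snd_eps_mul (x : DualNumber K) : (DualNumber.eps * x : DualNumber K).snd = x.fst := by
  simp

/-- parameters over the dual numbers -/
noncomputable def gD : Matrix (Fin 10) (Fin 10) (DualNumber K) :=
  1 + (DualNumber.eps : DualNumber K) • Matrix.of fun i j : Fin 10 => inD (G i j)

noncomputable def aD (i : Fin 10) : DualNumber K := DualNumber.eps * inD (α i)

noncomputable def cD (s t : ℕ) : DualNumber K := DualNumber.eps * inD (γ s t)

lemma fst_gD (i j : Fin 10) : (gD G i j).fst = (1 : Matrix (Fin 10) (Fin 10) K) i j := by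
  unfold gD
  rw [Matrix.add_apply, Matrix.smul_apply, smul_eq_mul, TrivSqZeroExt.fst_add, fst_eps_mul,
    add_zero]
  by_cases h : i = j
  · subst h; simp
  · rw [Matrix.one_apply_ne h, Matrix.one_apply_ne h]
    rfl

lemma fst_aD (i : Fin 10) : (aD α i).fst = 0 := fst_eps_mul _
lemma fst_cD (i j : ℕ) : (cD γ i j).fst = 0 := fst_eps_mul _

lemma cov_yfamD (i : Fin 10) (v : Fin 66 → DualNumber K) :
    (fun g => (fstQ K).toRingHom (yfam (inD ι) (gD G) (aD α) (cD γ) i v g)) =
      xop ι i (fun g => (fstQ K).toRingHom (v g)) := by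
  rw [map_yfam]
  have h1 : (gD G).map (fstQ K).toRingHom = 1 := by
    ext i j
    exact fst_gD G i j
  have h2 : (fun i => (fstQ K).toRingHom (aD α i)) = 0 := by
    ext i
    exact fst_aD α i
  have h3 : (fun s t => (fstQ K).toRingHom (cD γ s t)) = fun _ _ => 0 := by
    ext i j
    exact fst_cD γ i j
  rw [h1, h2, h3, yfam_base]
  rfl

lemma NN_D : (NN _ (commT_yfam (inD_sq hι) (gD G) (aD α) (cD γ))).map (fstQ K).toRingHom = 1 := by
  rw [← NN_base hι]
  exact (NN_map (fstQ K).toRingHom _ _ _ (commT_xop hι) (cov_yfamD G α γ)).symm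

lemma unit_D : IsUnit (NN _ (commT_yfam (inD_sq hι) (gD G) (aD α) (cD γ))).det := by
  rw [TrivSqZeroExt.isUnit_iff_isUnit_fst]
  have h := RingHom.map_det (fstQ K).toRingHom (NN _ (commT_yfam (inD_sq hι) (gD G) (aD α) (cD γ)))
  rw [RingHom.mapMatrix_apply, NN_D hι, Matrix.det_one] at h
  have h2 : (NN _ (commT_yfam (inD_sq hι) (gD G) (aD α) (cD γ))).det.fst = 1 := h
  rw [h2]
  exact isUnit_one

/-- the family over the dual numbers -/
noncomputable def fchD : Chart ℚ bQ (DualNumber K) :=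
  fch (inD_sq hι) (gD G) (aD α) (cD γ) (unit_D hι G α γ)

lemma fchD_map : (fchD hι G α γ).map (fstQ K) = bch hι := by
  unfold fchD
  rw [fch_map (inD_sq hι) hι (fstQ K) rfl (gD G) (aD α) (cD γ) (unit_D hι G α γ) 1 0
    (fun _ _ => 0) (by
      have h : ∀ h, NN _ (commT_yfam hι 1 0 (fun _ _ => 0)) = NN _ h := fun _ => rfl
      have h2 : NN _ (commT_yfam hι 1 0 (fun _ _ => 0)) = 1 := by
        rw [← NN_base hι]
        congr 1
        exact yfam_base ι
      rw [h2]
      simp) (fst_gD G) (fst_aD α) (fst_cD γ)]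
  exact fch_base hι _

lemma uu_fchD {s : ℕ} (hs : s < 23) : uu ι (fchD hι G α γ) s = wv ι G α γ s := by
  ext x
  unfold uu fchD fch
  have hgd : act _ (commT_yfam (inD_sq hι) (gD G) (aD α) (cD γ)) (qpol (inD ι) s) e0 =
      (DualNumber.eps : DualNumber K) •
        wv (inD ι) (fun i j => inD (G i j)) (fun i => inD (α i)) (fun i j => inD (γ i j)) s :=
    act_first (inD_sq hι) (DualNumber.eps : DualNumber K) eps_sq (fun i j => inD (G i j))
      (fun i => inD (α i)) (fun i j => inD (γ i j)) s hs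
  rw [PP_chartOf, hgd, Matrix.mulVec_smul, Pi.smul_apply, smul_eq_mul, snd_eps_mul]
  set N := NN _ (commT_yfam (inD_sq hι) (gD G) (aD α) (cD γ)) with hN
  have h1 : (N⁻¹).map (fstQ K).toRingHom = 1 := by
    have h2 := congrArg (fun M => M.map (fstQ K).toRingHom)
      (Matrix.mul_nonsing_inv N (unit_D hι G α γ))
    simp only [Matrix.map_mul] at h2
    rw [NN_D hι, one_mul] at h2
    rw [h2]
    exact Matrix.map_one _ (map_zero _) (map_one _)
  have h2 : ∀ j, (N⁻¹ x j).fst = (1 : Matrix (Fin 66) (Fin 66) K) x j := by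
    intro j
    exact congrFun (congrFun h1 x) j
  have h3 : ∀ j, (wv (inD ι) (fun i j => inD (G i j)) (fun i => inD (α i))
      (fun i j => inD (γ i j)) s j).fst = wv ι G α γ s j := by
    intro j
    exact wv_map (fstQ K).toRingHom (inD ι) (fun i j => inD (G i j)) (fun i => inD (α i))
      (fun i j => inD (γ i j)) s j
  have h4 : ∀ v : Fin 66 → DualNumber K, (N⁻¹.mulVec v x).fst = (v x).fst := by
    intro v
    simp only [Matrix.mulVec, dotProduct]
    rw [TrivSqZeroExt.fst_sum]
    simp only [TrivSqZeroExt.fst_mul, h2]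
    rw [Finset.sum_eq_single x]
    · simp
    · intro j _ hj
      rw [Matrix.one_apply_ne (Ne.symm hj), zero_mul]
    · simp
  rw [h4, h3]

end famD

section surj
variable {K : Type} [Field K] [Algebra ℚ K] {ι : K} (hι : ι ^ 2 = -1)

lemma ev_rowZ (u : ℕ → Fin 66 → K) (z : ℕ) {g : ℕ} (hg : g < 66) :
    ev ι (fun n => ex (u (n / 43)) (n % 43)) (rowZ z g) =
      ex (ev ι (fun t : ℕ × ℕ => xop ι t.1 (u t.2)) (zz z)) g := by
  rw [ex_ev]
  have h0 : ∀ t ∈ zL.getD z [], t.1 < 10 ∧ t.2.1 < 23 := by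
    intro t ht
    exact zz_lt (z := z) (t := ((t.1, t.2.1), t.2.2)) (by
      unfold zz
      rw [List.mem_map]
      exact ⟨t, ht, rfl⟩)
  unfold rowZ zz
  rw [ev_flatMap]
  have key : ∀ L : List (ℕ × ℕ × ℕ), (∀ t ∈ L, t.1 < 10 ∧ t.2.1 < 23) →
      (L.map fun t => ev ι (fun n => ex (u (n / 43)) (n % 43))
        ((T t.1 g).map fun s => (43 * t.2.1 + s.1, s.2 + t.2.2))).sum =
      ev ι (fun t : ℕ × ℕ => ex (xop ι t.1 (u t.2)) g)
        (L.map fun t => ((t.1, t.2.1), t.2.2)) := by
    intro L hL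
    induction L with
    | nil => simp
    | cons t L ih =>
      rw [List.map_cons, List.sum_cons, List.map_cons, ev_cons,
        ih fun t ht => hL t (List.mem_cons_of_mem _ ht)]
      congr 1
      have h6 : ((T t.1 g).map fun s => (43 * t.2.1 + s.1, s.2 + t.2.2)) =
          ((T t.1 g).map fun s => (43 * t.2.1 + s.1, s.2)).map fun u => (u.1, u.2 + t.2.2) := by
        rw [List.map_map]
        rfl
      rw [h6, ev_shift, ev_map, ex_xop]
      congr 1
      apply ev_congr
      intro s hs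
      have h7 := T_lt43 (hL t (by simp)).1 hg hs
      have h8 : (43 * t.2.1 + s.1) / 43 = t.2.1 := by omega
      have h9 : (43 * t.2.1 + s.1) % 43 = s.1 := by omega
      rw [h8, h9]
  exact key _ h0

include hι in
/-- every first order deformation comes from the family -/
theorem tan_surj (c : Chart ℚ bQ (DualNumber K)) (hc : c.map (fstQ K) = bch hι) :
    ∃ (G : ℕ → ℕ → K) (α : ℕ → K) (γ : ℕ → ℕ → K), c = fchD hι G α γ := by
  have : CharZero K := algebraRat.charZero K
  let u := uu ι c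
  obtain ⟨par, hpar⟩ := par_surj hι fun i => ex (u (jCode i / 43)) (jCode i % 43)
  let G : ℕ → ℕ → K := fun i m => par (11 * i + m)
  let α : ℕ → K := fun i => par (11 * i + 10)
  let u0 : ℕ → Fin 66 → K := fun s => uu ι (fchD hι G α (fun _ _ => 0)) s
  have hu0 : ∀ s < 23, u0 s = wv ι G α (fun _ _ => 0) s := fun s hs => uu_fchD hι _ _ _ hs
  have hsub : ∀ a n, ex (u a - u0 a) n = ex (u a) n - ex (u0 a) n := by
    intro a n
    rw [sub_eq_add_neg, sub_eq_add_neg, ex_add]
    congr 1
    have := ex_smul (-1) (u0 a) n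
    simpa using this
  have hker : ∀ n < 989, ex ((fun s => u s - u0 s) (n / 43)) (n % 43) = 0 := by
    intro n hn
    refine main_kernel hι (fun n => ex ((fun s => u s - u0 s) (n / 43)) (n % 43)) ?_ ?_ n hn
    · intro z g hz hg
      rw [ev_rowZ (fun s => u s - u0 s) z hg]
      have h1 := syz_eq hι c hc hz
      have h2 := syz_eq hι _ (fchD_map hι G α (fun _ _ => 0)) hz
      have h3 : ev ι (fun t : ℕ × ℕ => xop ι t.1 (u t.2 - u0 t.2)) (zz z) = 0 := by
        have h4 : (fun t : ℕ × ℕ => xop ι t.1 (u t.2 - u0 t.2)) =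
            fun t : ℕ × ℕ => xop ι t.1 (u t.2) + - xop ι t.1 (u0 t.2) := by
          funext t
          rw [map_sub, sub_eq_add_neg]
        rw [h4, ev_add, ev_neg]
        change ev ι (fun t : ℕ × ℕ => xop ι t.1 (uu ι c t.2)) (zz z) +
          - ev ι (fun t : ℕ × ℕ => xop ι t.1 (uu ι (fchD hι G α (fun _ _ => 0)) t.2)) (zz z) = 0
        rw [h1, h2, neg_zero, add_zero]
      rw [h3, ex_zero]
    · intro n hn hl
      obtain ⟨h1, h2⟩ := cod_lab hn
      have h3 : jCode (lab n - 880) = n := by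
        unfold jCode
        rw [Nat.add_sub_cancel' hl, h1]
      have h4 := hpar (lab n - 880) (by omega)
      rw [h3] at h4
      have h5 : n / 43 < 23 := by omega
      have h6 : n % 43 < 43 := Nat.mod_lt _ (by norm_num)
      change ex (u (n / 43) - u0 (n / 43)) (n % 43) = 0
      rw [hsub, ← h4, hu0 _ h5]
      rw [sub_eq_zero]
      exact (ex_wv par (fun _ _ => 0) h5 h6).symm
  refine ⟨G, α, fun s t => ex (u0 s) (43 + t) - ex (u s) (43 + t), ?_⟩
  apply chart_eq_of_uu hι _ _ hc (fchD_map hι _ _ _)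
  intro s hs
  rw [uu_fchD hι _ _ _ hs]
  ext x
  rw [wv_gamma G α _ hs, ← hu0 s hs]
  split_ifs with hx
  · have h1 : 43 + ((x : ℕ) - 43) = x := by omega
    rw [h1, ex_val, ex_val]
    change u s x = _
    ring
  · have h1 := hker (43 * s + x) (by omega)
    have h8 : (43 * s + (x : ℕ)) / 43 = s := by omega
    have h9 : (43 * s + (x : ℕ)) % 43 = x := by omega
    rw [h8, h9] at h1
    simp only at h1
    rw [hsub, ex_val, ex_val, sub_eq_zero] at h1
    rw [sub_zero]
    exact h1

end surj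

end Pool.Agent.Helper413.Gal
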