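import Mathlib
import Pool.Agent.Helper413.Gal.Tan3
import Pool.Agent.Helper413.Gal.Loc
import Pool.Agent.Helper226.LociPts

set_option autoImplicit false
set_option linter.unusedSectionVars false

open MvPolynomial Pool.Agent.Helper226
open scoped TensorProduct

namespace Pool.Agent.Helper413.Gal

section ext
variable {K : Type} [Field K] [Algebra ℚ K]

/-- the ring of the chart over `K` -/
abbrev TT (K : Type) [Field K] [Algebra ℚ K] : Type := K ⊗[ℚ] AR ℚ bQ

instance noeth_TT : IsNoetherianRing (TT K) := by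
  have h1 := univ_finiteType (k := ℚ) (Idx.single bQ)
  have : Algebra.FiniteType K (K ⊗[ℚ] AR ℚ bQ) := inferInstance
  exact Algebra.FiniteType.isNoetherianRing K _

variable {R : Type} [CommRing R] [Algebra ℚ R] [Algebra K R] [IsScalarTower ℚ K R]
variable {R' : Type} [CommRing R'] [Algebra ℚ R'] [Algebra K R'] [IsScalarTower ℚ K R']

/-- the classifying map of a chart over a `K`-algebra -/
noncomputable def extc (K : Type) [Field K] [Algebra ℚ K] {R : Type} [CommRing R] [Algebra ℚ R]
    [Algebra K R] [IsScalarTower ℚ K R] (c : Chart ℚ bQ R) : TT K →ₐ[K] R :=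
  Algebra.TensorProduct.lift (Algebra.ofId K R) (clf c) (fun _ _ => Commute.all _ _)

/-- the chart datum of a homomorphism -/
noncomputable def chc (ψ : TT K →ₐ[K] R) : Chart ℚ bQ R :=
  (uc ℚ bQ).map ((ψ.restrictScalars ℚ).comp
    (Algebra.TensorProduct.includeRight : AR ℚ bQ →ₐ[ℚ] TT K))

lemma extc_include (c : Chart ℚ bQ R) (x : AR ℚ bQ) :
    extc K c (Algebra.TensorProduct.includeRight x) = clf c x := by
  simp [extc]

lemma chc_extc (c : Chart ℚ bQ R) : chc (extc K c) = c := by
  unfold chc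
  have : ((extc K c).restrictScalars ℚ).comp
    (Algebra.TensorProduct.includeRight : AR ℚ bQ →ₐ[ℚ] TT K) = clf c := by
    apply AlgHom.ext
    intro x
    exact extc_include c x
  rw [this, uc_map_clf]

lemma chc_injective {ψ ψ' : TT K →ₐ[K] R} (h : chc ψ = chc ψ') : ψ = ψ' := by
  have h1 := hom_ext_uc h
  apply Algebra.TensorProduct.ext
  · apply AlgHom.ext
    intro x
    simp only [AlgHom.comp_apply, Algebra.TensorProduct.includeLeft_apply]
    have h2 : (x ⊗ₜ[ℚ] (1 : AR ℚ bQ)) = algebraMap K (TT K) x := rfl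
    rw [h2, AlgHom.commutes, AlgHom.commutes]
  · exact h1

lemma extc_chc (ψ : TT K →ₐ[K] R) : extc K (chc ψ) = ψ :=
  chc_injective (chc_extc _)

lemma chc_comp (ψ : TT K →ₐ[K] R) (φ : R →ₐ[K] R') :
    chc (φ.comp ψ) = (chc ψ).map (φ.restrictScalars ℚ) := by
  unfold chc
  rw [Chart.map_map]
  rfl

lemma extc_map (c : Chart ℚ bQ R) (φ : R →ₐ[K] R') :
    extc K (c.map (φ.restrictScalars ℚ)) = φ.comp (extc K c) := by
  apply chc_injective
  rw [chc_comp, chc_extc, chc_extc]

end ext

section gen
variable {K : Type} [Field K] [Algebra ℚ K]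

/-- parameters of the family -/
abbrev Idx3 := (Fin 10 × Fin 10) ⊕ (Fin 10 ⊕ (ℕ × ℕ))

/-- the parameter ring -/
abbrev PK (K : Type) [Field K] := MvPolynomial Idx3 K

noncomputable def gP (K : Type) [Field K] : Matrix (Fin 10) (Fin 10) (PK K) :=
  Matrix.of fun i j => X (Sum.inl (i, j))
noncomputable def aP (K : Type) [Field K] (i : Fin 10) : PK K := X (Sum.inr (Sum.inl i))
noncomputable def cP (K : Type) [Field K] (s t : ℕ) : PK K := X (Sum.inr (Sum.inr (s, t)))

lemma iP_sq {ι : K} (hι : ι ^ 2 = -1) : (C ι : PK K) ^ 2 = -1 := by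
  rw [← C_pow, hι, C_neg, C_1]

/-- the denominator -/
noncomputable def dP {ι : K} (hι : ι ^ 2 = -1) : PK K :=
  (NN _ (commT_yfam (iP_sq hι) (gP K) (aP K) (cP K))).det * (gP K).det

variable {R : Type} [CommRing R] [Algebra K R]

/-- evaluation at given parameters -/
noncomputable def evP (K : Type) [Field K] {R : Type} [CommRing R] [Algebra K R]
    (g : Matrix (Fin 10) (Fin 10) R) (a : Fin 10 → R) (c : ℕ → ℕ → R) :
    PK K →ₐ[K] R :=
  aeval (Sum.elim (fun p : Fin 10 × Fin 10 => g p.1 p.2) (Sum.elim a fun p => c p.1 p.2))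

lemma evP_g (g : Matrix (Fin 10) (Fin 10) R) (a : Fin 10 → R) (c : ℕ → ℕ → R) (i j : Fin 10) :
    evP K g a c (gP K i j) = g i j := by
  simp [evP, gP]

lemma evP_a (g : Matrix (Fin 10) (Fin 10) R) (a : Fin 10 → R) (c : ℕ → ℕ → R) (i : Fin 10) :
    evP K g a c (aP K i) = a i := by
  simp [evP, aP]

lemma evP_c (g : Matrix (Fin 10) (Fin 10) R) (a : Fin 10 → R) (c : ℕ → ℕ → R) (s t : ℕ) :
    evP K g a c (cP K s t) = c s t := by
  simp [evP, cP]

lemma sq_alg {ι : K} (hι : ι ^ 2 = -1) : (algebraMap K R ι) ^ 2 = -1 := by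
  rw [← map_pow, hι, map_neg, map_one]

lemma evP_dP {ι : K} (hι : ι ^ 2 = -1) (g : Matrix (Fin 10) (Fin 10) R) (a : Fin 10 → R)
    (c : ℕ → ℕ → R) : evP K g a c (dP hι) =
      (NN _ (commT_yfam (sq_alg (R := R) hι) g a c)).det * g.det := by
  unfold dP
  rw [map_mul]
  have hg : (gP K).map (evP K g a c) = g := by
    ext i j
    exact evP_g g a c i j
  congr 1
  · have h1 := NN_map (evP K g a c).toRingHom _ (commT_yfam (iP_sq hι) (gP K) (aP K) (cP K)) _
      (commT_yfam (sq_alg (R := R) hι) g a c) (by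
        intro i v
        rw [map_yfam]
        have h2 : (evP K g a c).toRingHom (C ι) = algebraMap K R ι := (evP K g a c).commutes ι
        have h3 : (gP K).map (evP K g a c).toRingHom = g := hg
        have h4 : (fun i => (evP K g a c).toRingHom (aP K i)) = a := by
          funext i
          exact evP_a g a c i
        have h5 : (fun s t => (evP K g a c).toRingHom (cP K s t)) = c := by
          funext s t
          exact evP_c g a c s t
        rw [h2, h3, h4, h5])
    rw [h1]
    exact RingHom.map_det (evP K g a c).toRingHom _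
  · have h1 := RingHom.map_det (evP K g a c).toRingHom (gP K)
    rw [RingHom.mapMatrix_apply] at h1
    have h3 : (gP K).map (evP K g a c).toRingHom = g := hg
    rw [h3] at h1
    exact h1

lemma evP_base {ι : K} (hι : ι ^ 2 = -1) : evP K (R := K) 1 0 (fun _ _ => 0) (dP hι) = 1 := by
  rw [evP_dP, Matrix.det_one, mul_one]
  have h : NN _ (commT_yfam (sq_alg (R := K) hι) 1 0 (fun _ _ => 0)) = 1 := by
    rw [← NN_base (sq_alg (R := K) hι)]
    congr 1
    exact yfam_base _
  rw [h, Matrix.det_one]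

lemma dP_ne_zero {ι : K} (hι : ι ^ 2 = -1) : dP hι ≠ 0 := by
  intro h
  have h1 := evP_base hι
  rw [h, map_zero] at h1
  exact zero_ne_one h1

/-- the ring of the generic member of the family -/
abbrev WK {ι : K} (hι : ι ^ 2 = -1) : Type := Localization.Away (dP hι)

instance domain_WK {ι : K} (hι : ι ^ 2 = -1) : IsDomain (WK hι) :=
  IsLocalization.isDomain_localization
    (powers_le_nonZeroDivisors_of_noZeroDivisors (dP_ne_zero hι))

/-- evaluation of `WK` -/
noncomputable def evW {ι : K} (hι : ι ^ 2 = -1) (g : Matrix (Fin 10) (Fin 10) R) (a : Fin 10 → R)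
    (c : ℕ → ℕ → R) (h : IsUnit (evP K g a c (dP hι))) : WK hι →ₐ[K] R :=
  IsLocalization.liftAlgHom (M := Submonoid.powers (dP hι)) (f := evP K g a c) (by
    rintro ⟨_, n, rfl⟩
    simp only [map_pow]
    exact h.pow n)

lemma evW_algebraMap {ι : K} (hι : ι ^ 2 = -1) (g : Matrix (Fin 10) (Fin 10) R) (a : Fin 10 → R)
    (c : ℕ → ℕ → R) (h : IsUnit (evP K g a c (dP hι))) (x : PK K) :
    evW hι g a c h (algebraMap (PK K) (WK hι) x) = evP K g a c x := by
  simp [evW]

noncomputable def gW {ι : K} (hι : ι ^ 2 = -1) : Matrix (Fin 10) (Fin 10) (WK hι) :=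
  (gP K).map (algebraMap (PK K) (WK hι))
noncomputable def aW {ι : K} (hι : ι ^ 2 = -1) (i : Fin 10) : WK hι :=
  algebraMap (PK K) (WK hι) (aP K i)
noncomputable def cW {ι : K} (hι : ι ^ 2 = -1) (s t : ℕ) : WK hι :=
  algebraMap (PK K) (WK hι) (cP K s t)

lemma evP_W {ι : K} (hι : ι ^ 2 = -1) (x : PK K) :
    evP K (gW hι) (aW hι) (cW hι) x = algebraMap (PK K) (WK hι) x := by
  have : evP K (gW hι) (aW hι) (cW hι) = IsScalarTower.toAlgHom K (PK K) (WK hι) := by
    apply MvPolynomial.algHom_ext
    intro i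
    rcases i with ⟨i, j⟩ | i | ⟨s, t⟩
    · simp [evP, gW, gP]
    · simp [evP, aW, aP]
    · simp [evP, cW, cP]
  rw [this]
  rfl

lemma isUnit_W {ι : K} (hι : ι ^ 2 = -1) :
    IsUnit ((NN _ (commT_yfam (sq_alg (R := WK hι) hι) (gW hι) (aW hι) (cW hι))).det *
      (gW hι).det) := by
  rw [← evP_dP hι, evP_W]
  exact IsLocalization.Away.algebraMap_isUnit (dP hι)

lemma isUnit_NW {ι : K} (hι : ι ^ 2 = -1) :
    IsUnit (NN _ (commT_yfam (sq_alg (R := WK hι) hι) (gW hι) (aW hι) (cW hι))).det :=
  isUnit_of_mul_isUnit_left (isUnit_W hι)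

lemma isUnit_gW {ι : K} (hι : ι ^ 2 = -1) : IsUnit (gW hι).det :=
  isUnit_of_mul_isUnit_right (isUnit_W hι)

/-- the generic chart -/
noncomputable def chW {ι : K} (hι : ι ^ 2 = -1) : Chart ℚ bQ (WK hι) :=
  fch (sq_alg (R := WK hι) hι) (gW hι) (aW hι) (cW hι) (isUnit_NW hι)

/-- the prime ideal of the component -/
noncomputable def pfr {ι : K} (hι : ι ^ 2 = -1) : Ideal (TT K) := RingHom.ker (extc K (chW hι))

instance pfr_prime {ι : K} (hι : ι ^ 2 = -1) : (pfr hι).IsPrime := RingHom.ker_isPrime _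

variable [Algebra ℚ R] [IsScalarTower ℚ K R]

lemma chW_map {ι : K} (hι : ι ^ 2 = -1) (g : Matrix (Fin 10) (Fin 10) R) (a : Fin 10 → R)
    (c : ℕ → ℕ → R) (h : IsUnit (evP K g a c (dP hι))) (hN) :
    (chW hι).map ((evW hι g a c h).restrictScalars ℚ) = fch (sq_alg (R := R) hι) g a c hN := by
  unfold chW
  apply fch_map
  · exact (evW hι g a c h).commutes ι
  · intro i j
    exact (evW_algebraMap hι g a c h _).trans (evP_g g a c i j)
  · intro i
    exact (evW_algebraMap hι g a c h _).trans (evP_a g a c i)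
  · intro i j
    exact (evW_algebraMap hι g a c h _).trans (evP_c g a c i j)

/-- the base point -/
noncomputable def pib {ι : K} (hι : ι ^ 2 = -1) : TT K →ₐ[K] K := extc K (bch hι)

end gen

section arcs
variable {K : Type} [Field K] [Algebra ℚ K] {ι : K} (hι : ι ^ 2 = -1)

/-- power series modulo the square of the variable -/
noncomputable def rho (K : Type) [Field K] : PowerSeries K →ₐ[K] DualNumber K where
  toFun f := TrivSqZeroExt.inl (PowerSeries.coeff 0 f) + TrivSqZeroExt.inr (PowerSeries.coeff 1 f)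
  map_one' := by
    simp [PowerSeries.coeff_one]
  map_mul' f g := by
    have h1 : PowerSeries.coeff 1 (f * g) = PowerSeries.coeff 0 f * PowerSeries.coeff 1 g +
        PowerSeries.coeff 1 f * PowerSeries.coeff 0 g := by
      rw [PowerSeries.coeff_mul, Finset.Nat.sum_antidiagonal_eq_sum_range_succ_mk,
        Finset.sum_range_succ, Finset.sum_range_one]
    have h0 : PowerSeries.coeff 0 (f * g) = PowerSeries.coeff 0 f * PowerSeries.coeff 0 g := by
      simp
    rw [h1, h0]
    apply TrivSqZeroExt.ext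
    · simp
    · simp [mul_comm]
  map_zero' := by simp
  map_add' f g := by
    apply TrivSqZeroExt.ext <;> simp
  commutes' r := by
    apply TrivSqZeroExt.ext
    · simp [TrivSqZeroExt.algebraMap_eq_inl]
    · simp [TrivSqZeroExt.algebraMap_eq_inl, PowerSeries.coeff_C]

lemma rho_C (x : K) : rho K (PowerSeries.C x) = inD x := (rho K).commutes x

lemma rho_X : rho K PowerSeries.X = DualNumber.eps := by
  apply TrivSqZeroExt.ext
  · simp [rho]
  · simp [rho]

variable (G : ℕ → ℕ → K) (α : ℕ → K) (γ : ℕ → ℕ → K)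

/-- parameters of an arc -/
noncomputable def gS : Matrix (Fin 10) (Fin 10) (PowerSeries K) :=
  1 + (PowerSeries.X : PowerSeries K) • Matrix.of fun i j : Fin 10 => PowerSeries.C (G i j)
noncomputable def aS (i : Fin 10) : PowerSeries K := PowerSeries.X * PowerSeries.C (α i)
noncomputable def cS (s t : ℕ) : PowerSeries K := PowerSeries.X * PowerSeries.C (γ s t)

lemma rho_gS (i j : Fin 10) : rho K (gS G i j) = gD G i j := by
  unfold gS gD
  rw [Matrix.add_apply, Matrix.smul_apply, Matrix.add_apply, Matrix.smul_apply, map_add,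
    smul_eq_mul, smul_eq_mul, map_mul, rho_X, Matrix.of_apply, Matrix.of_apply, rho_C]
  congr 1
  by_cases h : i = j
  · subst h; rw [Matrix.one_apply_eq, Matrix.one_apply_eq, map_one]
  · rw [Matrix.one_apply_ne h, Matrix.one_apply_ne h, map_zero]

lemma rho_aS (i : Fin 10) : rho K (aS α i) = aD α i := by
  unfold aS aD
  rw [map_mul, rho_X, rho_C]

lemma rho_cS (s t : ℕ) : rho K (cS γ s t) = cD γ s t := by
  unfold cS cD
  rw [map_mul, rho_X, rho_C]

lemma unit_arc : IsUnit (evP K (gS G) (aS α) (cS γ) (dP hι)) := by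
  rw [PowerSeries.isUnit_iff_constantCoeff]
  have h1 : (PowerSeries.constantCoeff (R := K)).comp (evP K (gS G) (aS α) (cS γ)).toRingHom =
      (evP K (R := K) 1 0 (fun _ _ => 0)).toRingHom := by
    apply MvPolynomial.ringHom_ext
    · intro r
      have h2 : (evP K (gS G) (aS α) (cS γ)) (C r) = PowerSeries.C r :=
        (evP K (gS G) (aS α) (cS γ)).commutes r
      have h3 : (evP K (R := K) 1 0 (fun _ _ => 0)) (C r) = r :=
        (evP K (R := K) 1 0 (fun _ _ => 0)).commutes r
      change PowerSeries.constantCoeff ((evP K (gS G) (aS α) (cS γ)) (C r)) =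
        (evP K (R := K) 1 0 (fun _ _ => 0)) (C r)
      rw [h2, h3]
      simp
    · intro i
      change PowerSeries.constantCoeff ((evP K (gS G) (aS α) (cS γ)) (X i)) =
        (evP K (R := K) 1 0 (fun _ _ => 0)) (X i)
      rcases i with ⟨i, j⟩ | i | ⟨s, t⟩
      · simp only [evP, aeval_X, Sum.elim_inl, gS, Matrix.add_apply, Matrix.smul_apply,
          Matrix.of_apply, smul_eq_mul, map_add, map_mul, PowerSeries.constantCoeff_X, zero_mul,
          add_zero]
        by_cases h : i = j
        · subst h; simp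
        · rw [Matrix.one_apply_ne h, Matrix.one_apply_ne h, map_zero]
      · simp [evP, aS]
      · simp [evP, cS]
  have h2 := DFunLike.congr_fun h1 (dP hι)
  have h3 : PowerSeries.constantCoeff (evP K (gS G) (aS α) (cS γ) (dP hι)) = 1 := by
    refine Eq.trans h2 (evP_base hι)
  rw [h3]
  exact isUnit_one

include hι in
/-- the component is locally irreducible and generically reduced at the base point -/
theorem loc_main (f : TT K) (hf : f ∈ pfr hι) : ∃ u, pib hι u ≠ 0 ∧ u * f = 0 := by
  have : CharZero K := algebraRat.charZero K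
  refine loc_lemma (pib hι) (pfr hι) ?_ f hf
  intro φ hφ
  -- the chart over the dual numbers
  have h1 : (chc φ).map (fstQ K) = bch hι := by
    have h2 : (TrivSqZeroExt.fstHom K K K).comp φ = pib hι := by
      apply AlgHom.ext
      intro x
      exact hφ x
    have h3 := chc_comp φ (TrivSqZeroExt.fstHom K K K)
    rw [h2] at h3
    unfold pib at h3
    rw [chc_extc] at h3
    rw [h3]
    rfl
  obtain ⟨G, α, γ, hG⟩ := tan_surj hι (chc φ) h1
  refine ⟨(evW hι (gS G) (aS α) (cS γ) (unit_arc hι G α γ)).comp (extc K (chW hι)), ?_, ?_⟩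
  · intro f hf
    have : extc K (chW hι) f = 0 := hf
    rw [AlgHom.comp_apply, this, map_zero]
  · have hr : (rho K).comp ((evW hι (gS G) (aS α) (cS γ) (unit_arc hι G α γ)).comp
        (extc K (chW hι))) = φ := by
      apply chc_injective
      rw [chc_comp, chc_comp, chc_extc, hG]
      have hN : IsUnit (NN _ (commT_yfam (sq_alg (R := PowerSeries K) hι) (gS G) (aS α)
          (cS γ))).det := by
        have h := unit_arc hι G α γ
        rw [evP_dP] at h
        exact isUnit_of_mul_isUnit_left h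
      rw [chW_map hι (gS G) (aS α) (cS γ) _ hN]
      unfold fchD
      apply fch_map
      · exact (rho K).commutes ι
      · exact rho_gS G
      · exact rho_aS α
      · exact rho_cS γ
    intro f
    have h2 := DFunLike.congr_fun hr f
    set F := ((evW hι (gS G) (aS α) (cS γ) (unit_arc hι G α γ)).comp (extc K (chW hι))) f with hF
    have h3 : rho K F = φ f := h2
    constructor
    · rw [← hφ f, ← h3]
      simp [rho]
    · rw [← h3]
      simp [rho]

end arcs

end Pool.Agent.Helper413.Gal
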