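import Mathlib
import Pool.Agent.Helper413.Gal.Tan

set_option autoImplicit false
set_option linter.unusedSectionVars false

open MvPolynomial Pool.Agent.Helper226

namespace Pool.Agent.Helper413.Gal

def th : ℕ → ℕ
  | 0 => 0
  | 1 => 1
  | 2 => 11
  | 3 => 43
  | _ => 66

lemma th_four : th (3 + 1) = 66 := rfl
lemma th_three : th (2 + 1) = 43 := rfl

def chkTh : Bool :=
  (List.range 10).all fun l => (List.range 66).all fun g => (T l g).all fun t =>
    (List.range 4).all fun k => !(Nat.blt g (th (k + 1))) || Nat.blt t.1 (th k)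

theorem chkTh_true : chkTh = true := by decide +kernel

section van
variable {R : Type*} [CommRing R]

/-- vanishing of the first coordinates -/
def Van (v : Fin 66 → R) (k : ℕ) : Prop := ∀ n < k, ex v n = 0

lemma Van.add {v w : Fin 66 → R} {k : ℕ} (hv : Van v k) (hw : Van w k) : Van (v + w) k := by
  intro n hn
  rw [ex_add, hv n hn, hw n hn, add_zero]

lemma Van.smul (r : R) {v : Fin 66 → R} {k : ℕ} (hv : Van v k) : Van (r • v) k := by
  intro n hn
  rw [ex_smul, hv n hn, mul_zero]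

lemma Van.sum {γ : Type*} (s : Finset γ) {f : γ → Fin 66 → R} {k : ℕ}
    (h : ∀ i ∈ s, Van (f i) k) : Van (∑ i ∈ s, f i) k := by
  intro n hn
  rw [ex_sum, Finset.sum_eq_zero]
  intro i hi
  exact h i hi n hn

lemma van_zero (v : Fin 66 → R) : Van v (th 0) := fun n hn => absurd hn (Nat.not_lt_zero n)

lemma th_le (k : ℕ) : th k ≤ 66 := by
  match k with
  | 0 => decide
  | 1 => decide
  | 2 => decide
  | 3 => decide
  | (k + 4) => exact le_refl _

lemma van_xop (ι : R) (l : Fin 10) {k : ℕ} (hk : k < 4) {v : Fin 66 → R} (hv : Van v (th k)) :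
    Van (xop ι l v) (th (k + 1)) := by
  intro n hn
  have hn66 : n < 66 := lt_of_lt_of_le hn (th_le _)
  rw [ex_xop, ev_congr (m' := fun _ => 0), ev_zero]
  intro t ht
  apply hv
  have h := chkTh_true
  unfold chkTh at h
  rw [List.all_eq_true] at h
  have h := h l (List.mem_range.2 l.2)
  rw [List.all_eq_true] at h
  have h := h n (List.mem_range.2 hn66)
  rw [List.all_eq_true] at h
  have h := h t ht
  rw [List.all_eq_true] at h
  have h := h k (List.mem_range.2 hk)
  rw [Bool.or_eq_true] at h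
  rcases h with h | h
  · rw [Bool.not_eq_true', ← Bool.not_eq_true, Nat.blt_eq] at h
    exact absurd hn h
  · simpa using h

lemma van_cop (c : ℕ → ℕ → R) (l : ℕ) {k : ℕ} (hk : k < 4) {v : Fin 66 → R} (hv : Van v (th k)) :
    Van (cop c l v) (th (k + 1)) := by
  intro n hn
  by_cases h43 : n < 43
  · exact ex_cop_lt c l v h43
  · have hk3 : k = 3 := by
      interval_cases k
      · simp [th] at hn; omega
      · simp [th] at hn; omega
      · simp [th] at hn; omega
      · rfl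
    subst hk3
    have hn66 : n < 66 := hn
    rw [ex_of_lt _ hn66, cop_apply, if_pos (by simpa using not_lt.1 h43), Finset.sum_eq_zero,
      neg_zero]
    intro m _
    rw [hv _ (by have := m.2; simp [th]; omega), mul_zero]

lemma van_yop (ι : R) (c : ℕ → ℕ → R) (l : Fin 10) {k : ℕ} (hk : k < 4) {v : Fin 66 → R}
    (hv : Van v (th k)) : Van (yop ι c l v) (th (k + 1)) :=
  (van_xop ι l hk hv).add (van_cop c l hk hv)

lemma van_yfam (ι : R) (p : Matrix (Fin 10) (Fin 10) R) (c : ℕ → ℕ → R) (l : Fin 10) {k : ℕ}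
    (hk : k < 4) {v : Fin 66 → R} (hv : Van v (th k)) :
    Van (yfam ι p 0 c l v) (th (k + 1)) := by
  rw [yfam_apply]
  refine Van.add (Van.sum _ fun j _ => (van_yop ι c j hk hv).smul _) ?_
  rw [Pi.zero_apply, zero_smul]
  intro n _
  exact ex_zero n

lemma ex_yfam_zero (ι : R) (p : Matrix (Fin 10) (Fin 10) R) (s : Fin 10 → R) (c : ℕ → ℕ → R)
    (l : Fin 10) (v : Fin 66 → R) : ex (yfam ι p s c l v) 0 = s l * ex v 0 := by
  rw [yfam_apply, ex_add, ex_smul, Van.sum (k := 1) Finset.univ (fun j _ =>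
    (van_yop ι c j (by norm_num) (van_zero v)).smul _) 0 (by norm_num), zero_add]

lemma cop_e0 (c : ℕ → ℕ → R) (l : ℕ) : cop c l e0 = 0 := by
  ext g
  rw [cop_apply]
  split_ifs
  · rw [Finset.sum_eq_zero, neg_zero]
    · rfl
    · intro k _
      rw [ex_e0, if_neg (by omega), mul_zero]
  · rfl

lemma yop_e0 (ι : R) (c : ℕ → ℕ → R) (l : ℕ) : yop ι c l e0 = xop ι l e0 := by
  unfold yop
  rw [LinearMap.add_apply, cop_e0, add_zero]

lemma yop_yop_e0 (ι : R) (c : ℕ → ℕ → R) (i : ℕ) (j : ℕ) :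
    yop ι c i (yop ι c j e0) = xop ι i (xop ι j e0) + cop c i (xop ι j e0) := by
  rw [yop_e0]
  rfl

lemma yop_three (ι : R) (c : ℕ → ℕ → R) (i j k : Fin 10) :
    yop ι c i (yop ι c j (yop ι c k e0)) = xop ι i (xop ι j (xop ι k e0)) := by
  rw [yop_yop_e0]
  unfold yop
  rw [LinearMap.add_apply, map_add, map_add]
  have h1 : xop ι i (cop c j (xop ι k e0)) = 0 :=
    LinearMap.congr_fun (xop_cop ι c i j) _
  have h2 : cop c i (cop c j (xop ι k e0)) = 0 :=
    LinearMap.congr_fun (cop_cop c i j) _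
  have h3 : cop c i (xop ι j (xop ι k e0)) = 0 := by
    ext g
    rw [cop_xop_apply]
    have : ex (xop ι k e0) 0 = 0 := van_xop ι k (k := 0) (by norm_num) (van_zero e0) 0 (by decide)
    rw [this, mul_zero, neg_zero, ite_self]
    rfl
  rw [h1, h2, h3]
  simp

end van

section key
variable {Ω : Type} [Field Ω] [Algebra ℚ Ω] {ι ι' : Ω} (hι : ι ^ 2 = -1) (hι' : ι' ^ 2 = -1)

lemma commT_yop {ι : Ω} (hι : ι ^ 2 = -1) (c : ℕ → ℕ → Ω) :
    CommT fun l : Fin 10 => yop ι c l := fun i j => yop_comm hι c i j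

lemma yfam_one (ι : Ω) (c : ℕ → ℕ → Ω) : yfam ι 1 0 c = fun l : Fin 10 => yop ι c l := by
  funext l
  refine LinearMap.ext fun v => ?_
  rw [yfam_apply]
  simp [Matrix.one_apply]

/-- affine coordinates -/
noncomputable def zco (g' : Matrix (Fin 10) (Fin 10) Ω) (a' : Fin 10 → Ω) (j : Fin 10) :
    MvPolynomial (Fin 10) Ω := ∑ l : Fin 10, C (g'⁻¹ j l) * (X l - C (a' l))

lemma act_zco (ι : Ω) (hι : ι ^ 2 = -1) (g : Matrix (Fin 10) (Fin 10) Ω) (a : Fin 10 → Ω)
    (c : ℕ → ℕ → Ω) (g' : Matrix (Fin 10) (Fin 10) Ω) (a' : Fin 10 → Ω) (j : Fin 10) :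
    act _ (commT_yfam hι g a c) (zco g' a' j) =
      yfam ι (g'⁻¹ * g) (g'⁻¹.mulVec (a - a')) c j := by
  unfold zco
  refine LinearMap.ext fun v => ?_
  rw [map_sum, LinearMap.sum_apply, yfam_apply]
  have h1 : ∀ l : Fin 10, act _ (commT_yfam hι g a c) (C (g'⁻¹ j l) * (X l - C (a' l))) v =
      ∑ m : Fin 10, (g'⁻¹ j l * g l m) • yop ι c m v + (g'⁻¹ j l * (a l - a' l)) • v := by
    intro l
    rw [map_mul]
    change act _ (commT_yfam hι g a c) (C (g'⁻¹ j l)) (act _ (commT_yfam hι g a c)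
      (X l - C (a' l)) v) = _
    rw [act_C, map_sub, LinearMap.sub_apply, act_X, act_C, yfam_apply, smul_sub, smul_add,
      Finset.smul_sum]
    simp only [smul_smul, mul_sub, sub_smul]
    abel
  simp only [h1]
  rw [Finset.sum_add_distrib, Finset.sum_comm]
  congr 1
  · refine Finset.sum_congr rfl fun m _ => ?_
    rw [← Finset.sum_smul, Matrix.mul_apply]
  · rw [← Finset.sum_smul]
    rfl

lemma prod_two_e0 (Y : Fin 10 → Module.End Ω (Fin 66 → Ω)) (i j : Fin 10) :
    ((([(i : ℕ), (j : ℕ)]).map (exY Y)).prod e0 : Fin 66 → Ω) = Y i (Y j e0) := by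
  simp [exY]

def chkB3 : Bool :=
  (List.range 23).all fun x => Nat.beq (bm (43 + x)).length 3 && (bm (43 + x)).all fun n => Nat.blt n 10

theorem chkB3_true : chkB3 = true := by decide +kernel

lemma bm_three {x : Fin 66} (hx : 43 ≤ (x : ℕ)) :
    ∃ i j k : Fin 10, bm x = [(i : ℕ), (j : ℕ), (k : ℕ)] := by
  have h := chkB3_true
  unfold chkB3 at h
  rw [List.all_eq_true] at h
  have h := h (x - 43) (List.mem_range.2 (by have := x.2; omega))
  rw [show 43 + ((x : ℕ) - 43) = x by omega, Bool.and_eq_true, List.all_eq_true] at h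
  obtain ⟨h1, h2⟩ := h
  have h1 := Nat.eq_of_beq_eq_true h1
  obtain ⟨a, b, c, habc⟩ := List.length_eq_three.1 h1
  have ha : a < 10 := by simpa using h2 a (by rw [habc]; simp)
  have hb : b < 10 := by simpa using h2 b (by rw [habc]; simp)
  have hc : c < 10 := by simpa using h2 c (by rw [habc]; simp)
  exact ⟨⟨a, ha⟩, ⟨b, hb⟩, ⟨c, hc⟩, habc⟩

lemma act_bR_three (Y : Fin 10 → Module.End Ω (Fin 66 → Ω)) (hY : CommT Y) {x : Fin 66}
    {i j k : Fin 10} (h : bm x = [(i : ℕ), (j : ℕ), (k : ℕ)]) :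
    act Y hY (bR Ω x) e0 = Y i (Y j (Y k e0)) := by
  unfold bR
  rw [act_mono, h]
  simp [exY]

lemma act_yop_bR (c : ℕ → ℕ → Ω) {x : Fin 66} (hx : 43 ≤ (x : ℕ)) :
    act _ (commT_yop hι c) (bR Ω x) e0 = Pi.single x 1 := by
  obtain ⟨i, j, k, h⟩ := bm_three hx
  rw [act_bR_three _ _ h, yop_three, ← basis_apply hι x, h]
  simp

lemma act_yop_q (c : ℕ → ℕ → Ω) {s : ℕ} (hs : s < 23) (x : Fin 66) :
    act _ (commT_yop hι c) (qpol ι s) e0 x = - if 43 ≤ (x : ℕ) then c s (x - 43) else 0 := by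
  rw [act_qpol]
  have h1 : ∀ t ∈ qq s, ((t.1.map (exY fun l : Fin 10 => yop ι c l)).prod e0 : Fin 66 → Ω) =
      (t.1.map (xop ι)).prod e0 + cL ι c t.1 := by
    intro t ht
    obtain ⟨i, j, hij⟩ := qq_spec hs ht
    rw [hij, prod_two_e0, cL_two, yop_yop_e0]
    simp
  rw [ev_congr ι (m' := fun L => (L.map (xop ι)).prod e0 + cL ι c L) h1, ev_add,
    quad_apply hι s hs, zero_add, cL_sum c hs]

/-- a cubic correction of the quadric -/
noncomputable def qcor (ι : Ω) (c : ℕ → ℕ → Ω) (s : ℕ) : MvPolynomial (Fin 10) Ω :=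
  qpol ι s + ∑ x : Fin 66, if 43 ≤ (x : ℕ) then C (c s (x - 43)) * bR Ω x else 0

lemma act_qcor (c : ℕ → ℕ → Ω) {s : ℕ} (hs : s < 23) :
    act _ (commT_yop hι c) (qcor ι c s) e0 = 0 := by
  unfold qcor
  rw [map_add, map_sum, LinearMap.add_apply, LinearMap.sum_apply]
  ext y
  rw [Pi.add_apply, act_yop_q hι c hs, Finset.sum_apply]
  have h1 : ∀ x : Fin 66, act _ (commT_yop hι c)
      (if 43 ≤ (x : ℕ) then C (c s (x - 43)) * bR Ω x else 0) e0 y =
      if x = y then (if 43 ≤ (x : ℕ) then c s (x - 43) else 0) else 0 := by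
    intro x
    by_cases hx : 43 ≤ (x : ℕ)
    · rw [if_pos hx, if_pos hx, map_mul]
      change act _ (commT_yop hι c) (C (c s (x - 43))) (act _ (commT_yop hι c) (bR Ω x) e0) y = _
      rw [act_C, act_yop_bR hι c hx, Pi.smul_apply, Pi.single_apply]
      by_cases hxy : x = y
      · subst hxy; simp
      · rw [if_neg hxy, if_neg (fun h => hxy h.symm), smul_zero]
    · rw [if_neg hx, if_neg hx, map_zero, ite_self]
      rfl
  simp only [h1]
  rw [Finset.sum_ite_eq' Finset.univ y, if_pos (Finset.mem_univ _)]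
  simp

lemma ex_yfam_two (p : Matrix (Fin 10) (Fin 10) Ω) (c : ℕ → ℕ → Ω) (i j : Fin 10) {n : ℕ}
    (hn : n < 43) : ex (yfam ι p 0 c i (yfam ι p 0 c j e0)) n =
      ∑ l : Fin 10, ∑ m : Fin 10, p i l * p j m * ex (xop ι l (xop ι m e0)) n := by
  have h1 : yfam ι p 0 c j e0 = ∑ m : Fin 10, p j m • xop ι m e0 := by
    rw [yfam_apply]
    simp only [Pi.zero_apply, zero_smul, add_zero, yop_e0]
  rw [h1, yfam_apply, Pi.zero_apply, zero_smul, add_zero, ex_sum]
  refine Finset.sum_congr rfl fun l _ => ?_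
  rw [ex_smul, map_sum, ex_sum, Finset.mul_sum]
  refine Finset.sum_congr rfl fun m _ => ?_
  rw [map_smul, ex_smul]
  unfold yop
  rw [LinearMap.add_apply, ex_add, ex_cop_lt _ _ _ hn, add_zero]
  ring

include hι hι' in
/-- equality of members of the two families gives a linear change of coordinates -/
theorem key_transfer (g : Matrix (Fin 10) (Fin 10) Ω) (a : Fin 10 → Ω) (c : ℕ → ℕ → Ω)
    (hN : IsUnit (NN _ (commT_yfam hι g a c)).det) (hg : IsUnit g.det)
    (g' : Matrix (Fin 10) (Fin 10) Ω) (a' : Fin 10 → Ω) (c' : ℕ → ℕ → Ω)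
    (hN' : IsUnit (NN _ (commT_yfam hι' g' a' c')).det) (hg' : IsUnit g'.det)
    (h : fch hι g a c hN = fch hι' g' a' c' hN') :
    ∃ p : Matrix (Fin 10) (Fin 10) Ω, IsUnit p.det ∧ ∀ F, act _ (commT_yop hι' c') F e0 = 0 →
      act _ (commT_yfam hι p 0 c) F e0 = 0 := by
  have hker : ∀ f, act _ (commT_yfam hι' g' a' c') f e0 = 0 →
      act _ (commT_yfam hι g a c) f e0 = 0 := by
    intro f hf
    rw [← PP_chartOf_eq_zero_iff _ _ hN]
    rw [← PP_chartOf_eq_zero_iff _ _ hN'] at hf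
    have h1 : chartOf _ (commT_yfam hι g a c) hN = chartOf _ (commT_yfam hι' g' a' c') hN' := h
    rw [h1]
    exact hf
  obtain ⟨p, hp⟩ : ∃ p, p = g'⁻¹ * g := ⟨_, rfl⟩
  obtain ⟨s, hs⟩ : ∃ s, s = g'⁻¹.mulVec (a - a') := ⟨_, rfl⟩
  have hz' : (fun j => act _ (commT_yfam hι' g' a' c') (zco g' a' j)) =
      fun l : Fin 10 => yop ι' c' l := by
    rw [← yfam_one]
    funext j
    rw [act_zco _ hι', sub_self, Matrix.mulVec_zero, Matrix.nonsing_inv_mul _ hg']
  have hz : (fun j => act _ (commT_yfam hι g a c) (zco g' a' j)) = yfam ι p s c := by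
    funext j
    rw [act_zco _ hι, hp, hs]
  have htr : ∀ F, act _ (commT_yop hι' c') F e0 = 0 → act _ (commT_yfam hι p s c) F e0 = 0 := by
    intro F hF
    have h1 := hker (aeval (zco g' a') F) (by
      rw [act_aeval _ _ _ (commT_act _ _ _), act_congr hz' _ (commT_yop hι' c')]
      exact hF)
    rw [act_aeval _ _ _ (commT_act _ _ _), act_congr hz _ (commT_yfam hι p s c)] at h1
    exact h1
  have hs0 : s = 0 := by
    ext j
    have h1 : act _ (commT_yop hι' c') (X j * X j * X j * X j) e0 = 0 := by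
      rw [map_mul, map_mul, map_mul, act_X]
      refine ext_ex fun n hn => ?_
      rw [ex_zero]
      have h2 := van_yop ι' c' j (k := 0) (by norm_num) (van_zero (e0 : Fin 66 → Ω))
      have h3 := van_yop ι' c' j (k := 1) (by norm_num) h2
      have h4 := van_yop ι' c' j (k := 2) (by norm_num) h3
      have h5 := van_yop ι' c' j (k := 3) (by norm_num) h4
      rw [th_four] at h5
      exact h5 n hn
    have h2 := htr _ h1
    rw [map_mul, map_mul, map_mul, act_X] at h2
    simp only [Module.End.mul_apply] at h2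
    have h3 : ex (yfam ι p s c j (yfam ι p s c j (yfam ι p s c j (yfam ι p s c j e0)))) 0 = 0 := by
      rw [h2, ex_zero]
    rw [ex_yfam_zero, ex_yfam_zero, ex_yfam_zero, ex_yfam_zero, ex_e0, if_pos rfl, mul_one] at h3
    rw [Pi.zero_apply]
    by_contra hne
    exact mul_ne_zero hne (mul_ne_zero hne (mul_ne_zero hne hne)) h3
  subst hs0
  refine ⟨p, ?_, htr⟩
  rw [hp, Matrix.det_mul]
  exact (Matrix.isUnit_nonsing_inv_det _ hg').mul hg

lemma van_bR (p : Matrix (Fin 10) (Fin 10) Ω) (c : ℕ → ℕ → Ω) {x : Fin 66} (hx : 43 ≤ (x : ℕ)) :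
    Van (act _ (commT_yfam hι p 0 c) (bR Ω x) e0) 43 := by
  obtain ⟨i, j, k, hijk⟩ := bm_three hx
  rw [act_bR_three _ _ hijk]
  have h2 := van_yfam ι p c k (k := 0) (by norm_num) (van_zero (e0 : Fin 66 → Ω))
  have h3 := van_yfam ι p c j (k := 1) (by norm_num) h2
  have h4 := van_yfam ι p c i (k := 2) (by norm_num) h3
  rw [th_three] at h4
  exact h4

/-- rows of a matrix extended by zero -/
def pr (p : Matrix (Fin 10) (Fin 10) Ω) (i l : ℕ) : Ω :=
  if h : i < 10 ∧ l < 10 then p ⟨i, h.1⟩ ⟨l, h.2⟩ else 0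

lemma pr_val (p : Matrix (Fin 10) (Fin 10) Ω) (i l : Fin 10) : pr p i l = p i l := by
  simp [pr]

/-- the quadratic expression attached to a monomial -/
noncomputable def qv (ι : Ω) (p : Matrix (Fin 10) (Fin 10) Ω) (n : ℕ) (L : List ℕ) : Ω :=
  match L with
    | [i, j] => ∑ l : Fin 10, ∑ m : Fin 10, pr p i l * pr p j m * ex (xop ι l (xop ι m e0)) n
    | _ => 0

lemma qv_two (p : Matrix (Fin 10) (Fin 10) Ω) (n : ℕ) (i j : ℕ) : qv ι p n [i, j] =
  ∑ l : Fin 10, ∑ m : Fin 10, pr p i l * pr p j m * ex (xop ι l (xop ι m e0)) n := rfl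

include hι hι' in
/-- equality of members of the two families gives relations in degree two -/
theorem key_rel (g : Matrix (Fin 10) (Fin 10) Ω) (a : Fin 10 → Ω) (c : ℕ → ℕ → Ω)
    (hN : IsUnit (NN _ (commT_yfam hι g a c)).det) (hg : IsUnit g.det)
    (g' : Matrix (Fin 10) (Fin 10) Ω) (a' : Fin 10 → Ω) (c' : ℕ → ℕ → Ω)
    (hN' : IsUnit (NN _ (commT_yfam hι' g' a' c')).det) (hg' : IsUnit g'.det)
    (h : fch hι g a c hN = fch hι' g' a' c' hN') :
    ∃ p : Matrix (Fin 10) (Fin 10) Ω, IsUnit p.det ∧ ∀ s < 23, ∀ n < 43,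
      ev ι' (qv ι p n) (qq s) = 0 := by
  obtain ⟨p, hp, htr⟩ := key_transfer hι hι' g a c hN hg g' a' c' hN' hg' h
  refine ⟨p, hp, fun s hs n hn => ?_⟩
  have h1 := htr _ (act_qcor hι' c' hs)
  have h0 : act _ (commT_yfam hι p 0 c) (qcor ι' c' s) e0 =
      act _ (commT_yfam hι p 0 c) (qpol ι' s) e0 + ∑ x : Fin 66,
        act _ (commT_yfam hι p 0 c)
          (if 43 ≤ (x : ℕ) then C (c' s (x - 43)) * bR Ω x else 0) e0 := by
    unfold qcor
    rw [map_add, map_sum, LinearMap.add_apply, LinearMap.sum_apply]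
  rw [h0] at h1
  have hv : Van (∑ x : Fin 66, act _ (commT_yfam hι p 0 c)
          (if 43 ≤ (x : ℕ) then C (c' s (x - 43)) * bR Ω x else 0) e0) 43 := by
    apply Van.sum
    intro x _
    by_cases hx : 43 ≤ (x : ℕ)
    · rw [if_pos hx, map_mul, Module.End.mul_apply, act_C]
      exact (van_bR hι p c hx).smul _
    · rw [if_neg hx, map_zero]
      intro n _
      exact ex_zero n
  have h2 : ex (act _ (commT_yfam hι p 0 c) (qpol ι' s) e0 + ∑ x : Fin 66,
        act _ (commT_yfam hι p 0 c)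
          (if 43 ≤ (x : ℕ) then C (c' s (x - 43)) * bR Ω x else 0) e0) n = 0 := by
    rw [h1, ex_zero]
  rw [ex_add, hv n hn, add_zero, act_qpol, ex_ev] at h2
  refine Eq.trans ?_ h2
  apply ev_congr
  intro t ht
  obtain ⟨i, j, hij⟩ := qq_spec hs ht
  rw [hij, prod_two_e0, ex_yfam_two _ _ _ _ hn, qv_two]
  simp only [pr_val]

end key

end Pool.Agent.Helper413.Gal
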