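import Mathlib
import Pool.Agent.Helper413.Gal.NI1

set_option autoImplicit false
set_option linter.unusedSectionVars false

open MvPolynomial Pool.Agent.Helper226

namespace Pool.Agent.Helper413.Gal

/-- lines `(i, j, k)` with the exponents of the coefficients of `x_j x_k`, `x_i x_k`, `x_i x_j` -/
def lnL : List (ℕ × ℕ × ℕ × ℕ × ℕ × ℕ) := [(0, 1, 2, 0, 0, 0), (0, 3, 4, 0, 2, 1),
  (0, 5, 6, 0, 3, 1), (0, 7, 8, 0, 0, 0), (1, 3, 7, 0, 1, 0), (1, 4, 5, 0, 3, 2),
  (1, 6, 8, 0, 0, 3), (2, 3, 5, 0, 0, 0), (2, 4, 8, 0, 0, 0), (2, 7, 9, 0, 0, 0),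
  (3, 6, 9, 1, 0, 1), (4, 6, 7, 0, 0, 0), (5, 8, 9, 3, 0, 3)]

def ordL : List (ℕ × ℕ) := [(0, 9), (1, 9), (2, 6), (3, 8), (4, 9), (5, 7)]

def ln (s : ℕ) : ℕ × ℕ × ℕ × ℕ × ℕ × ℕ := lnL.getD s (0, 0, 0, 0, 0, 0)
def li (s : ℕ) : ℕ := (ln s).1
def lj (s : ℕ) : ℕ := (ln s).2.1
def lk (s : ℕ) : ℕ := (ln s).2.2.1
def l1 (s : ℕ) : ℕ := (ln s).2.2.2.1
def l2 (s : ℕ) : ℕ := (ln s).2.2.2.2.1
def l3 (s : ℕ) : ℕ := (ln s).2.2.2.2.2

def chkLn : Bool := (List.range 13).all fun s =>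
  decide (List.Perm (qq (10 + s)) [([lj s, lk s], l1 s), ([li s, lk s], l2 s), ([li s, lj s], l3 s)])

theorem chkLn_true : chkLn = true := by decide +kernel

lemma qq_perm {s : ℕ} (hs : s < 13) : List.Perm (qq (10 + s))
    [([lj s, lk s], l1 s), ([li s, lk s], l2 s), ([li s, lj s], l3 s)] := by
  have h := chkLn_true
  unfold chkLn at h
  rw [List.all_eq_true] at h
  simpa using h s (List.mem_range.2 hs)

/-- row `n` of the multiplication table of quadratic expressions -/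
def rq (n : ℕ) : List ((ℕ × ℕ) × ℕ) :=
  (List.range 10).flatMap fun l => (List.range 10).flatMap fun m =>
    (z0 (rowL [l, m] n)).map fun u => ((l, m), u.2)

def rel1 (s : ℕ) (t : List ℕ × ℕ) : Bool :=
  match t.1, lead s with
  | [a, b], [c, d] => (decide (a = c ∧ b = d) && Nat.beq t.2 0) || (Nat.blt (bmL.idxOf [a, b]) 43 &&
      eqT (rq (bmL.idxOf [a, b])) [((a, b), 0), ((b, a), 0), ((c, d), t.2 + 2), ((d, c), t.2 + 2)])
  | _, _ => false

def chkRel : Bool := (List.range 13).all fun s => (qq (10 + s)).all (rel1 (10 + s))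

theorem chkRel_true : chkRel = true := by decide +kernel

def chkOrd : Bool := ordL.all fun p => Nat.blt (bmL.idxOf [p.1, p.2]) 43 &&
  eqT (rq (bmL.idxOf [p.1, p.2])) [((p.1, p.2), 0), ((p.2, p.1), 0)]

theorem chkOrd_true : chkOrd = true := by decide +kernel

section
variable {Ω : Type} [Field Ω] [Algebra ℚ Ω] {ι ι' : Ω} (hι : ι ^ 2 = -1) (hι' : ι' ^ 2 = -1)

/-- symmetrised coefficients -/
def SS (Y : ℕ → ℕ → Ω) (a b : ℕ) : Ω := Y a b + Y b a

def SSl (Y : ℕ → ℕ → Ω) (L : List ℕ) : Ω :=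
  match L with
  | [a, b] => SS Y a b
  | _ => 0

lemma ev_rq (Y : ℕ → ℕ → Ω) (n : ℕ) :
    ∑ l : Fin 10, ∑ m : Fin 10, Y l m * ex (xop ι l (xop ι m e0)) n =
      ev ι (fun p : ℕ × ℕ => Y p.1 p.2) (rq n) := by
  unfold rq
  rw [ev_flatMap]
  have h1 : ∀ l m : ℕ, ev ι (fun p : ℕ × ℕ => Y p.1 p.2)
      ((z0 (rowL [l, m] n)).map fun u => ((l, m), u.2)) =
      Y l m * ex (xop ι l (xop ι m (e0 : Fin 66 → Ω))) n := by
    intro l m
    rw [ex_row2, ev_e0]
    have h : ∀ u ∈ z0 (rowL [l, m] n), u.1 = 0 := by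
      intro u hu
      unfold z0 at hu
      rw [List.mem_filter] at hu
      exact Nat.eq_of_beq_eq_true hu.2
    generalize z0 (rowL [l, m] n) = M at h
    induction M with
    | nil => simp
    | cons u M ih =>
      rw [List.map_cons, ev_cons, ev_cons, ih fun v hv => h v (List.mem_cons_of_mem _ hv),
        h u (by simp), ex_e0, if_pos rfl]
      simp only [smul_eq_mul]
      ring
  simp only [ev_flatMap, h1]
  rw [← Finset.sum_range fun l : ℕ => ∑ m : Fin 10, Y l m * ex (xop ι l (xop ι m e0)) n]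
  have h2 : ∀ l : ℕ, ∑ m : Fin 10, Y l m * ex (xop ι l (xop ι m (e0 : Fin 66 → Ω))) n =
      ((List.range 10).map fun m => Y l m * ex (xop ι l (xop ι m e0)) n).sum := by
    intro l
    rw [← Finset.sum_range fun m : ℕ => Y l m * ex (xop ι l (xop ι m e0)) n]
    rfl
  simp only [h2]
  rfl

include hι in
lemma rel_of_zero (Y : ℕ → ℕ → Ω)
    (hY : ∀ n < 43, ∑ l : Fin 10, ∑ m : Fin 10, Y l m * ex (xop ι l (xop ι m e0)) n = 0) :
    (∀ s < 13, ∃ μ, SS Y (lj s) (lk s) = ι ^ l1 s * μ ∧ SS Y (li s) (lk s) = ι ^ l2 s * μ ∧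
      SS Y (li s) (lj s) = ι ^ l3 s * μ) ∧ ∀ p ∈ ordL, SS Y p.1 p.2 = 0 := by
  constructor
  · intro s hs
    have key : ∀ t ∈ qq (10 + s), SSl Y t.1 = ι ^ t.2 * SSl Y (lead (10 + s)) := by
      intro t ht
      have h := chkRel_true
      unfold chkRel at h
      rw [List.all_eq_true] at h
      have h := h s (List.mem_range.2 hs)
      rw [List.all_eq_true] at h
      have h := h t ht
      obtain ⟨L, e⟩ := t
      unfold rel1 at h
      split at h
      · rename_i a b c d hL hl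
        simp only at hL
        subst hL
        rw [hl]
        change SS Y a b = ι ^ e * SS Y c d
        rw [Bool.or_eq_true, Bool.and_eq_true, Bool.and_eq_true] at h
        rcases h with ⟨h1, h2⟩ | ⟨h1, h2⟩
        · rw [decide_eq_true_eq] at h1
          obtain ⟨rfl, rfl⟩ := h1
          have h2 : e = 0 := Nat.eq_of_beq_eq_true h2
          subst h2
          simp
        · have h3 := eqT_spec (fun p : ℕ × ℕ => Y p.1 p.2) hι h2
          rw [← ev_rq, hY _ (by simpa using h1)] at h3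
          simp only [ev_cons, ev_nil, smul_eq_mul, pow_zero, one_mul, add_zero] at h3
          rw [pow_add_two hι] at h3
          unfold SS
          linear_combination -h3
      · simp at h
    have hp := qq_perm hs
    refine ⟨SSl Y (lead (10 + s)), ?_, ?_, ?_⟩
    · exact key ([lj s, lk s], l1 s) (hp.mem_iff.2 (by simp))
    · exact key ([li s, lk s], l2 s) (hp.mem_iff.2 (by simp))
    · exact key ([li s, lj s], l3 s) (hp.mem_iff.2 (by simp))
  · intro p hp
    have h := chkOrd_true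
    unfold chkOrd at h
    rw [List.all_eq_true] at h
    have h := h p hp
    rw [Bool.and_eq_true] at h
    have h3 := eqT_spec (fun p : ℕ × ℕ => Y p.1 p.2) hι h.2
    rw [← ev_rq, hY _ (by simpa using h.1)] at h3
    simp only [ev_cons, ev_nil, smul_eq_mul, pow_zero, one_mul, add_zero] at h3
    exact h3.symm

/-- product of two rows -/
def yl (p : Matrix (Fin 10) (Fin 10) Ω) (l m : ℕ) (L : List ℕ) : Ω :=
  match L with
  | [i, j] => pr p i l * pr p j m
  | _ => 0

lemma qv_eq (p : Matrix (Fin 10) (Fin 10) Ω) (n : ℕ) (L : List ℕ) :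
    qv ι p n L = ∑ l : Fin 10, ∑ m : Fin 10, yl p l m L * ex (xop ι l (xop ι m e0)) n := by
  unfold qv yl
  split
  · rfl
  · simp

/-- the symmetric form attached to a quadric -/
def YY (ι' : Ω) (p : Matrix (Fin 10) (Fin 10) Ω) (s : ℕ) (l m : ℕ) : Ω :=
  ev ι' (yl p l m) (qq s)

lemma YY_zero (p : Matrix (Fin 10) (Fin 10) Ω) (s n : ℕ) (h : ev ι' (qv ι p n) (qq s) = 0) :
    ∑ l : Fin 10, ∑ m : Fin 10, YY ι' p s l m * ex (xop ι l (xop ι m e0)) n = 0 := by
  rw [← h]
  have h1 : qv ι p n = fun L => ∑ l : Fin 10, ∑ m : Fin 10,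
      ex (xop ι l (xop ι m e0)) n • yl p l m L := by
    funext L
    rw [qv_eq]
    refine Finset.sum_congr rfl fun l _ => Finset.sum_congr rfl fun m _ => ?_
    rw [smul_eq_mul, mul_comm]
  rw [h1]
  simp only [ev_sum, ev_smul]
  refine Finset.sum_congr rfl fun l _ => Finset.sum_congr rfl fun m _ => ?_
  rw [smul_eq_mul, mul_comm]
  rfl

lemma YY_square (p : Matrix (Fin 10) (Fin 10) Ω) {j : ℕ} (hj : j < 10) (l m : ℕ) :
    YY ι' p j l m = pr p j l * pr p j m := by
  have h2 : qq j = [([j, j], 0)] := by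
    have h3 : ∀ a < 10, qq a = [([a, a], 0)] := by decide +kernel
    exact h3 j hj
  unfold YY
  rw [h2]
  simp [yl]

lemma YY_line (p : Matrix (Fin 10) (Fin 10) Ω) {s : ℕ} (hs : s < 13) (l m : ℕ) :
    YY ι' p (10 + s) l m = ι' ^ l1 s * (pr p (lj s) l * pr p (lk s) m) +
      ι' ^ l2 s * (pr p (li s) l * pr p (lk s) m) + ι' ^ l3 s * (pr p (li s) l * pr p (lj s) m) := by
  unfold YY
  have h1 : ev ι' (yl p l m) (qq (10 + s)) = ev ι' (yl p l m)
      [([lj s, lk s], l1 s), ([li s, lk s], l2 s), ([li s, lj s], l3 s)] :=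
    ((qq_perm hs).map _).sum_eq
  rw [h1]
  simp [yl]
  ring

end

end Pool.Agent.Helper413.Gal
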