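import Mathlib
import Pool.Agent.Helper413.Gal.NI2

set_option autoImplicit false
set_option linter.unusedSectionVars false

namespace Pool.Agent.Helper413.Gal

def goodF (f : ℕ → Bool) : Bool :=
  (ordL.all fun p => !(f p.1 && f p.2)) && (List.range 13).all fun s =>
    ((f (lj s) && f (lk s)) == (f (li s) && f (lk s))) &&
    ((f (li s) && f (lk s)) == (f (li s) && f (lj s)))

/-- supports: points and lines -/
def sup (κ a : ℕ) : Bool :=
  bif Nat.blt κ 10 then Nat.beq a κ
  else (Nat.beq a (li (κ - 10)) || Nat.beq a (lj (κ - 10)) || Nat.beq a (lk (κ - 10)))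

def allB : ℕ → (List Bool → Bool) → Bool
  | 0, P => P []
  | n + 1, P => allB n (fun L => P (true :: L)) && allB n (fun L => P (false :: L))

lemma allB_spec (n : ℕ) (P : List Bool → Bool) (h : allB n P = true) (L : List Bool)
    (hL : L.length = n) : P L = true := by
  induction n generalizing P L with
  | zero =>
    rw [List.length_eq_zero_iff] at hL
    subst hL
    exact h
  | succ n ih =>
    rw [allB, Bool.and_eq_true] at h
    cases L with
    | nil => simp at hL
    | cons b L =>
      have hL' : L.length = n := by simpa using hL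
      cases b with
      | true => exact ih _ h.1 L hL'
      | false => exact ih _ h.2 L hL'

def clsP (L : List Bool) : Bool :=
  !goodF (fun a => L.getD a false) || (L.all fun b => !b) ||
    (List.range 23).any fun κ => (List.range 10).all fun a => L.getD a false == sup κ a

theorem cls_true : allB 10 clsP = true := by decide +kernel

def cntB (f g h : ℕ → Bool) (l m : ℕ) : ℕ :=
  (f l && g m).toNat + (f m && g l).toNat + ((f l && h m).toNat + (f m && h l).toNat) +
    ((g l && h m).toNat + (g m && h l).toNat)

def survB (f g h : ℕ → Bool) : Bool :=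
  (ordL.all fun p => !Nat.beq (cntB f g h p.1 p.2) 1) && (List.range 13).all fun s =>
    !((Nat.beq (cntB f g h (lj s) (lk s)) 0 || Nat.beq (cntB f g h (li s) (lk s)) 0 ||
        Nat.beq (cntB f g h (li s) (lj s)) 0) &&
      (Nat.beq (cntB f g h (lj s) (lk s)) 1 || Nat.beq (cntB f g h (li s) (lk s)) 1 ||
        Nat.beq (cntB f g h (li s) (lj s)) 1))

def surv (a b c : ℕ) : Bool := survB (sup a) (sup b) (sup c)

lemma cntB_swap (f g h : ℕ → Bool) : cntB g f h = cntB f g h := by
  funext l m
  unfold cntB
  rw [Bool.and_comm (g l) (f m), Bool.and_comm (g m) (f l)]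
  omega

lemma cntB_rot (f g h : ℕ → Bool) : cntB f h g = cntB f g h := by
  funext l m
  unfold cntB
  rw [Bool.and_comm (h l) (g m), Bool.and_comm (h m) (g l)]
  omega

lemma surv_swap (a b c : ℕ) : surv b a c = surv a b c := by
  unfold surv survB
  rw [cntB_swap]

lemma surv_rot (a b c : ℕ) : surv a c b = surv a b c := by
  unfold surv survB
  rw [cntB_rot]

/-- third point on the line through two points -/
def third (a b : ℕ) : ℕ :=
  (List.range 13).foldr (fun s acc =>
    bif (Nat.beq a (li s) && Nat.beq b (lj s)) || (Nat.beq a (lj s) && Nat.beq b (li s)) then lk s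
    else bif (Nat.beq a (li s) && Nat.beq b (lk s)) || (Nat.beq a (lk s) && Nat.beq b (li s)) then
      lj s
    else bif (Nat.beq a (lj s) && Nat.beq b (lk s)) || (Nat.beq a (lk s) && Nat.beq b (lj s)) then
      li s
    else acc) 10

def cf (a b : ℕ) : ℕ :=
  (List.range 13).foldr (fun s acc =>
    bif (Nat.beq a (li s) && Nat.beq b (lj s)) || (Nat.beq a (lj s) && Nat.beq b (li s)) then l3 s
    else bif (Nat.beq a (li s) && Nat.beq b (lk s)) || (Nat.beq a (lk s) && Nat.beq b (li s)) then
      l2 s
    else bif (Nat.beq a (lj s) && Nat.beq b (lk s)) || (Nat.beq a (lk s) && Nat.beq b (lj s)) then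
      l1 s
    else acc) 0

def isPerm (s i j k : ℕ) : Bool :=
  (Nat.beq i (li s) && Nat.beq j (lj s) && Nat.beq k (lk s)) ||
  (Nat.beq i (lj s) && Nat.beq j (li s) && Nat.beq k (lk s)) ||
  (Nat.beq i (li s) && Nat.beq j (lk s) && Nat.beq k (lj s)) ||
  (Nat.beq i (lk s) && Nat.beq j (li s) && Nat.beq k (lj s)) ||
  (Nat.beq i (lj s) && Nat.beq j (lk s) && Nat.beq k (li s)) ||
  (Nat.beq i (lk s) && Nat.beq j (lj s) && Nat.beq k (li s))

def chkThird : Bool := (List.range 10).all fun i => (List.range 10).all fun j =>
  !(Nat.blt (third i j) 10) || (List.range 13).any fun s => isPerm s i j (third i j)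

theorem chkThird_true : chkThird = true := by decide +kernel

def chkLine : Bool := (List.range 13).all fun s =>
  Nat.blt (li s) (lj s) && Nat.blt (lj s) (lk s) && Nat.blt (lk s) 10 &&
  Nat.beq (third (li s) (lj s)) (lk s) && Nat.beq (cf (li s) (lj s)) (l3 s) &&
  Nat.beq (cf (li s) (lk s)) (l2 s) && Nat.beq (cf (lj s) (lk s)) (l1 s)

theorem chkLine_true : chkLine = true := by decide +kernel

def chkSym : Bool := (List.range 10).all fun i => (List.range 10).all fun j =>
  Nat.beq (cf i j) (cf j i) && Nat.beq (third i j) (third j i)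

theorem chkSym_true : chkSym = true := by decide +kernel

def partners (κ : ℕ) : List ℕ :=
  (List.range 23).filter fun a => !Nat.beq a κ && (List.range 23).any fun b =>
    !Nat.beq b κ && !Nat.beq b a && surv κ a b

def nb (r : ℕ) : List ℕ := (List.range 10).filter fun a => Nat.blt (third r a) 10

def chkPart : Bool := (List.range 13).all fun κ =>
  Nat.blt (partners (10 + κ)).length 7 &&
    Nat.blt ((partners (10 + κ)).filter fun a => Nat.blt a 10).length 6

theorem chkPart_true : chkPart = true := by decide +kernel

def chkNb : Bool := ((List.range 9).all fun r => Nat.blt 7 (nb r).length) &&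
  Nat.blt 5 (nb 9).length

theorem chkNb_true : chkNb = true := by decide +kernel

def chkSing : Bool := (List.range 10).all fun a => (List.range 10).all fun b =>
  (List.range 10).all fun c => Nat.beq a b || Nat.beq b c || Nat.beq a c || !surv a b c ||
    Nat.beq (third a b) c

theorem chkSing_true : chkSing = true := by decide +kernel

def mkL (x0 x1 x3 : ℕ) : List ℕ :=
  let x2 := third x0 x1
  let x4 := third x0 x3
  let x7 := third x1 x3
  let x8 := third x0 x7
  let x6 := third x1 x8
  let x5 := third x0 x6
  let x9 := third x2 x7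
  [x0, x1, x2, x3, x4, x5, x6, x7, x8, x9]

def condL (L : List ℕ) : Bool := (List.range 13).all fun s =>
  Nat.beq (third (L.getD (li s) 10) (L.getD (lj s) 10)) (L.getD (lk s) 10) &&
    Nat.blt (L.getD (lk s) 10) 10

def AA (L : List ℕ) (j k : ℕ) : ℕ :=
  3 * cf j (third j k) + cf (L.getD k 10) (L.getD (third j k) 10)

def triBad (L : List ℕ) : Bool := (List.range 10).any fun j => (List.range 10).any fun k =>
  (List.range 10).any fun l => Nat.blt (third j k) 10 && Nat.blt (third k l) 10 &&
    Nat.blt (third l j) 10 && !Nat.beq ((AA L j k + AA L k l + AA L l j) % 4)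
      ((AA L k j + AA L l k + AA L j l) % 4)

def chkFin : Bool := (List.range 10).all fun x0 => (List.range 10).all fun x1 =>
  (List.range 10).all fun x3 => !condL (mkL x0 x1 x3) || triBad (mkL x0 x1 x3)

theorem chkFin_true : chkFin = true := by decide +kernel

end Pool.Agent.Helper413.Gal
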