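import Mathlib
import Pool.Agent.Helper413.Gal.NI3

set_option autoImplicit false
set_option linter.unusedSectionVars false

namespace Pool.Agent.Helper413.Gal

section checks

lemma line_spec {s : ℕ} (hs : s < 13) : li s < lj s ∧ lj s < lk s ∧ lk s < 10 ∧
    third (li s) (lj s) = lk s ∧ cf (li s) (lj s) = l3 s ∧ cf (li s) (lk s) = l2 s ∧
    cf (lj s) (lk s) = l1 s := by
  have h := chkLine_true
  unfold chkLine at h
  rw [List.all_eq_true] at h
  have h := h s (List.mem_range.2 hs)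
  simp only [Bool.and_eq_true] at h
  obtain ⟨⟨⟨⟨⟨⟨h1, h2⟩, h3⟩, h4⟩, h5⟩, h6⟩, h7⟩ := h
  exact ⟨by simpa using h1, by simpa using h2, by simpa using h3, Nat.eq_of_beq_eq_true h4,
    Nat.eq_of_beq_eq_true h5, Nat.eq_of_beq_eq_true h6, Nat.eq_of_beq_eq_true h7⟩

lemma sym_spec {i j : ℕ} (hi : i < 10) (hj : j < 10) : cf i j = cf j i ∧ third i j = third j i := by
  have h := chkSym_true
  unfold chkSym at h
  rw [List.all_eq_true] at h
  have h := h i (List.mem_range.2 hi)
  rw [List.all_eq_true] at h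
  have h := h j (List.mem_range.2 hj)
  rw [Bool.and_eq_true] at h
  exact ⟨Nat.eq_of_beq_eq_true h.1, Nat.eq_of_beq_eq_true h.2⟩

/-- six cases of a permutation of a line -/
lemma perm_cases {s i j k : ℕ} (h : isPerm s i j k = true) :
    (i = li s ∧ j = lj s ∧ k = lk s) ∨ (i = lj s ∧ j = li s ∧ k = lk s) ∨
    (i = li s ∧ j = lk s ∧ k = lj s) ∨ (i = lk s ∧ j = li s ∧ k = lj s) ∨
    (i = lj s ∧ j = lk s ∧ k = li s) ∨ (i = lk s ∧ j = lj s ∧ k = li s) := by
  unfold isPerm at h
  simp only [Bool.or_eq_true, Bool.and_eq_true] at h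
  have e : ∀ a b : ℕ, Nat.beq a b = true → a = b := fun a b h => Nat.eq_of_beq_eq_true h
  rcases h with (((((⟨⟨h1, h2⟩, h3⟩ | ⟨⟨h1, h2⟩, h3⟩) | ⟨⟨h1, h2⟩, h3⟩) | ⟨⟨h1, h2⟩, h3⟩) |
    ⟨⟨h1, h2⟩, h3⟩) | ⟨⟨h1, h2⟩, h3⟩)
  · exact Or.inl ⟨e _ _ h1, e _ _ h2, e _ _ h3⟩
  · exact Or.inr (Or.inl ⟨e _ _ h1, e _ _ h2, e _ _ h3⟩)
  · exact Or.inr (Or.inr (Or.inl ⟨e _ _ h1, e _ _ h2, e _ _ h3⟩))
  · exact Or.inr (Or.inr (Or.inr (Or.inl ⟨e _ _ h1, e _ _ h2, e _ _ h3⟩)))
  · exact Or.inr (Or.inr (Or.inr (Or.inr (Or.inl ⟨e _ _ h1, e _ _ h2, e _ _ h3⟩))))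
  · exact Or.inr (Or.inr (Or.inr (Or.inr (Or.inr ⟨e _ _ h1, e _ _ h2, e _ _ h3⟩))))

lemma third_spec {i j : ℕ} (hi : i < 10) (hj : j < 10) (h : third i j < 10) :
    ∃ s < 13, isPerm s i j (third i j) = true := by
  have h1 := chkThird_true
  unfold chkThird at h1
  rw [List.all_eq_true] at h1
  have h1 := h1 i (List.mem_range.2 hi)
  rw [List.all_eq_true] at h1
  have h1 := h1 j (List.mem_range.2 hj)
  rw [Bool.or_eq_true, List.any_eq_true] at h1
  rcases h1 with h1 | ⟨s, hs, h1⟩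
  · rw [Bool.not_eq_true', ← Bool.not_eq_true, Nat.blt_eq] at h1
    exact absurd h h1
  · exact ⟨s, List.mem_range.1 hs, h1⟩

lemma sup_big {κ a : ℕ} (hκ : κ < 23) (ha : 10 ≤ a) : sup κ a = false := by
  unfold sup
  rw [← Bool.not_eq_true]
  intro h
  cases h1 : Nat.blt κ 10 with
  | true =>
    rw [h1, cond_true] at h
    have := Nat.eq_of_beq_eq_true h
    rw [Nat.blt_eq] at h1
    omega
  | false =>
    rw [h1, cond_false] at h
    have h2 : ¬ κ < 10 := by
      intro h3
      rw [← Nat.blt_eq] at h3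
      rw [h3] at h1
      exact Bool.noConfusion h1
    obtain ⟨h4, h5, h6, -⟩ := line_spec (s := κ - 10) (by omega)
    simp only [Bool.or_eq_true] at h
    rcases h with (h | h) | h
    · have := Nat.eq_of_beq_eq_true h; omega
    · have := Nat.eq_of_beq_eq_true h; omega
    · have := Nat.eq_of_beq_eq_true h; omega

end checks

section fld
variable {Ω : Type} [Field Ω] [Algebra ℚ Ω] {ι : Ω} (hι : ι ^ 2 = -1)

include hι in
lemma iota_ne : ι ≠ 0 := by
  rintro rfl
  norm_num at hι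

include hι in
lemma pow_inj4 {x y : ℕ} (h : ι ^ x = ι ^ y) : x % 4 = y % 4 := by
  have hc : CharZero Ω := algebraRat.charZero Ω
  rw [← pow_mod4 hι x, ← pow_mod4 hι y] at h
  have hx : x % 4 < 4 := Nat.mod_lt _ (by norm_num)
  have hy : y % 4 < 4 := Nat.mod_lt _ (by norm_num)
  generalize x % 4 = a at h hx ⊢
  generalize y % 4 = b at h hy ⊢
  have h3 : ι ^ 3 = -ι := by rw [pow_succ, hι]; ring
  have h0 := iota_ne hι
  have h1 : ι ≠ 1 := by rintro rfl; norm_num at hι
  have h2 : ι ≠ -1 := by rintro rfl; norm_num at hι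
  have h4 : (1 : Ω) ≠ -1 := by norm_num
  have h5 : ι ≠ -ι := by
    intro h6
    have : (2 : Ω) * ι = 0 := by linear_combination h6
    rcases mul_eq_zero.1 this with h7 | h7
    · norm_num at h7
    · exact h0 h7
  interval_cases a <;> interval_cases b <;> simp only [pow_zero, pow_one, hι, h3] at h <;>
    first
    | rfl
    | (exfalso; first
        | exact h1 h.symm | exact h1 h | exact h2 h | exact h2 h.symm | exact h4 h
        | exact h4 h.symm | exact h5 h | exact h5 h.symm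
        | (apply h2; linear_combination -h) | (apply h1; linear_combination -h)
        | (apply h2; linear_combination h) | (apply h1; linear_combination h))

/-- the hypothesis on the matrix: vanishing of the relations -/
def HP (ι : Ω) (p : Matrix (Fin 10) (Fin 10) Ω) : Prop :=
  ∀ s < 23, ∀ n < 43, ev (-ι) (qv ι p n) (qq s) = 0

variable {p : Matrix (Fin 10) (Fin 10) Ω} (hP : HP ι p) (hdet : IsUnit p.det)

open Classical in
/-- flags of a row -/
noncomputable def FF (p : Matrix (Fin 10) (Fin 10) Ω) (r a : ℕ) : Bool := decide (pr p r a ≠ 0)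

open Classical in
lemma FF_true {r a : ℕ} : FF p r a = true ↔ pr p r a ≠ 0 := by
  unfold FF
  exact decide_eq_true_iff

open Classical in
lemma FF_false {r a : ℕ} : FF p r a = false ↔ pr p r a = 0 := by
  unfold FF
  rw [decide_eq_false_iff_not, not_not]

lemma pr_big {r a : ℕ} (ha : 10 ≤ a) : pr p r a = 0 := by
  unfold pr
  rw [dif_neg]
  omega

include hι hP in
/-- relations for a row -/
lemma row_rel {r : ℕ} (hr : r < 10) :
    (∀ s < 13, ∃ μ, pr p r (lj s) * pr p r (lk s) = ι ^ l1 s * μ ∧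
      pr p r (li s) * pr p r (lk s) = ι ^ l2 s * μ ∧
      pr p r (li s) * pr p r (lj s) = ι ^ l3 s * μ) ∧ ∀ q ∈ ordL, pr p r q.1 * pr p r q.2 = 0 := by
  have hc : CharZero Ω := algebraRat.charZero Ω
  have h := rel_of_zero hι (YY (-ι) p r) fun n hn => YY_zero p r n (hP r (by omega) n hn)
  have hS : ∀ a b, SS (YY (-ι) p r) a b = 2 * (pr p r a * pr p r b) := by
    intro a b
    unfold SS
    rw [YY_square p hr, YY_square p hr]
    ring
  simp only [hS] at h
  have h2 : (2 : Ω) ≠ 0 := by norm_num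
  refine ⟨fun s hs => ?_, fun q hq => ?_⟩
  · obtain ⟨μ, h3, h4, h5⟩ := h.1 s hs
    refine ⟨μ / 2, ?_, ?_, ?_⟩
    · field_simp; linear_combination h3
    · field_simp; linear_combination h4
    · field_simp; linear_combination h5
  · exact (mul_eq_zero.1 (h.2 q hq)).resolve_left h2

include hι in
lemma unit_mul_ne {e : ℕ} {μ : Ω} : ι ^ e * μ ≠ 0 ↔ μ ≠ 0 := by
  constructor
  · intro h h2
    apply h
    rw [h2, mul_zero]
  · intro h
    exact mul_ne_zero (pow_ne_zero _ (iota_ne hι)) h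

lemma FF_and {r a b : ℕ} : (FF p r a && FF p r b) = true ↔ pr p r a * pr p r b ≠ 0 := by
  rw [Bool.and_eq_true, FF_true, FF_true]
  exact mul_ne_zero_iff.symm

include hι hP in
lemma good_row {r : ℕ} (hr : r < 10) : goodF (FF p r) = true := by
  obtain ⟨h1, h2⟩ := row_rel hι hP hr
  unfold goodF
  rw [Bool.and_eq_true, List.all_eq_true, List.all_eq_true]
  constructor
  · intro q hq
    rw [Bool.not_eq_true', ← Bool.not_eq_true, FF_and, not_not]
    exact h2 q hq
  · intro s hs
    obtain ⟨μ, h3, h4, h5⟩ := h1 s (List.mem_range.1 hs)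
    rw [Bool.and_eq_true, beq_iff_eq, beq_iff_eq]
    constructor
    · rw [Bool.eq_iff_iff, FF_and, FF_and, h3, h4, unit_mul_ne hι, unit_mul_ne hι]
    · rw [Bool.eq_iff_iff, FF_and, FF_and, h4, h5, unit_mul_ne hι, unit_mul_ne hι]

include hdet in
lemma row_ne {r : ℕ} (hr : r < 10) : ∃ a < 10, pr p r a ≠ 0 := by
  by_contra h
  push Not at h
  have h1 : p.det = 0 := by
    apply Matrix.det_eq_zero_of_row_eq_zero (⟨r, hr⟩ : Fin 10)
    intro j
    have := h j j.2
    rw [show pr p r j = pr p ((⟨r, hr⟩ : Fin 10) : ℕ) j from rfl, pr_val] at this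
    exact this
  rw [h1] at hdet
  exact not_isUnit_zero hdet

include hι hP hdet in
/-- the support of a row is a point or a line -/
lemma exists_sup {r : ℕ} (hr : r < 10) : ∃ κ < 23, FF p r = sup κ := by
  have h := allB_spec 10 clsP cls_true ((List.range 10).map (FF p r)) (by simp)
  have hget : ∀ a, ((List.range 10).map (FF p r)).getD a false = FF p r a := by
    intro a
    by_cases ha : a < 10
    · rw [List.getD_eq_getElem _ _ (by simpa using ha), List.getElem_map, List.getElem_range]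
    · rw [List.getD_eq_default _ _ (by simpa using ha)]
      symm
      rw [FF_false]
      exact pr_big (not_lt.1 ha)
  unfold clsP at h
  simp only [hget] at h
  rw [show (fun a => FF p r a) = FF p r from rfl, good_row hι hP hr, Bool.not_true, Bool.false_or,
    Bool.or_eq_true] at h
  rcases h with h | h
  · exfalso
    obtain ⟨a, ha, hne⟩ := row_ne hdet hr
    rw [List.all_eq_true] at h
    have h1 := h (FF p r a) (List.mem_map.2 ⟨a, List.mem_range.2 ha, rfl⟩)
    rw [Bool.not_eq_true', FF_false] at h1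
    exact hne h1
  · rw [List.any_eq_true] at h
    obtain ⟨κ, hκ, h⟩ := h
    have hκ := List.mem_range.1 hκ
    refine ⟨κ, hκ, ?_⟩
    funext a
    by_cases ha : a < 10
    · rw [List.all_eq_true] at h
      have := h a (List.mem_range.2 ha)
      rwa [beq_iff_eq] at this
    · rw [sup_big hκ (not_lt.1 ha), FF_false]
      exact pr_big (not_lt.1 ha)

/-- six term lemma -/
lemma six (x1 x2 x3 x4 x5 x6 : Ω) (b1 b2 b3 b4 b5 b6 : Bool) (h1 : b1 = true ↔ x1 ≠ 0)
    (h2 : b2 = true ↔ x2 ≠ 0) (h3 : b3 = true ↔ x3 ≠ 0) (h4 : b4 = true ↔ x4 ≠ 0)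
    (h5 : b5 = true ↔ x5 ≠ 0) (h6 : b6 = true ↔ x6 ≠ 0) :
    (b1.toNat + b2.toNat + (b3.toNat + b4.toNat) + (b5.toNat + b6.toNat) = 0 →
      x1 + x2 + (x3 + x4) + (x5 + x6) = 0) ∧
    (b1.toNat + b2.toNat + (b3.toNat + b4.toNat) + (b5.toNat + b6.toNat) = 1 →
      x1 + x2 + (x3 + x4) + (x5 + x6) ≠ 0) := by
  cases b1 <;> cases b2 <;> cases b3 <;> cases b4 <;> cases b5 <;> cases b6 <;>
    simp_all

include hι hP in
/-- counting lemma for a line of rows -/
lemma SS_line {s : ℕ} (hs : s < 13) (a b : ℕ) :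
    (cntB (FF p (li s)) (FF p (lj s)) (FF p (lk s)) a b = 0 →
      SS (YY (-ι) p (10 + s)) a b = 0) ∧
    (cntB (FF p (li s)) (FF p (lj s)) (FF p (lk s)) a b = 1 →
      SS (YY (-ι) p (10 + s)) a b ≠ 0) := by
  have hι' : (-ι) ^ 2 = -1 := by rw [neg_sq, hι]
  have hS : SS (YY (-ι) p (10 + s)) a b =
      (-ι) ^ l3 s * (pr p (li s) a * pr p (lj s) b) + (-ι) ^ l3 s * (pr p (li s) b * pr p (lj s) a) +
      ((-ι) ^ l2 s * (pr p (li s) a * pr p (lk s) b) + (-ι) ^ l2 s * (pr p (li s) b * pr p (lk s) a))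
      + ((-ι) ^ l1 s * (pr p (lj s) a * pr p (lk s) b) +
        (-ι) ^ l1 s * (pr p (lj s) b * pr p (lk s) a)) := by
    unfold SS
    rw [YY_line p hs, YY_line p hs]
    ring
  have hu : ∀ (r r' c d e : ℕ), (FF p r c && FF p r' d) = true ↔
      (-ι) ^ e * (pr p r c * pr p r' d) ≠ 0 := by
    intro r r' c d e
    rw [Bool.and_eq_true, FF_true, FF_true, unit_mul_ne hι']
    exact mul_ne_zero_iff.symm
  rw [hS]
  unfold cntB
  exact six _ _ _ _ _ _ _ _ _ _ _ _ (hu _ _ _ _ _) (hu _ _ _ _ _) (hu _ _ _ _ _) (hu _ _ _ _ _)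
    (hu _ _ _ _ _) (hu _ _ _ _ _)

include hι hP in
lemma surv_line {s : ℕ} (hs : s < 13) :
    survB (FF p (li s)) (FF p (lj s)) (FF p (lk s)) = true := by
  have h := rel_of_zero hι (YY (-ι) p (10 + s)) fun n hn =>
    YY_zero p (10 + s) n (hP (10 + s) (by omega) n hn)
  unfold survB
  rw [Bool.and_eq_true, List.all_eq_true, List.all_eq_true]
  constructor
  · intro q hq
    rw [Bool.not_eq_true', ← Bool.not_eq_true]
    intro h1
    exact (SS_line hι hP hs q.1 q.2).2 (Nat.eq_of_beq_eq_true h1) (h.2 q hq)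
  · intro t ht
    obtain ⟨μ, h3, h4, h5⟩ := h.1 t (List.mem_range.1 ht)
    rw [Bool.not_eq_true', ← Bool.not_eq_true]
    intro h1
    rw [Bool.and_eq_true] at h1
    obtain ⟨hz, ho⟩ := h1
    have e : ∀ a b : ℕ, Nat.beq a b = true → a = b := fun a b h => Nat.eq_of_beq_eq_true h
    have hz' : μ = 0 := by
      by_contra hne
      simp only [Bool.or_eq_true] at hz
      rcases hz with (hz | hz) | hz
      · have := (SS_line hι hP hs _ _).1 (e _ _ hz)
        rw [h3] at this
        exact (unit_mul_ne hι).2 hne this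
      · have := (SS_line hι hP hs _ _).1 (e _ _ hz)
        rw [h4] at this
        exact (unit_mul_ne hι).2 hne this
      · have := (SS_line hι hP hs _ _).1 (e _ _ hz)
        rw [h5] at this
        exact (unit_mul_ne hι).2 hne this
    simp only [Bool.or_eq_true] at ho
    rcases ho with (ho | ho) | ho
    · have := (SS_line hι hP hs _ _).2 (e _ _ ho)
      rw [h3, hz', mul_zero] at this
      exact this rfl
    · have := (SS_line hι hP hs _ _).2 (e _ _ ho)
      rw [h4, hz', mul_zero] at this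
      exact this rfl
    · have := (SS_line hι hP hs _ _).2 (e _ _ ho)
      rw [h5, hz', mul_zero] at this
      exact this rfl

include hι hP in
/-- rows with the same support are proportional -/
lemma prop_rows {r r' κ : ℕ} (hr : r < 10) (hr' : r' < 10) (hκ : κ < 23)
    (h : FF p r = sup κ) (h' : FF p r' = sup κ) (a b : ℕ) :
    pr p r a * pr p r' b = pr p r b * pr p r' a := by
  have hz : ∀ a, sup κ a = false → pr p r a = 0 ∧ pr p r' a = 0 := by
    intro a ha
    exact ⟨FF_false.1 (by rw [h]; exact ha), FF_false.1 (by rw [h']; exact ha)⟩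
  by_cases ha : sup κ a = true
  swap
  · obtain ⟨h1, h2⟩ := hz a (by simpa using ha)
    rw [h1, h2]; ring
  by_cases hb : sup κ b = true
  swap
  · obtain ⟨h1, h2⟩ := hz b (by simpa using hb)
    rw [h1, h2]; ring
  by_cases hk : κ < 10
  · have hs : ∀ a, sup κ a = true → a = κ := by
      intro a ha
      unfold sup at ha
      have : Nat.blt κ 10 = true := by rw [Nat.blt_eq]; exact hk
      rw [this, cond_true] at ha
      exact Nat.eq_of_beq_eq_true ha
    rw [hs a ha, hs b hb]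
  · obtain ⟨s, rfl⟩ : ∃ s, κ = 10 + s := ⟨κ - 10, by omega⟩
    have hs : s < 13 := by omega
    have hsup : ∀ a, sup (10 + s) a = true ↔ (a = li s ∨ a = lj s) ∨ a = lk s := by
      intro a
      unfold sup
      have : Nat.blt (10 + s) 10 = false := by
        rw [← Bool.not_eq_true, Nat.blt_eq]; omega
      rw [this, cond_false, Nat.add_sub_cancel_left]
      simp only [Bool.or_eq_true]
      have e : ∀ a b : ℕ, Nat.beq a b = true ↔ a = b := fun a b =>
        ⟨fun h => Nat.eq_of_beq_eq_true h, fun h => by subst h; simp⟩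
      rw [e, e, e]
    -- a common multiple
    have key : ∀ r < 10, FF p r = sup (10 + s) → ∃ t : Ω, pr p r (li s) * ι ^ l1 s = t ∧
        pr p r (lj s) * ι ^ l2 s = t ∧ pr p r (lk s) * ι ^ l3 s = t := by
      intro r hr h
      obtain ⟨μ, h3, h4, h5⟩ := (row_rel hι hP hr).1 s hs
      have hi : pr p r (li s) ≠ 0 := FF_true.1 (by rw [h, hsup]; simp)
      have hj : pr p r (lj s) ≠ 0 := FF_true.1 (by rw [h, hsup]; simp)
      have hk : pr p r (lk s) ≠ 0 := FF_true.1 (by rw [h, hsup]; simp)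
      refine ⟨_, rfl, ?_, ?_⟩
      · apply mul_left_cancel₀ hk
        linear_combination (ι ^ l2 s) * h3 - (ι ^ l1 s) * h4
      · apply mul_left_cancel₀ hj
        linear_combination (ι ^ l3 s) * h3 - (ι ^ l1 s) * h5
    obtain ⟨t, t1, t2, t3⟩ := key r hr h
    obtain ⟨t', t1', t2', t3'⟩ := key r' hr' h'
    have hall : ∀ a, sup (10 + s) a = true → ∃ e : ℕ, pr p r a * ι ^ e = t ∧
        pr p r' a * ι ^ e = t' := by
      intro a ha
      rw [hsup] at ha
      rcases ha with (rfl | rfl) | rfl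
      · exact ⟨_, t1, t1'⟩
      · exact ⟨_, t2, t2'⟩
      · exact ⟨_, t3, t3'⟩
    obtain ⟨e1, a1, a2⟩ := hall a ha
    obtain ⟨e2, b1, b2⟩ := hall b hb
    have hne : ι ^ e1 * ι ^ e2 ≠ 0 :=
      mul_ne_zero (pow_ne_zero _ (iota_ne hι)) (pow_ne_zero _ (iota_ne hι))
    apply mul_left_cancel₀ hne
    calc ι ^ e1 * ι ^ e2 * (pr p r a * pr p r' b) = (pr p r a * ι ^ e1) * (pr p r' b * ι ^ e2) := by
          ring
      _ = (pr p r b * ι ^ e2) * (pr p r' a * ι ^ e1) := by rw [a1, a2, b1, b2, mul_comm]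
      _ = _ := by ring

include hι hP hdet in
lemma sup_inj {r r' κ : ℕ} (hr : r < 10) (hr' : r' < 10) (hκ : κ < 23)
    (h : FF p r = sup κ) (h' : FF p r' = sup κ) : r = r' := by
  by_contra hne
  obtain ⟨a, ha, hra⟩ := row_ne hdet hr
  let w : Fin 10 → Ω := fun i => if (i : ℕ) = r then pr p r' a else
    if (i : ℕ) = r' then - pr p r a else 0
  have hw : Matrix.vecMul w p = 0 := by
    ext b
    rw [Matrix.vecMul, dotProduct, Pi.zero_apply]
    have h1 : ∀ i : Fin 10, w i * p i b = (if i = (⟨r, hr⟩ : Fin 10) then pr p r' a * p i b else 0) +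
        (if i = (⟨r', hr'⟩ : Fin 10) then - pr p r a * p i b else 0) := by
      intro i
      simp only [w]
      by_cases h1 : (i : ℕ) = r
      · have h2 : i = ⟨r, hr⟩ := Fin.ext h1
        have h3 : ¬ i = ⟨r', hr'⟩ := by
          intro h4
          apply hne
          rw [← h1, h4]
        rw [if_pos h1, if_pos h2, if_neg h3, add_zero]
      · have h2 : ¬ i = ⟨r, hr⟩ := fun h => h1 (by rw [h])
        rw [if_neg h1, if_neg h2, zero_add]
        by_cases h3 : (i : ℕ) = r'
        · rw [if_pos h3, if_pos (Fin.ext h3)]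
        · rw [if_neg h3, if_neg (fun h => h3 (by rw [h])), zero_mul]
    simp only [h1]
    rw [Finset.sum_add_distrib, Finset.sum_ite_eq' Finset.univ, Finset.sum_ite_eq' Finset.univ]
    simp only [Finset.mem_univ, if_true]
    have h2 := prop_rows hι hP hr hr' hκ h h' a b
    have h3 : pr p r b = p ⟨r, hr⟩ b := pr_val p ⟨r, hr⟩ b
    have h4 : pr p r' b = p ⟨r', hr'⟩ b := pr_val p ⟨r', hr'⟩ b
    rw [h3, h4] at h2
    linear_combination -h2
  have h5 := Matrix.eq_zero_of_vecMul_eq_zero (fun h => by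
    rw [h] at hdet
    exact not_isUnit_zero hdet) hw
  have h6 := congrFun h5 ⟨r', hr'⟩
  simp only [w, Pi.zero_apply] at h6
  rw [if_neg (fun h => hne h.symm)] at h6
  simp only [if_true, neg_eq_zero] at h6
  exact hra h6

end fld

end Pool.Agent.Helper413.Gal
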