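import Mathlib
import Pool.Agent.Helper413.Gal.NI4

set_option autoImplicit false
set_option linter.unusedSectionVars false

namespace Pool.Agent.Helper413.Gal

lemma third_distinct {i j : ℕ} (hi : i < 10) (hj : j < 10) (h : third i j < 10) :
    i ≠ j ∧ third i j ≠ i ∧ third i j ≠ j := by
  obtain ⟨s, hs, hp⟩ := third_spec hi hj h
  obtain ⟨h1, h2, h3, -⟩ := line_spec hs
  rcases perm_cases hp with ⟨a, b, c⟩ | ⟨a, b, c⟩ | ⟨a, b, c⟩ | ⟨a, b, c⟩ | ⟨a, b, c⟩ | ⟨a, b, c⟩ <;>
    omega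

lemma mem_nb {r a : ℕ} (h : a ∈ nb r) : a < 10 ∧ third r a < 10 := by
  unfold nb at h
  rw [List.mem_filter, List.mem_range] at h
  exact ⟨h.1, by simpa using h.2⟩

lemma nodup_nb (r : ℕ) : (nb r).Nodup := by
  unfold nb
  exact List.nodup_range.filter _

lemma length_le {l l' : List ℕ} (h : l.Nodup) (hs : ∀ a ∈ l, a ∈ l') : l.length ≤ l'.length :=
  (h.subperm hs).length_le

lemma mem_partners {κ a b : ℕ} (ha : a < 23) (hb : b < 23) (h1 : a ≠ κ) (h2 : b ≠ κ) (h3 : b ≠ a)
    (h : surv κ a b = true) : a ∈ partners κ := by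
  have e : ∀ a b : ℕ, a ≠ b → (!Nat.beq a b) = true := by
    intro a b hab
    rw [Bool.not_eq_true', ← Bool.not_eq_true]
    intro h
    exact hab (Nat.eq_of_beq_eq_true h)
  unfold partners
  rw [List.mem_filter, List.mem_range]
  refine ⟨ha, ?_⟩
  rw [Bool.and_eq_true, List.any_eq_true]
  refine ⟨e _ _ h1, b, List.mem_range.2 hb, ?_⟩
  rw [Bool.and_eq_true, Bool.and_eq_true]
  exact ⟨⟨e _ _ h2, e _ _ h3⟩, h⟩

section fld
variable {Ω : Type} [Field Ω] [Algebra ℚ Ω] {ι : Ω} (hι : ι ^ 2 = -1)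
variable {p : Matrix (Fin 10) (Fin 10) Ω} (hP : HP ι p) (hdet : IsUnit p.det)

/-- relation between the multipliers on a line -/
def QQ (ι : Ω) (K : ℕ → ℕ) (μ : ℕ → Ω) (i j k : ℕ) : Prop :=
  ∃ ν : Ω, ι ^ (3 * cf i j) * (μ i * μ j) = ι ^ cf (K i) (K j) * ν ∧
    ι ^ (3 * cf i k) * (μ i * μ k) = ι ^ cf (K i) (K k) * ν ∧
    ι ^ (3 * cf j k) * (μ j * μ k) = ι ^ cf (K j) (K k) * ν

lemma QQ.swap {K : ℕ → ℕ} {μ : ℕ → Ω} {i j k : ℕ} (hi : i < 10) (hj : j < 10)
    (hKi : K i < 10) (hKj : K j < 10) (h : QQ ι K μ i j k) : QQ ι K μ j i k := by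
  obtain ⟨ν, h1, h2, h3⟩ := h
  refine ⟨ν, ?_, h3, h2⟩
  rw [(sym_spec hj hi).1, (sym_spec hKj hKi).1, mul_comm (μ j)]
  exact h1

lemma QQ.rot {K : ℕ → ℕ} {μ : ℕ → Ω} {i j k : ℕ} (hj : j < 10) (hk : k < 10)
    (hKj : K j < 10) (hKk : K k < 10) (h : QQ ι K μ i j k) : QQ ι K μ i k j := by
  obtain ⟨ν, h1, h2, h3⟩ := h
  refine ⟨ν, h2, h1, ?_⟩
  rw [(sym_spec hk hj).1, (sym_spec hKk hKj).1, mul_comm (μ k)]
  exact h3

include hι in
lemma QQ.pair {K : ℕ → ℕ} {μ : ℕ → Ω} {i j k : ℕ} (hk : μ k ≠ 0) (h : QQ ι K μ i j k) :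
    μ i * ι ^ (3 * cf i k + cf (K j) (K k)) = μ j * ι ^ (3 * cf j k + cf (K i) (K k)) := by
  obtain ⟨ν, h1, h2, h3⟩ := h
  apply mul_left_cancel₀ hk
  rw [pow_add, pow_add]
  linear_combination (ι ^ cf (K j) (K k)) * h2 - (ι ^ cf (K i) (K k)) * h3

include hι hP hdet in
theorem no_matrix : False := by
  have hex := fun r (hr : r < 10) => exists_sup hι hP hdet hr
  choose! K hK1 hK2 using hex
  have hinj : ∀ r < 10, ∀ r' < 10, K r = K r' → r = r' := by
    intro r hr r' hr' h
    exact sup_inj hι hP hdet hr hr' (hK1 r hr) (hK2 r hr) (by rw [hK2 r' hr', h])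
  have hsurv : ∀ i < 10, ∀ j < 10, third i j < 10 → surv (K i) (K j) (K (third i j)) = true := by
    intro i hi j hj h
    obtain ⟨s, hs, hp⟩ := third_spec hi hj h
    have hb : surv (K (li s)) (K (lj s)) (K (lk s)) = true := by
      obtain ⟨h1, h2, h3, -⟩ := line_spec hs
      unfold surv
      rw [← hK2 _ (by omega), ← hK2 _ (by omega), ← hK2 _ h3]
      exact surv_line hι hP hs
    rcases perm_cases hp with ⟨a, b, c⟩ | ⟨a, b, c⟩ | ⟨a, b, c⟩ | ⟨a, b, c⟩ | ⟨a, b, c⟩ |
      ⟨a, b, c⟩ <;> rw [c, a, b]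
    · exact hb
    · rw [surv_swap]; exact hb
    · rw [surv_rot]; exact hb
    · rw [surv_swap, surv_rot]; exact hb
    · rw [surv_rot, surv_swap]; exact hb
    · rw [surv_swap, surv_rot, surv_swap]; exact hb
  have hpart : ∀ r < 10, ∀ a ∈ nb r, K a ∈ partners (K r) := by
    intro r hr a ha
    obtain ⟨ha1, ha2⟩ := mem_nb ha
    obtain ⟨d1, d2, d3⟩ := third_distinct hr ha1 ha2
    exact mem_partners (hK1 a ha1) (hK1 _ ha2) (fun h => d1 (hinj _ ha1 _ hr h).symm)
      (fun h => d2 (hinj _ ha2 _ hr h)) (fun h => d3 (hinj _ ha2 _ ha1 h)) (hsurv r hr a ha1 ha2)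
  have hnd : ∀ r, ((nb r).map K).Nodup := by
    intro r
    refine (nodup_nb r).map_on ?_
    intro a ha b hb h
    exact hinj a (mem_nb ha).1 b (mem_nb hb).1 h
  have hchk : ∀ κ, 10 ≤ κ → κ < 23 → (partners κ).length < 7 ∧
      ((partners κ).filter fun a => Nat.blt a 10).length < 6 := by
    intro κ h1 h2
    have h := chkPart_true
    unfold chkPart at h
    rw [List.all_eq_true] at h
    have h := h (κ - 10) (List.mem_range.2 (by omega))
    rw [show 10 + (κ - 10) = κ by omega, Bool.and_eq_true, Nat.blt_eq, Nat.blt_eq] at h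
    exact h
  have hnb := chkNb_true
  unfold chkNb at hnb
  rw [Bool.and_eq_true, List.all_eq_true, Nat.blt_eq] at hnb
  have hK9 : ∀ r < 9, K r < 10 := by
    intro r hr
    by_contra hge
    have h1 := (hchk (K r) (not_lt.1 hge) (hK1 r (by omega))).1
    have h2 := hnb.1 r (List.mem_range.2 hr)
    rw [Nat.blt_eq] at h2
    have h3 := length_le (hnd r) (l' := partners (K r)) (by
      intro a ha
      rw [List.mem_map] at ha
      obtain ⟨b, hb, rfl⟩ := ha
      exact hpart r (by omega) b hb)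
    rw [List.length_map] at h3
    omega
  have hK10 : ∀ r < 10, K r < 10 := by
    intro r hr
    rcases Nat.lt_or_ge r 9 with h9 | h9
    · exact hK9 r h9
    · have : r = 9 := by omega
      subst this
      by_contra hge
      have h1 := (hchk (K 9) (not_lt.1 hge) (hK1 9 (by omega))).2
      have h2 := hnb.2
      have h3 := length_le (hnd 9) (l' := (partners (K 9)).filter fun a => Nat.blt a 10) (by
        intro a ha
        rw [List.mem_map] at ha
        obtain ⟨b, hb, rfl⟩ := ha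
        rw [List.mem_filter, Nat.blt_eq]
        refine ⟨hpart 9 (by omega) b hb, hK9 b ?_⟩
        obtain ⟨h4, h5⟩ := mem_nb hb
        have := (third_distinct (by omega) h4 h5).1
        omega)
      rw [List.length_map] at h3
      omega
  have hthird : ∀ i < 10, ∀ j < 10, third i j < 10 → third (K i) (K j) = K (third i j) := by
    intro i hi j hj h
    have h1 := hsurv i hi j hj h
    obtain ⟨d1, d2, d3⟩ := third_distinct hi hj h
    have h2 := chkSing_true
    unfold chkSing at h2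
    rw [List.all_eq_true] at h2
    have h2 := h2 (K i) (List.mem_range.2 (hK10 i hi))
    rw [List.all_eq_true] at h2
    have h2 := h2 (K j) (List.mem_range.2 (hK10 j hj))
    rw [List.all_eq_true] at h2
    have h2 := h2 (K (third i j)) (List.mem_range.2 (hK10 _ h))
    rw [h1] at h2
    simp only [Bool.or_eq_true, Bool.not_true, Bool.false_eq_true, or_false] at h2
    rcases h2 with ((h2 | h2) | h2) | h2
    · exact absurd (hinj i hi j hj (Nat.eq_of_beq_eq_true h2)) d1
    · exact absurd (hinj j hj _ h (Nat.eq_of_beq_eq_true h2)) (Ne.symm d3)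
    · exact absurd (hinj i hi _ h (Nat.eq_of_beq_eq_true h2)) (Ne.symm d2)
    · exact Nat.eq_of_beq_eq_true h2
  -- multipliers
  let μ : ℕ → Ω := fun r => pr p r (K r)
  have hsup : ∀ r < 10, ∀ a, sup (K r) a = true ↔ a = K r := by
    intro r hr a
    unfold sup
    have : Nat.blt (K r) 10 = true := by rw [Nat.blt_eq]; exact hK10 r hr
    rw [this, cond_true]
    exact ⟨fun h => Nat.eq_of_beq_eq_true h, fun h => by subst h; simp⟩
  have hμ : ∀ r < 10, μ r ≠ 0 := by
    intro r hr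
    apply FF_true.1
    rw [hK2 r hr, hsup r hr]
  have hz : ∀ r < 10, ∀ a, a ≠ K r → pr p r a = 0 := by
    intro r hr a ha
    by_contra hne
    exact ha ((hsup r hr a).1 (by rw [← hK2 r hr]; exact FF_true.2 hne))
  have hneg : ∀ e : ℕ, (-ι) ^ e = ι ^ (3 * e) := by
    intro e
    have h3 : ι ^ 3 = -ι := by rw [pow_succ, hι]; ring
    rw [pow_mul, h3]
  have hQ0 : ∀ s < 13, QQ ι K μ (li s) (lj s) (lk s) := by
    intro s hs
    obtain ⟨g1, g2, g3, g4, g5, g6, g7⟩ := line_spec hs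
    have gi : li s < 10 := by omega
    have gj : lj s < 10 := by omega
    have dij : K (li s) ≠ K (lj s) := fun h => by have := hinj _ gi _ gj h; omega
    have dik : K (li s) ≠ K (lk s) := fun h => by have := hinj _ gi _ g3 h; omega
    have djk : K (lj s) ≠ K (lk s) := fun h => by have := hinj _ gj _ g3 h; omega
    have h := rel_of_zero hι (YY (-ι) p (10 + s)) fun n hn =>
      YY_zero p (10 + s) n (hP (10 + s) (by omega) n hn)
    have h3 := hthird _ gi _ gj (by rw [g4]; exact g3)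
    rw [g4] at h3
    have h4 : third (K (li s)) (K (lj s)) < 10 := by rw [h3]; exact hK10 _ g3
    obtain ⟨s', hs', hp⟩ := third_spec (hK10 _ gi) (hK10 _ gj) h4
    rw [h3] at hp
    obtain ⟨k1, k2, k3, k4, k5, k6, k7⟩ := line_spec hs'
    obtain ⟨ν, n1, n2, n3⟩ := h.1 s' hs'
    rw [← k7] at n1
    rw [← k6] at n2
    rw [← k5] at n3
    have hSc : ∀ a b, SS (YY (-ι) p (10 + s)) a b = SS (YY (-ι) p (10 + s)) b a := by
      intro a b
      unfold SS
      rw [add_comm]
    have hS : SS (YY (-ι) p (10 + s)) (K (li s)) (K (lj s)) =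
          ι ^ cf (K (li s)) (K (lj s)) * ν ∧
        SS (YY (-ι) p (10 + s)) (K (li s)) (K (lk s)) = ι ^ cf (K (li s)) (K (lk s)) * ν ∧
        SS (YY (-ι) p (10 + s)) (K (lj s)) (K (lk s)) = ι ^ cf (K (lj s)) (K (lk s)) * ν := by
      have c1 := (sym_spec (i := li s') (j := lj s') (by omega) (by omega)).1
      have c2 := (sym_spec (i := li s') (j := lk s') (by omega) (by omega)).1
      have c3 := (sym_spec (i := lj s') (j := lk s') (by omega) (by omega)).1
      rcases perm_cases hp with ⟨a, b, c⟩ | ⟨a, b, c⟩ | ⟨a, b, c⟩ | ⟨a, b, c⟩ | ⟨a, b, c⟩ |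
        ⟨a, b, c⟩ <;> rw [c, a, b]
      · exact ⟨n3, n2, n1⟩
      · exact ⟨by rw [hSc, ← c1]; exact n3, n1, n2⟩
      · exact ⟨n2, n3, by rw [hSc, ← c3]; exact n1⟩
      · exact ⟨by rw [hSc, ← c2]; exact n2, by rw [hSc, ← c3]; exact n1, n3⟩
      · exact ⟨n1, by rw [hSc, ← c1]; exact n3, by rw [hSc, ← c2]; exact n2⟩
      · exact ⟨by rw [hSc, ← c3]; exact n1, by rw [hSc, ← c2]; exact n2,
          by rw [hSc, ← c1]; exact n3⟩
    have e1 : SS (YY (-ι) p (10 + s)) (K (li s)) (K (lj s)) =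
        (-ι) ^ l3 s * (μ (li s) * μ (lj s)) := by
      unfold SS
      rw [YY_line p hs, YY_line p hs, hz _ g3 _ dik, hz _ g3 _ djk, hz _ gj _ dij,
        hz _ gi _ (Ne.symm dij)]
      ring
    have e2 : SS (YY (-ι) p (10 + s)) (K (li s)) (K (lk s)) =
        (-ι) ^ l2 s * (μ (li s) * μ (lk s)) := by
      unfold SS
      rw [YY_line p hs, YY_line p hs, hz _ g3 _ dik, hz _ gj _ dij, hz _ gj _ (Ne.symm djk),
        hz _ gi _ (Ne.symm dik)]
      ring
    have e3 : SS (YY (-ι) p (10 + s)) (K (lj s)) (K (lk s)) =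
        (-ι) ^ l1 s * (μ (lj s) * μ (lk s)) := by
      unfold SS
      rw [YY_line p hs, YY_line p hs, hz _ g3 _ djk, hz _ gi _ (Ne.symm dij),
        hz _ gj _ (Ne.symm djk), hz _ gi _ (Ne.symm dik)]
      ring
    rw [e1, e2, e3, hneg, hneg, hneg, ← g5, ← g6, ← g7] at hS
    exact ⟨ν, hS.1, hS.2.1, hS.2.2⟩
  have hQ : ∀ i < 10, ∀ j < 10, third i j < 10 → QQ ι K μ i j (third i j) := by
    intro i hi j hj h
    obtain ⟨s, hs, hp⟩ := third_spec hi hj h
    have hb := hQ0 s hs
    obtain ⟨h1, h2, h3, -⟩ := line_spec hs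
    have gi : li s < 10 := by omega
    have gj : lj s < 10 := by omega
    have ki := hK10 _ gi
    have kj := hK10 _ gj
    have kk := hK10 _ h3
    rcases perm_cases hp with ⟨a, b, c⟩ | ⟨a, b, c⟩ | ⟨a, b, c⟩ | ⟨a, b, c⟩ | ⟨a, b, c⟩ |
      ⟨a, b, c⟩ <;> rw [c, a, b]
    · exact hb
    · exact hb.swap gi gj ki kj
    · exact hb.rot gj h3 kj kk
    · exact (hb.rot gj h3 kj kk).swap gi h3 ki kk
    · exact (hb.swap gi gj ki kj).rot gi h3 ki kk
    · exact ((hb.swap gi gj ki kj).rot gi h3 ki kk).swap gj h3 kj kk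
  -- the final contradiction
  set L := (List.range 10).map K with hL
  have hget : ∀ n < 10, L.getD n 10 = K n := by
    intro n hn
    rw [hL, List.getD_eq_getElem _ _ (by simpa using hn), List.getElem_map, List.getElem_range]
  have hLmk : L = mkL (K 0) (K 1) (K 3) := by
    have t2 : third (K 0) (K 1) = K 2 := hthird 0 (by omega) 1 (by omega) (by decide +kernel)
    have t4 : third (K 0) (K 3) = K 4 := hthird 0 (by omega) 3 (by omega) (by decide +kernel)
    have t7 : third (K 1) (K 3) = K 7 := hthird 1 (by omega) 3 (by omega) (by decide +kernel)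
    have t8 : third (K 0) (K 7) = K 8 := hthird 0 (by omega) 7 (by omega) (by decide +kernel)
    have t6 : third (K 1) (K 8) = K 6 := hthird 1 (by omega) 8 (by omega) (by decide +kernel)
    have t5 : third (K 0) (K 6) = K 5 := hthird 0 (by omega) 6 (by omega) (by decide +kernel)
    have t9 : third (K 2) (K 7) = K 9 := hthird 2 (by omega) 7 (by omega) (by decide +kernel)
    unfold mkL
    simp only [t2, t4, t7, t8, t6, t5, t9]
    rfl
  have hfin := chkFin_true
  unfold chkFin at hfin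
  rw [List.all_eq_true] at hfin
  have hfin := hfin (K 0) (List.mem_range.2 (hK10 0 (by omega)))
  rw [List.all_eq_true] at hfin
  have hfin := hfin (K 1) (List.mem_range.2 (hK10 1 (by omega)))
  rw [List.all_eq_true] at hfin
  have hfin := hfin (K 3) (List.mem_range.2 (hK10 3 (by omega)))
  rw [← hLmk, Bool.or_eq_true] at hfin
  rcases hfin with hfin | hfin
  · rw [Bool.not_eq_true', ← Bool.not_eq_true] at hfin
    apply hfin
    unfold condL
    rw [List.all_eq_true]
    intro s hs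
    obtain ⟨h1, h2, h3, h4, -⟩ := line_spec (List.mem_range.1 hs)
    rw [hget _ (by omega), hget _ (by omega), hget _ h3, Bool.and_eq_true, Nat.blt_eq,
      hthird _ (by omega) _ (by omega) (by rw [h4]; exact h3), h4]
    exact ⟨by simp, hK10 _ h3⟩
  · unfold triBad at hfin
    rw [List.any_eq_true] at hfin
    obtain ⟨j, hj, hfin⟩ := hfin
    rw [List.any_eq_true] at hfin
    obtain ⟨k, hk, hfin⟩ := hfin
    rw [List.any_eq_true] at hfin
    obtain ⟨l, hl, hfin⟩ := hfin
    rw [List.mem_range] at hj hk hl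
    rw [Bool.and_eq_true, Bool.and_eq_true, Bool.and_eq_true, Nat.blt_eq, Nat.blt_eq,
      Nat.blt_eq, Bool.not_eq_true', ← Bool.not_eq_true] at hfin
    obtain ⟨⟨⟨f1, f2⟩, f3⟩, f4⟩ := hfin
    apply f4
    have hpair : ∀ j < 10, ∀ k < 10, third j k < 10 →
        μ j * ι ^ AA L j k = μ k * ι ^ AA L k j := by
      intro j hj k hk h
      have h1 := (hQ j hj k hk h).pair hι (hμ _ h)
      unfold AA
      rw [(sym_spec hk hj).2, hget k hk, hget j hj, hget _ h]
      exact h1
    have e1 := hpair j hj k hk f1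
    have e2 := hpair k hk l hl f2
    have e3 := hpair l hl j hj f3
    have hne : μ j * μ k * μ l ≠ 0 := mul_ne_zero (mul_ne_zero (hμ j hj) (hμ k hk)) (hμ l hl)
    have e4 : ι ^ (AA L j k + AA L k l + AA L l j) = ι ^ (AA L k j + AA L l k + AA L j l) := by
      apply mul_left_cancel₀ hne
      rw [pow_add, pow_add, pow_add, pow_add]
      calc μ j * μ k * μ l * (ι ^ AA L j k * ι ^ AA L k l * ι ^ AA L l j)
          = (μ j * ι ^ AA L j k) * (μ k * ι ^ AA L k l) * (μ l * ι ^ AA L l j) := by ring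
        _ = (μ k * ι ^ AA L k j) * (μ l * ι ^ AA L l k) * (μ j * ι ^ AA L j l) := by
            rw [e1, e2, e3]
        _ = _ := by ring
    have e5 := pow_inj4 hι e4
    rw [e5]
    simp

end fld

end Pool.Agent.Helper413.Gal
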