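import Mathlib
import Pool.Agent.Helper413.Gal.NI5
import Pool.Agent.Helper413.Gal.Gen

set_option autoImplicit false
set_option linter.unusedSectionVars false

open MvPolynomial Pool.Agent.Helper226
open scoped TensorProduct

namespace Pool.Agent.Helper413.Gal

/-- two domains over a ring with the same kernel embed in a common field -/
theorem common_field {T A B : Type} [CommRing T] [CommRing A] [IsDomain A] [CommRing B]
    [IsDomain B] (f : T →+* A) (g : T →+* B) (h : RingHom.ker f = RingHom.ker g) :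
    ∃ (Ω : Type) (_ : Field Ω) (φ : A →+* Ω) (ψ : B →+* Ω), φ.comp f = ψ.comp g := by
  let P := RingHom.ker f
  have hP : P.IsPrime := RingHom.ker_isPrime f
  let κ := FractionRing (T ⧸ P)
  let f' : T ⧸ P →+* A := Ideal.Quotient.lift P f (fun a ha => ha)
  let g' : T ⧸ P →+* B := Ideal.Quotient.lift P g (fun a ha => by
    have : a ∈ RingHom.ker g := h ▸ ha
    exact this)
  have hf' : Function.Injective f' := by
    rw [injective_iff_map_eq_zero]
    intro x hx
    obtain ⟨y, rfl⟩ := Ideal.Quotient.mk_surjective x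
    have : f y = 0 := hx
    exact Ideal.Quotient.eq_zero_iff_mem.2 this
  have hg' : Function.Injective g' := by
    rw [injective_iff_map_eq_zero]
    intro x hx
    obtain ⟨y, rfl⟩ := Ideal.Quotient.mk_surjective x
    have h1 : g y = 0 := hx
    have h2 : y ∈ RingHom.ker g := h1
    rw [← h] at h2
    exact Ideal.Quotient.eq_zero_iff_mem.2 h2
  let F1 := FractionRing A
  let F2 := FractionRing B
  let a1 : κ →+* F1 := IsFractionRing.lift (A := T ⧸ P) (g := (algebraMap A F1).comp f')
    ((IsFractionRing.injective A F1).comp hf')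
  let a2 : κ →+* F2 := IsFractionRing.lift (A := T ⧸ P) (g := (algebraMap B F2).comp g')
    ((IsFractionRing.injective B F2).comp hg')
  letI : Algebra κ F1 := a1.toAlgebra
  letI : Algebra κ F2 := a2.toAlgebra
  have hnt : Nontrivial (F1 ⊗[κ] F2) := inferInstance
  obtain ⟨M, hM⟩ := Ideal.exists_maximal (F1 ⊗[κ] F2)
  refine ⟨(F1 ⊗[κ] F2) ⧸ M, Ideal.Quotient.field M,
    (Ideal.Quotient.mk M).comp ((Algebra.TensorProduct.includeLeft : F1 →ₐ[κ] F1 ⊗[κ] F2).toRingHom.comp
      (algebraMap A F1)),
    (Ideal.Quotient.mk M).comp ((Algebra.TensorProduct.includeRight : F2 →ₐ[κ] F1 ⊗[κ] F2).toRingHom.comp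
      (algebraMap B F2)), ?_⟩
  ext t
  simp only [RingHom.comp_apply]
  congr 1
  let x : κ := algebraMap (T ⧸ P) κ (Ideal.Quotient.mk P t)
  have h1 : algebraMap κ F1 x = algebraMap A F1 (f t) := by
    change a1 x = _
    exact IsFractionRing.lift_algebraMap _ _
  have h2 : algebraMap κ F2 x = algebraMap B F2 (g t) := by
    change a2 x = _
    exact IsFractionRing.lift_algebraMap _ _
  rw [← h1, ← h2]
  change (Algebra.TensorProduct.includeLeft : F1 →ₐ[κ] F1 ⊗[κ] F2) (algebraMap κ F1 x) =
    (Algebra.TensorProduct.includeRight : F2 →ₐ[κ] F1 ⊗[κ] F2) (algebraMap κ F2 x)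
  rw [AlgHom.commutes, AlgHom.commutes]

section
variable {K : Type} [Field K] [Algebra ℚ K] {ι ι' : K} (hι : ι ^ 2 = -1) (hι' : ι' ^ 2 = -1)

include hι hι' in
theorem pfr_ne (hneg : ι' = -ι) : pfr hι ≠ pfr hι' := by
  intro heq
  obtain ⟨Ω, _, φ, ψ, hφψ⟩ := common_field (extc K (chW hι)).toRingHom (extc K (chW hι')).toRingHom
    heq
  letI : Algebra K Ω := (φ.comp (algebraMap K (WK hι))).toAlgebra
  letI : Algebra ℚ Ω := ((φ.comp (algebraMap K (WK hι))).comp (algebraMap ℚ K)).toAlgebra
  haveI : IsScalarTower ℚ K Ω := IsScalarTower.of_algebraMap_eq' rfl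
  let φ' : WK hι →ₐ[K] Ω := { φ with commutes' := fun r => rfl }
  let ψ' : WK hι' →ₐ[K] Ω :=
    { ψ with
      commutes' := fun r => by
        have h1 := DFunLike.congr_fun hφψ (algebraMap K (TT K) r)
        have h2 : (extc K (chW hι)).toRingHom (algebraMap K (TT K) r) = algebraMap K (WK hι) r :=
          (extc K (chW hι)).commutes r
        have h3 : (extc K (chW hι')).toRingHom (algebraMap K (TT K) r) = algebraMap K (WK hι') r :=
          (extc K (chW hι')).commutes r
        rw [RingHom.comp_apply, RingHom.comp_apply, h2, h3] at h1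
        exact h1.symm }
  have hch : (chW hι).map (φ'.restrictScalars ℚ) = (chW hι').map (ψ'.restrictScalars ℚ) := by
    have h1 : φ'.comp (extc K (chW hι)) = ψ'.comp (extc K (chW hι')) := by
      apply AlgHom.ext
      intro x
      exact DFunLike.congr_fun hφψ x
    have h2 := congrArg chc h1
    rwa [chc_comp, chc_comp, chc_extc, chc_extc] at h2
  -- both sides are members of the families
  have key : ∀ {ι : K} (hι : ι ^ 2 = -1) (θ : WK hι →ₐ[K] Ω),
      ∃ (g : Matrix (Fin 10) (Fin 10) Ω) (a : Fin 10 → Ω) (c : ℕ → ℕ → Ω)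
        (hN : IsUnit (NN _ (commT_yfam (sq_alg (R := Ω) hι) g a c)).det), IsUnit g.det ∧
        (chW hι).map (θ.restrictScalars ℚ) = fch (sq_alg (R := Ω) hι) g a c hN := by
    intro ι hι θ
    have hN : IsUnit (NN _ (commT_yfam (sq_alg (R := Ω) hι) ((gW hι).map θ) (fun i => θ (aW hι i))
        (fun s t => θ (cW hι s t)))).det := by
      have h1 := NN_map θ.toRingHom _ (commT_yfam (sq_alg (R := WK hι) hι) (gW hι) (aW hι) (cW hι)) _
        (commT_yfam (sq_alg (R := Ω) hι) ((gW hι).map θ) (fun i => θ (aW hι i))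
        (fun s t => θ (cW hι s t))) (by
          intro i v
          rw [map_yfam]
          have h2 : θ.toRingHom (algebraMap K (WK hι) ι) = algebraMap K Ω ι := θ.commutes ι
          rw [h2]
          rfl)
      rw [h1]
      have h2 := RingHom.map_det θ.toRingHom (NN _ (commT_yfam (sq_alg (R := WK hι) hι) (gW hι)
        (aW hι) (cW hι)))
      rw [RingHom.mapMatrix_apply] at h2
      rw [← h2]
      exact (isUnit_NW hι).map θ.toRingHom
    refine ⟨(gW hι).map θ, fun i => θ (aW hι i), fun s t => θ (cW hι s t), hN, ?_, ?_⟩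
    · have h2 := RingHom.map_det θ.toRingHom (gW hι)
      rw [RingHom.mapMatrix_apply] at h2
      have h3 : IsUnit ((gW hι).map θ.toRingHom).det := by
        rw [← h2]
        exact (isUnit_gW hι).map θ.toRingHom
      exact h3
    · unfold chW
      apply fch_map
      · exact θ.commutes ι
      · intro i j; rfl
      · intro i; rfl
      · intro i j; rfl
  obtain ⟨g, a, c, hN, hg, h1⟩ := key hι φ'
  obtain ⟨g', a', c', hN', hg', h2⟩ := key hι' ψ'
  rw [h1, h2] at hch
  obtain ⟨p, hp, hrel⟩ := key_rel (sq_alg (R := Ω) hι) (sq_alg (R := Ω) hι') g a c hN hg g' a' c'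
    hN' hg' hch
  refine no_matrix (sq_alg (R := Ω) hι) (p := p) ?_ hp
  intro s hs n hn
  have h3 : -(algebraMap K Ω ι) = algebraMap K Ω ι' := by rw [hneg, map_neg]
  rw [h3]
  exact hrel s hs n hn

end

end Pool.Agent.Helper413.Gal
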