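import Mathlib
import Pool.Agent.Helper413.Gal.Defs
import Pool.Agent.Helper413.Gal.NI6

set_option autoImplicit false
set_option linter.unusedSectionVars false

open scoped TensorProduct
open CategoryTheory CategoryTheory.Limits AlgebraicGeometry MvPolynomial
open Pool.Agent.Helper226

namespace Pool.Agent.Helper413.Gal

/-- the constructed Hilbert scheme -/
noncomputable abbrev HH : HilbertScheme ℚ (MvPolynomial (Fin 10) ℚ) 66 :=
  hilb ℚ (MvPolynomial (Fin 10) ℚ) 66

noncomputable def cι : Spec (CommRingCat.of (AR ℚ bQ)) ⟶ HH.H :=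
  chartι ℚ (Idx.single bQ)

instance cι_open : IsOpenImmersion cι :=
  inferInstanceAs (IsOpenImmersion (chartι ℚ (Idx.single bQ)))

lemma cι_str : cι ≫ HH.s = Spec.map (CommRingCat.ofHom (algebraMap ℚ (AR ℚ bQ))) :=
  chartι_str ℚ (Idx.single bQ)

section
variable (K : Type) [Field K] [Algebra ℚ K]

lemma isPullback_outer : IsPullback
    (Spec.map (CommRingCat.ofHom (Algebra.TensorProduct.includeRight : AR ℚ bQ →ₐ[ℚ] TT K).toRingHom))
    (Spec.map (CommRingCat.ofHom (algebraMap K (TT K))))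
    (Spec.map (CommRingCat.ofHom (algebraMap ℚ (AR ℚ bQ))))
    (Spec.map (CommRingCat.ofHom (algebraMap ℚ K))) := by
  have h := isPullback_SpecMap_of_isPushout _ _ _ _
    (CommRingCat.isPushout_tensorProduct ℚ K (AR ℚ bQ))
  exact h.flip

/-- the chart of the base change -/
noncomputable def Psi : Spec (CommRingCat.of (TT K)) ⟶ bcH HH K :=
  pullback.lift (Spec.map (CommRingCat.ofHom
      (Algebra.TensorProduct.includeRight : AR ℚ bQ →ₐ[ℚ] TT K).toRingHom) ≫ cι)
    (Spec.map (CommRingCat.ofHom (algebraMap K (TT K)))) (by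
      rw [Category.assoc, cι_str]
      exact (isPullback_outer K).w)

lemma Psi_fst : Psi K ≫ pullback.fst _ _ = Spec.map (CommRingCat.ofHom
      (Algebra.TensorProduct.includeRight : AR ℚ bQ →ₐ[ℚ] TT K).toRingHom) ≫ cι :=
  pullback.lift_fst _ _ _

lemma Psi_snd : Psi K ≫ pullback.snd _ _ = Spec.map (CommRingCat.ofHom (algebraMap K (TT K))) :=
  pullback.lift_snd _ _ _

instance Psi_open : IsOpenImmersion (Psi K) := by
  have h1 : IsPullback (Psi K ≫ pullback.snd HH.s (Spec.map (CommRingCat.ofHom (algebraMap ℚ K))))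
      (Spec.map (CommRingCat.ofHom
        (Algebra.TensorProduct.includeRight : AR ℚ bQ →ₐ[ℚ] TT K).toRingHom))
      (Spec.map (CommRingCat.ofHom (algebraMap ℚ K))) (cι ≫ HH.s) := by
    rw [Psi_snd, cι_str]
    exact (isPullback_outer K).flip
  have h2 : IsPullback (pullback.snd HH.s (Spec.map (CommRingCat.ofHom (algebraMap ℚ K))))
      (pullback.fst HH.s (Spec.map (CommRingCat.ofHom (algebraMap ℚ K))))
      (Spec.map (CommRingCat.ofHom (algebraMap ℚ K))) HH.s :=
    (IsPullback.of_hasPullback _ _).flip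
  have h3 := IsPullback.of_right h1 (Psi_fst K) h2
  exact MorphismProperty.of_isPullback (P := @IsOpenImmersion) h3.flip inferInstance

end

section pts
variable {K : Type} [Field K] [Algebra ℚ K]

/-- the point of the Hilbert scheme given by a chart datum -/
noncomputable def fOf (c : Chart ℚ bQ K) : PointsOver ℚ HH.H HH.s K := ⟨mor c, mor_str c⟩

lemma secOf_chart (c : Chart ℚ bQ K) : secOf HH (fOf c) =
    Spec.map (CommRingCat.ofHom (extc K c).toRingHom) ≫ Psi K := by
  apply pullback.hom_ext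
  · unfold secOf
    rw [pullback.lift_fst, Category.assoc, Psi_fst, ← Category.assoc, ← Spec.map_comp,
      ← CommRingCat.ofHom_comp]
    have h : (extc K c).toRingHom.comp
        (Algebra.TensorProduct.includeRight : AR ℚ bQ →ₐ[ℚ] TT K).toRingHom =
        (clf c).toRingHom := by
      ext x
      exact extc_include c x
    rw [h]
    rfl
  · unfold secOf
    rw [pullback.lift_snd, Category.assoc, Psi_snd, ← Spec.map_comp, ← CommRingCat.ofHom_comp]
    have h : (extc K c).toRingHom.comp (algebraMap K (TT K)) = RingHom.id K := by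
      ext x
      exact (extc K c).commutes x
    rw [h]
    exact (Spec.map_id _).symm

/-- the point of the chart -/
noncomputable def zpc (c : Chart ℚ bQ K) : Spec (CommRingCat.of (TT K)) :=
  (⟨RingHom.ker (extc K c), RingHom.ker_isPrime _⟩ : PrimeSpectrum (TT K))

lemma ptOf_chart (c : Chart ℚ bQ K) : ptOf HH (fOf c) = Psi K (zpc c) := by
  unfold ptOf
  rw [secOf_chart, Scheme.Hom.comp_apply]
  congr 1

/-- Galois conjugation of points -/
lemma galAct_ptOf (𝓗 : HilbertScheme ℚ (MvPolynomial (Fin 10) ℚ) 66) (σ : K ≃ₐ[ℚ] K)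
    (f f' : PointsOver ℚ 𝓗.H 𝓗.s K)
    (h : f'.1 = Spec.map (CommRingCat.ofHom (σ : K →+* K)) ≫ f.1) :
    galAct 𝓗 σ (ptOf 𝓗 f) = ptOf 𝓗 f' := by
  have h1 : secOf 𝓗 f ≫ galAct 𝓗 σ =
      Spec.map (CommRingCat.ofHom (σ.symm : K →+* K)) ≫ secOf 𝓗 f' := by
    unfold secOf galAct
    apply pullback.hom_ext
    · rw [Category.assoc, pullback.map, pullback.lift_fst, ← Category.assoc, pullback.lift_fst,
        Category.comp_id, Category.assoc, pullback.lift_fst, h, ← Category.assoc,
        ← Spec.map_comp, ← CommRingCat.ofHom_comp]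
      have h2 : ((σ.symm : K →+* K).comp (σ : K →+* K)) = RingHom.id K := by
        ext x
        simp
      rw [h2]
      have h3 : Spec.map (CommRingCat.ofHom (RingHom.id K)) = 𝟙 _ := Spec.map_id _
      rw [h3, Category.id_comp]
    · rw [Category.assoc, pullback.map, pullback.lift_snd, ← Category.assoc, pullback.lift_snd,
        Category.id_comp, Category.assoc, pullback.lift_snd, Category.comp_id]
  unfold ptOf
  have h2 : galAct 𝓗 σ (secOf 𝓗 f (⟨⊥, Ideal.isPrime_bot⟩ : PrimeSpectrum K)) =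
      (secOf 𝓗 f ≫ galAct 𝓗 σ) (⟨⊥, Ideal.isPrime_bot⟩ : PrimeSpectrum K) := by
    rw [Scheme.Hom.comp_apply]
  rw [h2, h1, Scheme.Hom.comp_apply]
  congr 1
  apply PrimeSpectrum.ext
  have h3 : ∀ y : PrimeSpectrum K, y.asIdeal = ⊥ := fun y =>
    (Ideal.eq_bot_or_top y.asIdeal).resolve_right y.isPrime.ne_top
  rw [h3]

end pts

section comp
variable {K : Type} [Field K] [Algebra ℚ K] {ι : K} (hι : ι ^ 2 = -1)

/-- the generic point of the component in the chart -/
noncomputable def gpt : Spec (CommRingCat.of (TT K)) :=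
  (⟨pfr hι, inferInstance⟩ : PrimeSpectrum (TT K))

/-- the base point -/
noncomputable def bpt : bcH HH K := ptOf HH (fOf (bch hι))

lemma bpt_eq : bpt hι = Psi K (zpc (bch hι)) := ptOf_chart _

/-- uniqueness of the component through the base point -/
theorem comp_unique (Z : Set (bcH HH K)) (hZ : Z ∈ irreducibleComponents (bcH HH K))
    (hx : bpt hι ∈ Z) : Z = closure {Psi K (gpt hι)} := by
  have hopen := (Psi K).isOpenEmbedding
  have hne : (Z ∩ Set.range (Psi K)).Nonempty := ⟨bpt hι, hx, by rw [bpt_eq]; exact ⟨_, rfl⟩⟩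
  have h1 : (Psi K) ⁻¹' Z ∈ irreducibleComponents (Spec (CommRingCat.of (TT K))) :=
    preimage_mem_irreducibleComponents hZ hopen hne
  have h1' : ((Psi K) ⁻¹' Z : Set (PrimeSpectrum (TT K))) ∈
      irreducibleComponents (PrimeSpectrum (TT K)) := h1
  rw [← PrimeSpectrum.zeroLocus_minimalPrimes] at h1'
  obtain ⟨q, hq, hqZ⟩ := h1'
  have hqp : q.IsPrime := hq.1.1
  have hmem : zpc (bch hι) ∈ ((Psi K) ⁻¹' Z : Set (PrimeSpectrum (TT K))) := by
    change Psi K (zpc (bch hι)) ∈ Z
    rw [← bpt_eq]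
    exact hx
  rw [← hqZ] at hmem
  have hqm : q ≤ RingHom.ker (extc K (bch hι)) := hmem
  have hle : pfr hι ≤ q := by
    intro f hf
    obtain ⟨u, hu, huf⟩ := loc_main hι f hf
    have h2 : u * f ∈ q := by rw [huf]; exact q.zero_mem
    rcases hqp.mem_or_mem h2 with h3 | h3
    · exact absurd (hqm h3) hu
    · exact h3
  have heq : q = pfr hι := le_antisymm (hq.2 ⟨inferInstance, bot_le⟩ hle) hle
  have hZc : IsClosed Z := isClosed_of_mem_irreducibleComponents Z hZ
  have h3 := closure_image_preimage_of_isPreirreducible (Psi K) hopen.isOpenMap Z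
    ⟨zpc (bch hι), by change Psi K (zpc (bch hι)) ∈ Z; rw [← bpt_eq]; exact hx⟩ hZ.1.2 hZc
  rw [← h3]
  have h4 : ((Psi K) ⁻¹' Z : Set (Spec (CommRingCat.of (TT K)))) = closure {gpt hι} := by
    have h5 := PrimeSpectrum.closure_singleton (gpt hι : PrimeSpectrum (TT K))
    have h6 : (closure {gpt hι} : Set (Spec (CommRingCat.of (TT K)))) =
      PrimeSpectrum.zeroLocus (pfr hι) := h5
    rw [h6, ← heq]
    exact hqZ.symm
  rw [h4]
  apply subset_antisymm
  · apply closure_minimal _ isClosed_closure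
    rw [Set.image_subset_iff]
    apply closure_minimal
    · rw [Set.singleton_subset_iff]
      exact subset_closure rfl
    · exact isClosed_closure.preimage (Psi K).continuous
  · apply closure_mono
    rw [Set.singleton_subset_iff]
    exact ⟨_, subset_closure rfl, rfl⟩

/-- the component -/
noncomputable def ZZ : Set (bcH HH K) := irreducibleComponent (bpt hι)

lemma ZZ_mem : ZZ hι ∈ irreducibleComponents (bcH HH K) :=
  irreducibleComponent_mem_irreducibleComponents _

lemma bpt_mem : bpt hι ∈ ZZ hι := mem_irreducibleComponent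

lemma ZZ_eq : ZZ hι = closure {Psi K (gpt hι)} := comp_unique hι _ (ZZ_mem hι) (bpt_mem hι)

lemma ZZ_unique (Z : Set (bcH HH K)) (hZ : Z ∈ irreducibleComponents (bcH HH K))
    (hx : bpt hι ∈ Z) : Z = ZZ hι := by
  rw [comp_unique hι Z hZ hx, ZZ_eq]

lemma ZZ_ne {ι' : K} (hι' : ι' ^ 2 = -1) (hneg : ι' = -ι) : ZZ hι ≠ ZZ hι' := by
  intro h
  rw [ZZ_eq, ZZ_eq] at h
  have h1 : Psi K (gpt hι) = Psi K (gpt hι') :=
    (isGenericPoint_closure (x := Psi K (gpt hι))).eq (by rw [h]; exact isGenericPoint_closure)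
  have h2 := (Psi K).isOpenEmbedding.injective h1
  have h3 : pfr hι = pfr hι' := congrArg (fun y : PrimeSpectrum (TT K) => y.asIdeal) h2
  exact pfr_ne hι hι' hneg h3

/-- the component is moved by a Galois element changing the sign of `ι` -/
theorem ZZ_moved (σ : K ≃ₐ[ℚ] K) (hσ : σ ι = -ι) :
    galAct HH σ '' ZZ hι ≠ ZZ hι := by
  intro h
  have hι' : (-ι) ^ 2 = -1 := by rw [neg_sq, hι]
  have h1 : galAct HH σ (bpt hι) = bpt hι' := by
    unfold bpt
    apply galAct_ptOf
    change mor (bch hι') = _ ≫ mor (bch hι)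
    have h2 : (bch hι).map (σ : K →ₐ[ℚ] K) = bch hι' := bch_map hι hι' _ hσ
    rw [← h2, mor_map]
    rfl
  have h2 : bpt hι' ∈ ZZ hι := by
    rw [← h, ← h1]
    exact ⟨_, bpt_mem hι, rfl⟩
  exact ZZ_ne hι hι' rfl (ZZ_unique hι' _ (ZZ_mem hι) h2)

end comp

end Pool.Agent.Helper413.Gal
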