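import Mathlib
import Pool.Agent.Helper413.Gal.Top
import Pool.Agent.Helper413.Gal.Quad

set_option autoImplicit false
set_option linter.unusedSectionVars false

open scoped TensorProduct
open CategoryTheory CategoryTheory.Limits AlgebraicGeometry MvPolynomial
open Pool.Agent.Helper226

namespace Pool.Agent.Helper413.Gal

section
variable {K : Type} [Field K] [Algebra ℚ K] {ι : K} (hι : ι ^ 2 = -1)

lemma mem_idealK (c : Chart ℚ bQ K) (x : MvPolynomial (Fin 10) K) :
    x ∈ idealK HH (fOf c) ↔ PP c x = 0 := by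
  have h1 : (HH.Φ K (fOf c)).1 = c.ideal := homEquiv_mor c
  unfold idealK
  rw [h1]
  constructor
  · intro h
    obtain ⟨y, hy, rfl⟩ := (Ideal.mem_map_iff_of_surjective _
      (algebraTensorAlgEquiv (σ := Fin 10) ℚ K).surjective).1 h
    unfold PP
    simp only [LinearMap.comp_apply, AlgEquiv.toLinearMap_apply, AlgEquiv.symm_apply_apply]
    exact hy
  · intro h
    refine (Ideal.mem_map_iff_of_surjective _
      (algebraTensorAlgEquiv (σ := Fin 10) ℚ K).surjective).2
      ⟨(algebraTensorAlgEquiv ℚ K).symm x, h, AlgEquiv.apply_symm_apply _ _⟩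

lemma qq_eq : (List.range 23).map qq = qL := by decide +kernel

include hι in
lemma qpol_list : (List.range 23).map (qpol ι) = quadrics ι := by
  have h3 : ι ^ 3 = -ι := by rw [pow_succ, hι]; ring
  have h0 : (List.range 23).map (qpol ι) = ((List.range 23).map qq).map (ev ι (mono (xv K))) := by
    rw [List.map_map]; rfl
  have x0 : xv K 0 = X 0 := by unfold xv; rw [dif_pos (by norm_num)]; rfl
  have x1 : xv K 1 = X 1 := by unfold xv; rw [dif_pos (by norm_num)]; rfl
  have x2 : xv K 2 = X 2 := by unfold xv; rw [dif_pos (by norm_num)]; rfl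
  have x3 : xv K 3 = X 3 := by unfold xv; rw [dif_pos (by norm_num)]; rfl
  have x4 : xv K 4 = X 4 := by unfold xv; rw [dif_pos (by norm_num)]; rfl
  have x5 : xv K 5 = X 5 := by unfold xv; rw [dif_pos (by norm_num)]; rfl
  have x6 : xv K 6 = X 6 := by unfold xv; rw [dif_pos (by norm_num)]; rfl
  have x7 : xv K 7 = X 7 := by unfold xv; rw [dif_pos (by norm_num)]; rfl
  have x8 : xv K 8 = X 8 := by unfold xv; rw [dif_pos (by norm_num)]; rfl
  have x9 : xv K 9 = X 9 := by unfold xv; rw [dif_pos (by norm_num)]; rfl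
  rw [h0, qq_eq]
  unfold quadrics qL
  simp only [List.map_cons, List.map_nil, ev_cons, ev_nil, mono, List.prod_cons, List.prod_nil,
    x0, x1, x2, x3, x4, x5, x6, x7, x8, x9, hι, h3, pow_zero, pow_one, one_smul, mul_one, add_zero,
    neg_smul, smul_eq_C_mul]
  repeat' (first | (apply congrArg₂ List.cons) | rfl | ring1)

/-- the annihilator of `e0` -/
noncomputable def annI (Y : Fin 10 → Module.End K (Fin 66 → K)) (hY : CommT Y) :
    Ideal (MvPolynomial (Fin 10) K) where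
  carrier := {f | act Y hY f e0 = 0}
  zero_mem' := by simp
  add_mem' := by
    intro a b ha hb
    simp only [Set.mem_ofPred_eq] at ha hb ⊢
    rw [map_add, LinearMap.add_apply, ha, hb, add_zero]
  smul_mem' := by
    intro a b hb
    simp only [Set.mem_ofPred_eq, smul_eq_mul] at hb ⊢
    rw [map_mul, Module.End.mul_apply, hb, map_zero]

lemma mem_annI (Y : Fin 10 → Module.End K (Fin 66 → K)) (hY : CommT Y)
    (f : MvPolynomial (Fin 10) K) : f ∈ annI Y hY ↔ act Y hY f e0 = 0 := Iff.rfl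

include hι in
lemma mem_quadrics (q : MvPolynomial (Fin 10) K) :
    q ∈ quadrics ι ↔ ∃ s < 23, qpol ι s = q := by
  rw [← qpol_list hι, List.mem_map]
  simp [List.mem_range]

lemma quadricIdeal_eq : quadricIdeal ι = annI _ (commT_xop hι) := by
  apply le_antisymm
  · unfold quadricIdeal
    rw [Ideal.span_le]
    intro q hq
    obtain ⟨s, hs, rfl⟩ := (mem_quadrics hι q).1 hq
    exact act_qpol_base hι s hs
  · intro f hf
    have h1 := sub_mem_of_quadrics hι (quadricIdeal ι)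
      (fun s hs => Ideal.subset_span ((mem_quadrics hι _).2 ⟨s, hs, rfl⟩)) f
    rw [mem_annI] at hf
    rw [hf] at h1
    simpa using h1

theorem idealK_base : idealK HH (fOf (bch hι)) = quadricIdeal ι := by
  rw [quadricIdeal_eq hι]
  ext x
  rw [mem_idealK, PP_bch, mem_annI]

end

section galois
variable {K : Type} [Field K] [Algebra ℚ K]

lemma galAct_comp_symm (𝓗 : HilbertScheme ℚ (MvPolynomial (Fin 10) ℚ) 66) (σ : K ≃ₐ[ℚ] K) :
    galAct 𝓗 σ ≫ galAct 𝓗 σ.symm = 𝟙 _ := by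
  unfold galAct
  apply pullback.hom_ext
  · rw [Category.assoc, pullback.map, pullback.map, pullback.lift_fst, ← Category.assoc,
      pullback.lift_fst]
    simp
  · rw [Category.assoc, pullback.map, pullback.map, pullback.lift_snd, ← Category.assoc,
      pullback.lift_snd, Category.id_comp, Category.assoc, ← Spec.map_comp,
      ← CommRingCat.ofHom_comp]
    have h2 : ((σ.symm : K →+* K).comp (σ.symm.symm : K →+* K)) = RingHom.id K := by
      ext x
      simp
    rw [h2]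
    have h3 : Spec.map (CommRingCat.ofHom (RingHom.id K)) = 𝟙 _ := Spec.map_id _
    rw [h3]
    simp

lemma galAct_isIso (𝓗 : HilbertScheme ℚ (MvPolynomial (Fin 10) ℚ) 66) (σ : K ≃ₐ[ℚ] K) :
    IsIso (galAct 𝓗 σ) :=
  ⟨galAct 𝓗 σ.symm, galAct_comp_symm 𝓗 σ, by
    have := galAct_comp_symm 𝓗 σ.symm
    rwa [AlgEquiv.symm_symm] at this⟩

lemma image_comp (𝓗 : HilbertScheme ℚ (MvPolynomial (Fin 10) ℚ) 66) (σ : K ≃ₐ[ℚ] K)
    (Z : Set (bcH 𝓗 K)) (hZ : Z ∈ irreducibleComponents (bcH 𝓗 K)) :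
    galAct 𝓗 σ '' Z ∈ irreducibleComponents (bcH 𝓗 K) := by
  have h1 := galAct_isIso 𝓗 σ.symm
  have h3 : ∀ (τ : K ≃ₐ[ℚ] K) x, galAct 𝓗 τ.symm (galAct 𝓗 τ x) = x := by
    intro τ x
    have h4 : galAct 𝓗 τ.symm (galAct 𝓗 τ x) = (galAct 𝓗 τ ≫ galAct 𝓗 τ.symm) x := by
      rw [Scheme.Hom.comp_apply]
    rw [h4, galAct_comp_symm]
    rfl
  have h2 : galAct 𝓗 σ '' Z = (galAct 𝓗 σ.symm) ⁻¹' Z := by
    ext x
    constructor
    · rintro ⟨z, hz, rfl⟩
      rw [Set.mem_preimage, h3]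
      exact hz
    · intro hx
      refine ⟨_, hx, ?_⟩
      have := h3 σ.symm x
      rwa [AlgEquiv.symm_symm] at this
  rw [h2]
  refine preimage_mem_irreducibleComponents hZ (galAct 𝓗 σ.symm).isOpenEmbedding ?_
  obtain ⟨z, hz⟩ := hZ.1.1
  refine ⟨z, hz, galAct 𝓗 σ z, h3 σ z⟩

variable {ι : K} (hι : ι ^ 2 = -1)

lemma galAct_bpt (σ : K ≃ₐ[ℚ] K) {ι' : K} (hι' : ι' ^ 2 = -1) (h : σ ι = ι') :
    galAct HH σ (bpt hι) = bpt hι' := by
  unfold bpt
  apply galAct_ptOf
  change mor (bch hι') = _ ≫ mor (bch hι)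
  have h2 : (bch hι).map (σ : K →ₐ[ℚ] K) = bch hι' := bch_map hι hι' _ h
  rw [← h2, mor_map]
  rfl

lemma sq_cases {x : K} (h : x ^ 2 = -1) (hι : ι ^ 2 = -1) : x = ι ∨ x = -ι := by
  apply sq_eq_sq_iff_eq_or_eq_neg.1
  rw [h, hι]

lemma ZZ_fixed_iff (σ : K ≃ₐ[ℚ] K) : galAct HH σ '' ZZ hι = ZZ hι ↔ σ ι = ι := by
  constructor
  · intro h
    have h1 : (σ ι) ^ 2 = -1 := by rw [← map_pow, hι]; simp
    rcases sq_cases h1 hι with h2 | h2
    · exact h2
    · exact absurd h (ZZ_moved hι σ h2)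
  · intro h
    apply ZZ_unique hι
    · exact image_comp HH σ _ (ZZ_mem hι)
    · exact ⟨_, bpt_mem hι, galAct_bpt hι σ hι h⟩

end galois

section closure

lemma exists_i : ∃ ι : AlgebraicClosure ℚ, ι ^ 2 = -1 :=
  IsAlgClosed.exists_pow_nat_eq _ (by norm_num)

section
attribute [-instance] DivisionRing.toRatAlgebra

lemma exists_moving_aux (ι : AlgebraicClosure ℚ)
    (hι : ι ^ 2 = -1) : ∃ σ : AlgebraicClosure ℚ ≃ₐ[ℚ] AlgebraicClosure ℚ, σ ι ≠ ι := by
  by_contra hcon
  push Not at hcon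
  have h1 : ι ∈ (⊥ : IntermediateField ℚ (AlgebraicClosure ℚ)) := by
    rw [InfiniteGalois.mem_bot_iff_fixed]
    exact hcon
  rw [IntermediateField.mem_bot] at h1
  obtain ⟨q, rfl⟩ := h1
  have h2 : q ^ 2 = -1 := by
    have : algebraMap ℚ (AlgebraicClosure ℚ) (q ^ 2) = algebraMap ℚ (AlgebraicClosure ℚ) (-1) := by
      rw [map_pow, hι]; simp
    exact (algebraMap ℚ (AlgebraicClosure ℚ)).injective this
  nlinarith [sq_nonneg q]

end

lemma exists_moving (inst : Algebra ℚ (AlgebraicClosure ℚ)) (ι : AlgebraicClosure ℚ)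
    (hι : ι ^ 2 = -1) : ∃ σ : AlgebraicClosure ℚ ≃ₐ[ℚ] AlgebraicClosure ℚ, σ ι ≠ ι := by
  obtain rfl : inst = AlgebraicClosure.instAlgebra ℚ := Subsingleton.elim _ _
  exact exists_moving_aux ι hι

end closure

end Pool.Agent.Helper413.Gal
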