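import Mathlib
import Pool.Agent.Helper413.Gal.Uniq
import Pool.Agent.Helper413.Gal.Fin1

set_option autoImplicit false
set_option linter.unusedSectionVars false

open scoped TensorProduct
open CategoryTheory CategoryTheory.Limits AlgebraicGeometry MvPolynomial
open Pool.Agent.Helper226

namespace Pool.Agent.Helper413.Gal

section
variable {n d : ℕ} (𝓗₁ 𝓗₂ : HilbertScheme ℚ (MvPolynomial (Fin n) ℚ) d)
variable (K : Type) [Field K] [Algebra ℚ K]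

/-- comparison of the base changes -/
noncomputable def bcMor : bcH 𝓗₁ K ⟶ bcH 𝓗₂ K :=
  pullback.map _ _ _ _ (tmor 𝓗₁ 𝓗₂) (𝟙 _) (𝟙 _) (by rw [Category.comp_id, tmor_s])
    (by simp)

instance : IsIso (bcMor 𝓗₁ 𝓗₂ K) := by
  unfold bcMor
  infer_instance

lemma bcMor_snd : bcMor 𝓗₁ 𝓗₂ K ≫ pullback.snd _ _ = pullback.snd _ _ := by
  unfold bcMor
  rw [pullback.map, pullback.lift_snd, Category.comp_id]

variable {K}

lemma galAct_bcMor (σ : K ≃ₐ[ℚ] K) :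
    galAct 𝓗₁ σ ≫ bcMor 𝓗₁ 𝓗₂ K = bcMor 𝓗₁ 𝓗₂ K ≫ galAct 𝓗₂ σ := by
  unfold galAct bcMor
  apply pullback.hom_ext
  · simp only [Category.assoc, pullback.map, pullback.lift_fst, pullback.lift_fst_assoc,
      Category.comp_id]
  · simp only [Category.assoc, pullback.map, pullback.lift_snd, pullback.lift_snd_assoc,
      Category.comp_id]

lemma secOf_bcMor (f : PointsOver ℚ 𝓗₁.H 𝓗₁.s K) :
    secOf 𝓗₁ f ≫ bcMor 𝓗₁ 𝓗₂ K = secOf 𝓗₂ (tr 𝓗₁ 𝓗₂ K f) := by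
  unfold secOf bcMor
  apply pullback.hom_ext
  · simp only [Category.assoc, pullback.map, pullback.lift_fst, pullback.lift_fst_assoc, tr_val]
  · simp only [Category.assoc, pullback.map, pullback.lift_snd,
      Category.comp_id]

lemma ptOf_bcMor (f : PointsOver ℚ 𝓗₁.H 𝓗₁.s K) :
    bcMor 𝓗₁ 𝓗₂ K (ptOf 𝓗₁ f) = ptOf 𝓗₂ (tr 𝓗₁ 𝓗₂ K f) := by
  unfold ptOf
  rw [← secOf_bcMor, Scheme.Hom.comp_apply]

lemma idealK_tr (f : PointsOver ℚ 𝓗₁.H 𝓗₁.s K) :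
    idealK 𝓗₂ (tr 𝓗₁ 𝓗₂ K f) = idealK 𝓗₁ f := by
  unfold idealK
  rw [Φ_tr]

end

section comps
variable {X Y : Scheme.{0}} (e : X ⟶ Y) [IsIso e]

lemma isIso_image_eq (Z : Set X) : e '' Z = (inv e) ⁻¹' Z := by
  ext y
  constructor
  · rintro ⟨x, hx, rfl⟩
    have : (inv e) (e x) = x := by
      rw [← Scheme.Hom.comp_apply, IsIso.hom_inv_id]; rfl
    rw [Set.mem_preimage, this]
    exact hx
  · intro hy
    refine ⟨_, hy, ?_⟩
    rw [← Scheme.Hom.comp_apply, IsIso.inv_hom_id]; rfl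

lemma isIso_image_comp (Z : Set X) (hZ : Z ∈ irreducibleComponents X) :
    e '' Z ∈ irreducibleComponents Y := by
  rw [isIso_image_eq]
  refine preimage_mem_irreducibleComponents hZ (inv e).isOpenEmbedding ?_
  obtain ⟨z, hz⟩ := hZ.1.1
  refine ⟨z, hz, e z, ?_⟩
  rw [← Scheme.Hom.comp_apply, IsIso.hom_inv_id]; rfl

end comps

section main
variable (𝓗 : HilbertScheme ℚ (MvPolynomial (Fin 10) ℚ) 66) {K : Type} [Field K] [Algebra ℚ K]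
  {ι : K} (hι : ι ^ 2 = -1)

/-- the base point on any Hilbert scheme -/
noncomputable def fAny : PointsOver ℚ 𝓗.H 𝓗.s K := tr HH 𝓗 K (fOf (bch hι))

lemma idealK_fAny : idealK 𝓗 (fAny 𝓗 hι) = quadricIdeal ι := by
  unfold fAny
  rw [idealK_tr, idealK_base]

/-- the component on any Hilbert scheme -/
noncomputable def ZAny : Set (bcH 𝓗 K) := bcMor HH 𝓗 K '' ZZ hι

lemma ZAny_mem : ZAny 𝓗 hι ∈ irreducibleComponents (bcH 𝓗 K) :=
  isIso_image_comp (bcMor HH 𝓗 K) _ (ZZ_mem hι)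

lemma ptOf_fAny : ptOf 𝓗 (fAny 𝓗 hι) = bcMor HH 𝓗 K (bpt hι) := by
  unfold fAny bpt
  rw [ptOf_bcMor]

lemma fAny_mem : ptOf 𝓗 (fAny 𝓗 hι) ∈ ZAny 𝓗 hι := by
  rw [ptOf_fAny]
  exact ⟨_, bpt_mem hι, rfl⟩

lemma ZAny_unique (Z : Set (bcH 𝓗 K)) (hZ : Z ∈ irreducibleComponents (bcH 𝓗 K))
    (hx : ptOf 𝓗 (fAny 𝓗 hι) ∈ Z) : Z = ZAny 𝓗 hι := by
  have h1 := isIso_image_comp (inv (bcMor HH 𝓗 K)) Z hZ
  have h2 : inv (bcMor HH 𝓗 K) '' Z = ZZ hι := by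
    apply ZZ_unique hι _ h1
    refine ⟨_, hx, ?_⟩
    rw [ptOf_fAny, ← Scheme.Hom.comp_apply, IsIso.hom_inv_id]; rfl
  unfold ZAny
  rw [← h2, ← Set.image_comp]
  have h3 : (bcMor HH 𝓗 K : bcH HH K → bcH 𝓗 K) ∘ (inv (bcMor HH 𝓗 K) : bcH 𝓗 K → bcH HH K) =
      id := by
    funext x
    rw [Function.comp_apply, ← Scheme.Hom.comp_apply, IsIso.inv_hom_id]; rfl
  rw [h3, Set.image_id]

lemma ZAny_fixed_iff (σ : K ≃ₐ[ℚ] K) : galAct 𝓗 σ '' ZAny 𝓗 hι = ZAny 𝓗 hι ↔ σ ι = ι := by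
  rw [← ZZ_fixed_iff hι σ]
  unfold ZAny
  rw [← Set.image_comp]
  have h1 : (galAct 𝓗 σ : bcH 𝓗 K → bcH 𝓗 K) ∘ (bcMor HH 𝓗 K : bcH HH K → bcH 𝓗 K) =
      (bcMor HH 𝓗 K : bcH HH K → bcH 𝓗 K) ∘ (galAct HH σ : bcH HH K → bcH HH K) := by
    funext x
    rw [Function.comp_apply, Function.comp_apply, ← Scheme.Hom.comp_apply,
      ← Scheme.Hom.comp_apply, galAct_bcMor]
  rw [h1, Set.image_comp]
  exact (bcMor HH 𝓗 K).homeomorph.injective.image_injective.eq_iff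

end main

end Pool.Agent.Helper413.Gal
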