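import Mathlib
import Pool.Agent.Helper413.Gal.Trans

set_option autoImplicit false
set_option linter.unusedSectionVars false

open scoped TensorProduct
open CategoryTheory CategoryTheory.Limits AlgebraicGeometry MvPolynomial
open Pool.Agent.Helper226

namespace Pool.Agent.Helper413.Gal

section alg
variable (n : ℕ) (K : Type) [Field K] [Algebra ℚ K]
variable (R : Type) [CommRing R] [Algebra K R] [Algebra ℚ R] [IsScalarTower ℚ K R]

/-- comparison of the two forms of the polynomial ring over `R` -/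
noncomputable def EE : R ⊗[ℚ] MvPolynomial (Fin n) ℚ ≃ₐ[R] R ⊗[K] MvPolynomial (Fin n) K :=
  (algebraTensorAlgEquiv ℚ R).trans (algebraTensorAlgEquiv K R).symm

lemma EE_tmul (r : R) (p : MvPolynomial (Fin n) ℚ) :
    EE n K R (r ⊗ₜ p) = r ⊗ₜ (MvPolynomial.map (algebraMap ℚ K) p) := by
  unfold EE
  rw [AlgEquiv.trans_apply, AlgEquiv.symm_apply_eq]
  rw [algebraTensorAlgEquiv_tmul, algebraTensorAlgEquiv_tmul, MvPolynomial.map_map]
  congr 1
  rw [← IsScalarTower.algebraMap_eq]

variable {n K R}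

lemma fam_iff {d : ℕ} (I : Ideal (R ⊗[ℚ] MvPolynomial (Fin n) ℚ)) :
    I.map (EE n K R).toRingHom ∈ HilbFamily K (MvPolynomial (Fin n) K) d R ↔
      I ∈ HilbFamily ℚ (MvPolynomial (Fin n) ℚ) d R := by
  have e : ((R ⊗[ℚ] MvPolynomial (Fin n) ℚ) ⧸ I) ≃ₗ[R]
      ((R ⊗[K] MvPolynomial (Fin n) K) ⧸ I.map (EE n K R).toRingHom) :=
    (Ideal.quotientEquivAlg I (I.map (EE n K R).toRingHom) (EE n K R) rfl).toLinearEquiv
  unfold HilbFamily
  simp only [Set.mem_ofPred_eq]
  constructor
  · rintro ⟨h1, h2, h3⟩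
    have i1 : Module.Finite R ((R ⊗[ℚ] MvPolynomial (Fin n) ℚ) ⧸ I) := Module.Finite.equiv e.symm
    have i2 : Module.Projective R ((R ⊗[ℚ] MvPolynomial (Fin n) ℚ) ⧸ I) :=
      Module.Projective.of_equiv e.symm
    refine ⟨i1, i2, fun p => ?_⟩
    rw [← h3 p]
    exact congrFun (Module.rankAtStalk_eq_of_equiv e) p
  · rintro ⟨h1, h2, h3⟩
    have i1 : Module.Finite R _ := Module.Finite.equiv e
    have i2 : Module.Projective R _ := Module.Projective.of_equiv e
    refine ⟨i1, i2, fun p => ?_⟩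
    rw [← h3 p]
    exact congrFun (Module.rankAtStalk_eq_of_equiv e.symm) p

/-- comparison of the families -/
noncomputable def famEquiv {d : ℕ} : HilbFamily ℚ (MvPolynomial (Fin n) ℚ) d R ≃
    HilbFamily K (MvPolynomial (Fin n) K) d R where
  toFun I := ⟨I.1.map (EE n K R).toRingHom, (fam_iff I.1).2 I.2⟩
  invFun J := ⟨J.1.comap (EE n K R).toRingHom, by
    rw [← fam_iff (K := K)]
    have h : (J.1.comap (EE n K R).toRingHom).map (EE n K R).toRingHom = J.1 :=
      Ideal.map_comap_of_surjective _ (EE n K R).surjective _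
    rw [h]
    exact J.2⟩
  left_inv I := by
    apply Subtype.ext
    exact Ideal.comap_map_of_bijective (EE n K R).toRingHom (EE n K R).bijective
  right_inv J := by
    apply Subtype.ext
    exact Ideal.map_comap_of_surjective _ (EE n K R).surjective _

end alg

section scheme
variable {n d : ℕ} (𝓗 : HilbertScheme ℚ (MvPolynomial (Fin n) ℚ) d)
variable (K : Type) [Field K] [Algebra ℚ K]
variable (R : Type) [CommRing R] [Algebra K R] [Algebra ℚ R] [IsScalarTower ℚ K R]

/-- points of the base change -/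
noncomputable def ptsEquiv :
    PointsOver K (bcH 𝓗 K) (pullback.snd 𝓗.s (Spec.map (CommRingCat.ofHom (algebraMap ℚ K)))) R ≃
      PointsOver ℚ 𝓗.H 𝓗.s R where
  toFun f := ⟨f.1 ≫ pullback.fst _ _, by
    rw [Category.assoc, pullback.condition, ← Category.assoc, f.2, ← Spec.map_comp,
      ← CommRingCat.ofHom_comp, ← IsScalarTower.algebraMap_eq]⟩
  invFun g := ⟨pullback.lift g.1 (Spec.map (CommRingCat.ofHom (algebraMap K R))) (by
    rw [g.2, ← Spec.map_comp, ← CommRingCat.ofHom_comp, ← IsScalarTower.algebraMap_eq]),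
    pullback.lift_snd _ _ _⟩
  left_inv f := by
    apply Subtype.ext
    apply pullback.hom_ext
    · rw [pullback.lift_fst]
    · rw [pullback.lift_snd, f.2]
  right_inv g := by
    apply Subtype.ext
    exact pullback.lift_fst _ _ _

/-- the rational algebra structure -/
@[reducible] noncomputable def ratAlg (R : Type) [CommRing R] [Algebra K R] : Algebra ℚ R :=
  ((algebraMap K R).comp (algebraMap ℚ K)).toAlgebra

/-- the functor of points of the base change -/
noncomputable def bcΦ (R : Type) [CommRing R] [Algebra K R] :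
    PointsOver K (bcH 𝓗 K) (pullback.snd 𝓗.s (Spec.map (CommRingCat.ofHom (algebraMap ℚ K)))) R ≃
      HilbFamily K (MvPolynomial (Fin n) K) d R :=
  letI := ratAlg K R
  haveI : IsScalarTower ℚ K R := IsScalarTower.of_algebraMap_eq fun _ => rfl
  (ptsEquiv 𝓗 K R).trans ((𝓗.Φ R).trans famEquiv)

lemma EE_map {R R' : Type} [CommRing R] [Algebra K R] [Algebra ℚ R] [IsScalarTower ℚ K R]
    [CommRing R'] [Algebra K R'] [Algebra ℚ R'] [IsScalarTower ℚ K R'] (g : R →ₐ[K] R')
    (x : R ⊗[ℚ] MvPolynomial (Fin n) ℚ) :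
    EE n K R' (Algebra.TensorProduct.map (g.restrictScalars ℚ) (AlgHom.id ℚ _) x) =
      Algebra.TensorProduct.map g (AlgHom.id K _) (EE n K R x) := by
  induction x with
  | zero => simp
  | tmul r p =>
    rw [EE_tmul, Algebra.TensorProduct.map_tmul, Algebra.TensorProduct.map_tmul, EE_tmul]
    rfl
  | add x y hx hy => rw [map_add, map_add, map_add, map_add, hx, hy]

lemma map_map_congr {A B C D : Type} [CommRing A] [CommRing B] [CommRing C] [CommRing D]
    (p : B →+* D) (q : A →+* C) (r : A →+* B) (t : C →+* D) (h : ∀ x, p (r x) = t (q x))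
    (I : Ideal A) : (I.map r).map p = (I.map q).map t := by
  rw [Ideal.map_map, Ideal.map_map]
  congr 1
  ext x
  exact h x

/-- the base change of the Hilbert scheme is the Hilbert scheme of the base change -/
noncomputable def bcHilb : HilbertScheme K (MvPolynomial (Fin n) K) d where
  H := bcH 𝓗 K
  s := pullback.snd _ _
  Φ R := bcΦ 𝓗 K R
  natural R R' _ _ _ _ g f f' h := by
    let _ := ratAlg K R
    let _ := ratAlg K R'
    have : IsScalarTower ℚ K R := IsScalarTower.of_algebraMap_eq fun _ => rfl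
    have : IsScalarTower ℚ K R' := IsScalarTower.of_algebraMap_eq fun _ => rfl
    have h1 := 𝓗.natural R R' (g.restrictScalars ℚ) (ptsEquiv 𝓗 K R f) (ptsEquiv 𝓗 K R' f') (by
      change f'.1 ≫ pullback.fst _ _ = _ ≫ f.1 ≫ pullback.fst _ _
      rw [h, Category.assoc]
      rfl)
    change (𝓗.Φ R' (ptsEquiv 𝓗 K R' f')).1.map (EE n K R').toRingHom =
      ((𝓗.Φ R (ptsEquiv 𝓗 K R f)).1.map (EE n K R).toRingHom).map _
    rw [h1]
    exact map_map_congr (EE n K R').toRingHom (EE n K R).toRingHom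
      (Algebra.TensorProduct.map (g.restrictScalars ℚ)
        (AlgHom.id ℚ (MvPolynomial (Fin n) ℚ))).toRingHom
      (Algebra.TensorProduct.map g (AlgHom.id K (MvPolynomial (Fin n) K))).toRingHom
      (fun x => EE_map K g x) _

end scheme

section ideals
variable {n d : ℕ} (𝓗 : HilbertScheme ℚ (MvPolynomial (Fin n) ℚ) d)
variable (K : Type) [Field K] [i : Algebra ℚ K]

lemma idealOf_aux (j : Algebra ℚ K) (hj : j = i)
    (hT : @IsScalarTower ℚ K K i.toSMul _ j.toSMul)
    (g : PointsOver K (@bcH n d 𝓗 K _ i)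
      (pullback.snd 𝓗.s (Spec.map (CommRingCat.ofHom (@algebraMap ℚ K _ _ i)))) K) (h) :
    ((@famEquiv n K _ i K _ _ j hT d (@HilbertScheme.Φ ℚ _ _ _ _ d 𝓗 K _ j
      (@ptsEquiv n d 𝓗 K _ i K _ _ j hT g))).1).comap
        (Algebra.TensorProduct.includeRight : MvPolynomial (Fin n) K →ₐ[K]
          K ⊗[K] MvPolynomial (Fin n) K) =
      @idealK n d 𝓗 K _ i ⟨g.1 ≫ pullback.fst _ _, h⟩ := by
  subst hj
  unfold idealK
  have h1 : (ptsEquiv 𝓗 K K g) = ⟨g.1 ≫ pullback.fst _ _, h⟩ := rfl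
  rw [← h1]
  change ((𝓗.Φ K (ptsEquiv 𝓗 K K g)).1.map (EE n K K).toRingHom).comap _ =
    (𝓗.Φ K (ptsEquiv 𝓗 K K g)).1.map (algebraTensorAlgEquiv (σ := Fin n) ℚ K)
  generalize (𝓗.Φ K (ptsEquiv 𝓗 K K g)).1 = I
  ext x
  have h2 : ∀ y, EE n K K y = (algebraTensorAlgEquiv (σ := Fin n) K K).symm
    (algebraTensorAlgEquiv ℚ K y) := fun y => rfl
  have h3 : (algebraTensorAlgEquiv (σ := Fin n) K K).symm x = 1 ⊗ₜ x := by
    rw [AlgEquiv.symm_apply_eq, algebraTensorAlgEquiv_tmul, one_smul, Algebra.algebraMap_self,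
      MvPolynomial.map_id]
  rw [Ideal.mem_comap, Algebra.TensorProduct.includeRight_apply, ← h3]
  have hs1 : Function.Surjective (EE n K K).toRingHom := (EE n K K).surjective
  rw [Ideal.mem_map_iff_of_surjective _ hs1, Ideal.mem_map_iff_of_surjective _
    (algebraTensorAlgEquiv (σ := Fin n) ℚ K).surjective]
  constructor
  · rintro ⟨y, hy, hyx⟩
    refine ⟨y, hy, ?_⟩
    exact (algebraTensorAlgEquiv (σ := Fin n) K K).symm.injective hyx
  · rintro ⟨y, hy, rfl⟩
    exact ⟨y, hy, h2 y⟩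

/-- a point over `K` as a point over `ℚ` -/
noncomputable def down (g : PointsOver K (bcH 𝓗 K)
      (pullback.snd 𝓗.s (Spec.map (CommRingCat.ofHom (algebraMap ℚ K)))) K) :
    PointsOver ℚ 𝓗.H 𝓗.s K :=
  ⟨g.1 ≫ pullback.fst _ _, by
    rw [Category.assoc, pullback.condition, ← Category.assoc, g.2, ← Spec.map_comp,
      ← CommRingCat.ofHom_comp, Algebra.algebraMap_self, RingHom.id_comp]⟩

lemma ratAlg_self : ratAlg K K = i := by
  apply Algebra.algebra_ext
  intro r
  rfl

/-- the ideal of a point of the base change -/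
lemma idealOf_bcHilb (g : PointsOver K (bcH 𝓗 K)
      (pullback.snd 𝓗.s (Spec.map (CommRingCat.ofHom (algebraMap ℚ K)))) K) :
    (bcHilb 𝓗 K).idealOf g = idealK 𝓗 (down 𝓗 K g) :=
  idealOf_aux 𝓗 K (ratAlg K K) (ratAlg_self K)
    (@IsScalarTower.of_algebraMap_eq _ _ _ _ _ _ _ _ (ratAlg K K) fun _ => rfl) g _

/-- the point of the base change scheme given by a point -/
lemma ptOf_bcHilb (g : PointsOver K (bcH 𝓗 K)
      (pullback.snd 𝓗.s (Spec.map (CommRingCat.ofHom (algebraMap ℚ K)))) K)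
    (x : Spec (CommRingCat.of K)) :
    g.1 x = ptOf 𝓗 (down 𝓗 K g) := by
  have h1 : secOf 𝓗 (down 𝓗 K g) = g.1 := by
    unfold secOf
    apply pullback.hom_ext
    · rw [pullback.lift_fst]
      rfl
    · rw [pullback.lift_snd]
      refine Eq.trans ?_ g.2.symm
      exact (Spec.map_id _).symm
  unfold ptOf
  rw [h1]
  congr 1
  apply PrimeSpectrum.ext
  have h3 : ∀ y : PrimeSpectrum K, y.asIdeal = ⊥ := fun y =>
    (Ideal.eq_bot_or_top y.asIdeal).resolve_right y.isPrime.ne_top
  rw [h3]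

end ideals

end Pool.Agent.Helper413.Gal
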